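import Mathlib

/-!
# Germs of diffeomorphisms of the real line at the origin, and distortion elements

Definitions used by the results on `MP_b44c39_an`.
-/

namespace Run7.h21

open Filter Topology

/-- A germ at `0` of a map `ℝ → ℝ` which tends to `0` at `0`, that is, which fixes `0` and is
continuous at `0`. -/
@[ext]
structure FixGerm where
  /-- the underlying germ at `0` of a real function -/
  germ : Filter.Germ (𝓝 (0 : ℝ)) ℝ
  /-- the germ tends to `0` at `0` -/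
  tends : germ.Tendsto (𝓝 (0 : ℝ))

namespace FixGerm

/-- The germ of a function that tends to `0` at `0`. -/
def of (f : ℝ → ℝ) (hf : Tendsto f (𝓝 0) (𝓝 0)) : FixGerm := ⟨(f : Germ (𝓝 (0 : ℝ)) ℝ), hf⟩

theorem exists_rep (φ : FixGerm) :
    ∃ f : ℝ → ℝ, ∃ hf : Tendsto f (𝓝 0) (𝓝 0), φ = of f hf := by
  obtain ⟨g, hg⟩ := φ
  induction g using Filter.Germ.inductionOn with
  | h f => exact ⟨f, hg, rfl⟩

/-- Composition of germs: `φ * ψ` is the germ of `x ↦ φ (ψ x)`. -/
instance : Mul FixGerm where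
  mul φ ψ := ⟨φ.germ.compTendsto' ψ.germ ψ.tends, by
    obtain ⟨f, hf, rfl⟩ := φ.exists_rep
    obtain ⟨g, hg, rfl⟩ := ψ.exists_rep
    exact hf.comp hg⟩

instance : One FixGerm where
  one := of id tendsto_id

theorem of_mul_of {f g : ℝ → ℝ} (hf : Tendsto f (𝓝 0) (𝓝 0)) (hg : Tendsto g (𝓝 0) (𝓝 0)) :
    of f hf * of g hg = of (f ∘ g) (hf.comp hg) := rfl

theorem one_def : (1 : FixGerm) = of id tendsto_id := rfl

theorem of_eq_of {f g : ℝ → ℝ} (hf : Tendsto f (𝓝 0) (𝓝 0)) (hg : Tendsto g (𝓝 0) (𝓝 0)) :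
    of f hf = of g hg ↔ f =ᶠ[𝓝 0] g := by
  constructor
  · intro h
    exact Filter.Germ.coe_eq.1 (congrArg FixGerm.germ h)
  · intro h
    ext1
    exact Filter.Germ.coe_eq.2 h

/-- The monoid, under composition, of the germs at `0` of maps fixing `0` continuously. -/
instance : Monoid FixGerm where
  mul_assoc φ ψ χ := by
    obtain ⟨f, hf, rfl⟩ := φ.exists_rep
    obtain ⟨g, hg, rfl⟩ := ψ.exists_rep
    obtain ⟨h, hh, rfl⟩ := χ.exists_rep
    rfl
  one_mul φ := by
    obtain ⟨f, hf, rfl⟩ := φ.exists_rep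
    rfl
  mul_one φ := by
    obtain ⟨f, hf, rfl⟩ := φ.exists_rep
    rfl

/-- A germ is of class `C^r` when it has a representative that is `C^r` at every point of some
neighbourhood of `0`. -/
def IsCr (r : WithTop ℕ∞) (φ : FixGerm) : Prop :=
  ∃ f : ℝ → ℝ, φ.germ = (f : Germ (𝓝 (0 : ℝ)) ℝ) ∧ ∀ᶠ x in 𝓝 (0 : ℝ), ContDiffAt ℝ r f x

theorem isCr_of {r : WithTop ℕ∞} {f : ℝ → ℝ} (hf : Tendsto f (𝓝 0) (𝓝 0)) :
    IsCr r (of f hf) ↔ ∀ᶠ x in 𝓝 (0 : ℝ), ContDiffAt ℝ r f x := by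
  constructor
  · rintro ⟨g, hg, hgr⟩
    have h1 : f =ᶠ[𝓝 0] g := Filter.Germ.coe_eq.1 hg
    have h2 : ∀ᶠ x in 𝓝 (0 : ℝ), f =ᶠ[𝓝 x] g := eventually_eventually_nhds.2 h1
    filter_upwards [h2, hgr] with x hx hgx
    exact hgx.congr_of_eventuallyEq hx
  · intro h
    exact ⟨f, rfl, h⟩

theorem IsCr.one (r : WithTop ℕ∞) : IsCr r 1 := by
  rw [one_def, isCr_of]
  exact Eventually.of_forall fun x => contDiffAt_id

theorem IsCr.mul {r : WithTop ℕ∞} {φ ψ : FixGerm} (hφ : IsCr r φ) (hψ : IsCr r ψ) :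
    IsCr r (φ * ψ) := by
  obtain ⟨f, hf, rfl⟩ := φ.exists_rep
  obtain ⟨g, hg, rfl⟩ := ψ.exists_rep
  rw [of_mul_of, isCr_of]
  rw [isCr_of] at hφ hψ
  filter_upwards [hψ, hg.eventually hφ] with x hx hx'
  exact ContDiffAt.comp x hx' hx

end FixGerm

/-- The group `𝒢^r`, under composition, of germs at `0` of `C^r` diffeomorphisms of the real line
fixing `0`: the invertible germs of maps fixing `0` such that both the germ and its inverse are of
class `C^r`. -/
def G (r : WithTop ℕ∞) : Subgroup FixGermˣ where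
  carrier := {u | (u : FixGerm).IsCr r ∧ ((u⁻¹ : FixGermˣ) : FixGerm).IsCr r}
  mul_mem' := by
    rintro u v ⟨hu, hu'⟩ ⟨hv, hv'⟩
    refine ⟨?_, ?_⟩
    · rw [Units.val_mul]; exact hu.mul hv
    · rw [mul_inv_rev, Units.val_mul]; exact hv'.mul hu'
  one_mem' := by
    refine ⟨?_, ?_⟩
    · rw [Units.val_one]; exact FixGerm.IsCr.one r
    · rw [inv_one, Units.val_one]; exact FixGerm.IsCr.one r
  inv_mem' := by
    rintro u ⟨hu, hu'⟩
    exact ⟨hu', by rwa [inv_inv]⟩

/-- The germ `g` of `𝒢^r` is the germ at `0` of the function `f`. -/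
def IsGermOf {r : WithTop ℕ∞} (g : G r) (f : ℝ → ℝ) : Prop :=
  ((g : FixGermˣ) : FixGerm).germ = (f : Germ (𝓝 (0 : ℝ)) ℝ)

/-- The word length `l_S h`: the smallest `k` such that `h` is a product of `k` elements of
`S ∪ S⁻¹`. -/
noncomputable def wordLength {H : Type*} [Group H] (S : Set H) (h : H) : ℕ :=
  sInf {k : ℕ | ∃ l : List H, l.length = k ∧ (∀ s ∈ l, s ∈ S ∨ s⁻¹ ∈ S) ∧ l.prod = h}

/-- The element `h` is distorted in the group `H` with respect to the finite generating set `S`: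
`l_S (h ^ n) / n` tends to `0`. -/
def IsDistortedIn {H : Type*} [Group H] (S : Set H) (h : H) : Prop :=
  Tendsto (fun n : ℕ => (wordLength S (h ^ n) : ℝ) / (n : ℝ)) atTop (𝓝 0)

/-- The element `g` of a group `Γ` is a distortion element of `Γ`: there are a subgroup `H` of `Γ`
containing `g` and a finite generating set `S` of `H` such that `g` is distorted in `H`. -/
def IsDistortionElement {Γ : Type*} [Group Γ] (g : Γ) : Prop :=
  ∃ (H : Subgroup Γ) (hg : g ∈ H) (S : Set H), S.Finite ∧ Subgroup.closure S = ⊤ ∧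
    IsDistortedIn S (⟨g, hg⟩ : H)

end Run7.h21
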