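import Mathlib
import Pool.Agent.Run7.h21.Defs

/-!
# Short words for the powers of a distortion element
-/

namespace Run7.h21

open Filter Topology

theorem wordLength_spec {H : Type*} [Group H] {S : Set H} (hS : Subgroup.closure S = ⊤) (h : H) :
    ∃ l : List H, l.length = wordLength S h ∧ (∀ s ∈ l, s ∈ S ∨ s⁻¹ ∈ S) ∧ l.prod = h := by
  have hne : {k : ℕ | ∃ l : List H, l.length = k ∧ (∀ s ∈ l, s ∈ S ∨ s⁻¹ ∈ S) ∧
      l.prod = h}.Nonempty := by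
    have hh : h ∈ (Subgroup.closure S).toSubmonoid := by rw [hS]; trivial
    rw [Subgroup.closure_toSubmonoid] at hh
    obtain ⟨l, hl, hp⟩ := Submonoid.exists_list_of_mem_closure hh
    exact ⟨l.length, l, rfl, fun s hs => hl s hs, hp⟩
  exact Nat.sInf_mem hne

theorem IsDistortionElement.exists_words {Γ : Type*} [Group Γ] {g : Γ}
    (h : IsDistortionElement g) :
    ∃ T : Set Γ, T.Finite ∧ ∀ δ : ℝ, 0 < δ → ∃ n : ℕ, 1 ≤ n ∧ ∃ l : List Γ,
      (∀ s ∈ l, s ∈ T) ∧ l.prod = g ^ n ∧ (l.length : ℝ) ≤ δ * n := by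
  obtain ⟨H, hg, S, hfin, hcl, hd⟩ := h
  refine ⟨H.subtype '' (S ∪ S⁻¹), (hfin.union hfin.inv).image _, ?_⟩
  intro δ hδ
  have h1 : ∀ᶠ n : ℕ in atTop, (wordLength S ((⟨g, hg⟩ : H) ^ n) : ℝ) / (n : ℝ) < δ :=
    hd.eventually (gt_mem_nhds hδ)
  obtain ⟨n, hn1, hn2⟩ := (h1.and (eventually_ge_atTop 1)).exists
  obtain ⟨l, hl1, hl2, hl3⟩ := wordLength_spec hcl ((⟨g, hg⟩ : H) ^ n)
  refine ⟨n, hn2, l.map H.subtype, ?_, ?_, ?_⟩
  · intro s hs
    obtain ⟨t, ht, rfl⟩ := List.mem_map.1 hs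
    refine ⟨t, ?_, rfl⟩
    rcases hl2 t ht with h | h
    · exact Or.inl h
    · exact Or.inr h
  · rw [← map_list_prod, hl3]
    simp
  · rw [List.length_map, hl1]
    have hnpos : (0 : ℝ) < n := by exact_mod_cast hn2
    exact ((div_lt_iff₀ hnpos).1 hn1).le

end Run7.h21
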