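import Mathlib
import Pool.Agent.Run7.h21.Words

/-!
# Homomorphisms to the reals kill distortion; two sources of distortion
-/

namespace Run7.h21

open Filter Topology

/-- A homomorphism to `ℝ` vanishes on distortion elements. -/
theorem IsDistortionElement.hom_eq_zero {Γ : Type*} [Group Γ] {g : Γ}
    (h : IsDistortionElement g) (φ : Γ → ℝ) (hφ : ∀ a b, φ (a * b) = φ a + φ b) : φ g = 0 := by
  obtain ⟨T, hT, hw⟩ := h.exists_words
  have hφ1 : φ 1 = 0 := by
    have := hφ 1 1
    rw [mul_one] at this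
    linarith
  have hpow : ∀ n : ℕ, φ (g ^ n) = n * φ g := by
    intro n
    induction n with
    | zero => simp [hφ1]
    | succ n ih => rw [pow_succ, hφ, ih]; push_cast; ring
  obtain ⟨C, hC⟩ : ∃ C : ℝ, ∀ t ∈ T, |φ t| ≤ C := by
    obtain ⟨C, hC⟩ := (hT.image fun t => |φ t|).bddAbove
    exact ⟨C, fun t ht => hC ⟨t, ht, rfl⟩⟩
  have hlist : ∀ l : List Γ, (∀ s ∈ l, s ∈ T) → |φ l.prod| ≤ |C| * l.length := by
    intro l
    induction l with
    | nil => intro _; simp [hφ1]
    | cons a l ih =>
      intro hl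
      rw [List.prod_cons, hφ, List.length_cons]
      have h1 := ih fun s hs => hl s (List.mem_cons_of_mem _ hs)
      have h2 : |φ a| ≤ |C| := (hC a (hl a List.mem_cons_self)).trans (le_abs_self C)
      calc |φ a + φ l.prod| ≤ |φ a| + |φ l.prod| := abs_add_le _ _
        _ ≤ |C| + |C| * l.length := add_le_add h2 h1
        _ = |C| * ((l.length + 1 : ℕ) : ℝ) := by push_cast; ring
  by_contra hne
  have hpos : 0 < |φ g| := abs_pos.2 hne
  obtain ⟨n, hn, l, hl, hprod, hlen⟩ := hw (|φ g| / (2 * (|C| + 1))) (by positivity)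
  have h1 := hlist l hl
  rw [hprod, hpow, abs_mul, Nat.abs_cast] at h1
  have hn' : (0 : ℝ) < n := by exact_mod_cast hn
  have h2 : |C| * (l.length : ℝ) ≤ |C| * (|φ g| / (2 * (|C| + 1)) * n) :=
    mul_le_mul_of_nonneg_left hlen (abs_nonneg C)
  have h3 : |C| * (|φ g| / (2 * (|C| + 1)) * n) ≤ (|φ g| / 2) * n := by
    have : |C| / (|C| + 1) ≤ 1 := by
      rw [div_le_one (by positivity)]
      linarith [abs_nonneg C]
    calc |C| * (|φ g| / (2 * (|C| + 1)) * n) = (|C| / (|C| + 1)) * ((|φ g| / 2) * n) := by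
          field_simp
      _ ≤ 1 * ((|φ g| / 2) * n) := by gcongr
      _ = _ := by ring
  nlinarith

theorem wordLength_le {H : Type*} [Group H] {S : Set H} {h : H} (l : List H)
    (hl : ∀ s ∈ l, s ∈ S ∨ s⁻¹ ∈ S) (hp : l.prod = h) : wordLength S h ≤ l.length :=
  Nat.sInf_le ⟨l, rfl, hl, hp⟩

theorem natSize_div_tendsto :
    Tendsto (fun n : ℕ => (3 * (Nat.size n : ℝ)) / (n : ℝ)) atTop (𝓝 0) := by
  have h1 : Tendsto (fun n : ℕ => (3 * (Real.log n / Real.log 2 + 1)) / (n : ℝ)) atTop (𝓝 0) := by
    have h2 : Tendsto (fun n : ℕ => Real.log (n : ℝ) / (n : ℝ)) atTop (𝓝 0) := by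
      exact (Real.isLittleO_log_id_atTop.tendsto_div_nhds_zero).comp
        (tendsto_natCast_atTop_atTop (R := ℝ))
    have h3 : Tendsto (fun n : ℕ => 1 / (n : ℝ)) atTop (𝓝 0) := tendsto_one_div_atTop_nhds_zero_nat
    have h4 := ((h2.const_mul (3 / Real.log 2)).add (h3.const_mul 3))
    rw [mul_zero, mul_zero, add_zero] at h4
    refine h4.congr fun n => ?_
    field_simp
  refine tendsto_of_tendsto_of_tendsto_of_le_of_le' tendsto_const_nhds h1
    (Eventually.of_forall fun n => by positivity) ?_
  filter_upwards [eventually_ge_atTop 1] with n hn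
  have hn' : (0 : ℝ) < n := by exact_mod_cast hn
  have hlog2 : 0 < Real.log 2 := Real.log_pos (by norm_num)
  have h5 : ((Nat.size n - 1 : ℕ) : ℝ) ≤ Real.log n / Real.log 2 := by
    rw [le_div_iff₀ hlog2, ← Real.log_pow]
    apply Real.log_le_log (by positivity)
    have : 2 ^ (Nat.size n - 1) ≤ n := by
      rw [← Nat.lt_size]
      have := Nat.size_pos.2 hn
      omega
    exact_mod_cast this
  have h6 : (Nat.size n : ℝ) ≤ Real.log n / Real.log 2 + 1 := by
    have h7 : (Nat.size n : ℝ) ≤ ((Nat.size n - 1 : ℕ) : ℝ) + 1 := by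
      have : Nat.size n ≤ (Nat.size n - 1) + 1 := by omega
      exact_mod_cast this
    linarith
  gcongr

/-- A bound for the word length of the powers of `g` in terms of words of the ambient group. -/
theorem isDistortionElement_of_words {Γ : Type*} [Group Γ] {g : Γ} (T : Set Γ) (hT : T.Finite)
    (b : ℕ → ℝ) (hb : Tendsto (fun n : ℕ => b n / (n : ℝ)) atTop (𝓝 0))
    (key : ∀ n : ℕ, ∃ l : List Γ, (l.length : ℝ) ≤ b n ∧ (∀ s ∈ l, s ∈ T ∨ s⁻¹ ∈ T) ∧
      l.prod = g ^ n) : IsDistortionElement g := by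
  have hmem : ∀ s : Γ, (s ∈ T ∨ s⁻¹ ∈ T) → s ∈ Subgroup.closure T := by
    rintro s (hs | hs)
    · exact Subgroup.subset_closure hs
    · exact (Subgroup.inv_mem_iff _).1 (Subgroup.subset_closure hs)
  have hgT : g ∈ Subgroup.closure T := by
    obtain ⟨l, -, hl2, hl3⟩ := key 1
    rw [pow_one] at hl3
    rw [← hl3]
    exact Subgroup.list_prod_mem _ fun s hs => hmem s (hl2 s hs)
  let S : Set (Subgroup.closure T) := (Subtype.val : Subgroup.closure T → Γ) ⁻¹' T
  refine ⟨Subgroup.closure T, hgT, S, hT.preimage Subtype.val_injective.injOn,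
    Subgroup.closure_closure_coe_preimage, ?_⟩
  refine tendsto_of_tendsto_of_tendsto_of_le_of_le tendsto_const_nhds hb
    (fun n => by positivity) fun n => ?_
  obtain ⟨l, hl1, hl2, hl3⟩ := key n
  lift l to List (Subgroup.closure T) using fun s hs => hmem s (hl2 s hs)
  have h1 : wordLength S ((⟨g, hgT⟩ : Subgroup.closure T) ^ n) ≤ l.length := by
    apply wordLength_le l
    · intro s hs
      exact hl2 s (List.mem_map_of_mem hs)
    · apply Subtype.val_injective
      rw [← Subgroup.coe_subtype, map_list_prod, Subgroup.coe_subtype, hl3]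
      rfl
  rw [List.length_map] at hl1
  have h2 : (wordLength S ((⟨g, hgT⟩ : Subgroup.closure T) ^ n) : ℝ) ≤ b n :=
    le_trans (by exact_mod_cast h1) hl1
  show (wordLength S ((⟨g, hgT⟩ : Subgroup.closure T) ^ n) : ℝ) / (n : ℝ) ≤ _
  gcongr

/-- The relation `θ⁻¹ g θ = g²` makes `g` a distortion element. -/
theorem isDistortionElement_of_conj {Γ : Type*} [Group Γ] {g θ : Γ} (h : θ⁻¹ * g * θ = g ^ 2) :
    IsDistortionElement g := by
  refine isDistortionElement_of_words {g, θ} (by simp) (fun n => 3 * (Nat.size n : ℝ))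
    natSize_div_tendsto ?_
  intro n
  suffices hs : ∃ l : List Γ, l.length ≤ 3 * Nat.size n ∧
      (∀ s ∈ l, s ∈ ({g, θ} : Set Γ) ∨ s⁻¹ ∈ ({g, θ} : Set Γ)) ∧ l.prod = g ^ n by
    obtain ⟨l, hl1, hl2, hl3⟩ := hs
    exact ⟨l, by exact_mod_cast hl1, hl2, hl3⟩
  induction n using Nat.binaryRec' with
  | zero => exact ⟨[], by simp, by simp, by simp⟩
  | bit b n hb ih =>
    obtain ⟨l, hl1, hl2, hl3⟩ := ih
    have hne : Nat.bit b n ≠ 0 := by
      intro h0
      rw [Nat.bit_eq_zero_iff] at h0
      have := hb h0.1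
      rw [h0.2] at this
      exact Bool.noConfusion this
    have hsz : Nat.size (Nat.bit b n) = Nat.size n + 1 := Nat.size_bit hne
    have hpow : (θ⁻¹ * (g ^ n) * θ) = g ^ (2 * n) := by
      rw [pow_mul, ← h]
      have := (conj_pow (a := θ⁻¹) (b := g) (i := n)).symm
      rw [inv_inv] at this
      exact this
    refine ⟨θ⁻¹ :: (l ++ (θ :: (if b then [g] else []))), ?_, ?_, ?_⟩
    · rw [hsz]
      simp only [List.length_cons, List.length_append]
      have : (if b then [g] else []).length ≤ 1 := by split_ifs <;> simp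
      omega
    · intro s hs
      simp only [List.mem_cons, List.mem_append] at hs
      rcases hs with rfl | hs | rfl | hs
      · right; simp
      · exact hl2 s hs
      · left; simp
      · left
        split_ifs at hs with hb'
        · rw [List.mem_singleton] at hs
          rw [hs]
          simp
        · simp at hs
    · rw [List.prod_cons, List.prod_append, List.prod_cons, hl3]
      cases b
      · rw [Nat.bit_false]
        simp only [Bool.false_eq_true, if_false, List.prod_nil, mul_one]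
        rw [← mul_assoc, hpow]
      · rw [Nat.bit_true]
        simp only [if_true, List.prod_singleton]
        rw [pow_succ, ← hpow]
        group

/-- An element of order at most two is a distortion element. -/
theorem isDistortionElement_of_sq {Γ : Type*} [Group Γ] {g : Γ} (h : g ^ 2 = 1) :
    IsDistortionElement g := by
  refine isDistortionElement_of_words {g} (by simp) (fun _ => 1)
    tendsto_one_div_atTop_nhds_zero_nat ?_
  intro n
  rcases Nat.even_or_odd n with ⟨m, hm⟩ | ⟨m, hm⟩
  · refine ⟨[], by simp, by simp, ?_⟩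
    rw [hm, ← two_mul, pow_mul, h, one_pow, List.prod_nil]
  · refine ⟨[g], by simp, by simp, ?_⟩
    rw [hm, pow_succ, pow_mul, h, one_pow, one_mul, List.prod_singleton]

end Run7.h21
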