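import Mathlib

/-!
# Continuous algebraic functions of one variable are analytic off a discrete set
-/

namespace Run7.h21

open Filter Topology Polynomial
open scoped ContDiff Polynomial.Bivariate

theorem exists_clear (p : (FractionRing ℝ[X])[X]) :
    ∃ d : ℝ[X], d ≠ 0 ∧ ∃ q : ℝ[X][Y],
      q.map (algebraMap ℝ[X] (FractionRing ℝ[X])) = C (algebraMap ℝ[X] (FractionRing ℝ[X]) d) * p := by
  obtain ⟨b, hb0, hb⟩ := IsLocalization.integerNormalization_spec (nonZeroDivisors ℝ[X]) p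
  refine ⟨b, nonZeroDivisors.ne_zero hb0, _, hb.trans ?_⟩
  rw [algebra_compatible_smul (FractionRing ℝ[X]), smul_eq_C_mul]

theorem exists_bezout {P : ℝ[X][Y]} (hP : P ≠ 0) :
    ∃ (Q A B Z : ℝ[X][Y]) (R D : ℝ[X]) (n : ℕ), R ≠ 0 ∧ D ≠ 0 ∧
      A * Q + B * derivative Q = C R ∧ C D * Q ^ n = P * Z := by
  let φ : ℝ[X] →+* FractionRing ℝ[X] := algebraMap ℝ[X] (FractionRing ℝ[X])
  have hφ : Function.Injective φ := IsFractionRing.injective _ _
  have hP' : P.map φ ≠ 0 := by rwa [Ne, Polynomial.map_eq_zero_iff hφ]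
  obtain ⟨y, n, hy, -, z, hz⟩ := exists_squarefree_dvd_pow_of_ne_zero hP'
  have hsep : y.Separable := PerfectField.separable_iff_squarefree.2 hy
  obtain ⟨a, b, hab⟩ := hsep
  obtain ⟨dy, hdy, Q, hQ⟩ := exists_clear y
  obtain ⟨da, hda, A, hA⟩ := exists_clear a
  obtain ⟨db, hdb, B, hB⟩ := exists_clear b
  obtain ⟨dz, hdz, Z, hZ⟩ := exists_clear z
  refine ⟨Q, C db * A, C da * B, C (dy ^ n) * Z, da * db * dy, dz, n, ?_, hdz, ?_, ?_⟩
  · exact mul_ne_zero (mul_ne_zero hda hdb) hdy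
  · apply Polynomial.map_injective φ hφ
    rw [Polynomial.map_add, Polynomial.map_mul, Polynomial.map_mul, Polynomial.map_mul,
      Polynomial.map_mul, ← derivative_map, map_C, map_C, map_C, hQ, hA, hB,
      derivative_C_mul]
    simp only [RingHom.map_mul]
    linear_combination (C (φ da) * C (φ db) * C (φ dy)) * hab
  · apply Polynomial.map_injective φ hφ
    rw [Polynomial.map_mul, Polynomial.map_mul, Polynomial.map_mul, Polynomial.map_pow,
      map_C, map_C, hQ, hZ, mul_pow, RingHom.map_pow, C_pow]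
    linear_combination (C (φ dz) * C (φ dy) ^ n) * hz

theorem eventually_eval_ne_zero {R : ℝ[X]} (hR : R ≠ 0) (a : ℝ) :
    ∀ᶠ x in 𝓝[≠] a, R.eval x ≠ 0 := by
  have h : {x : ℝ | R.IsRoot x}.Finite := by
    refine R.roots.toFinset.finite_toSet.subset fun x hx => ?_
    simpa [hR] using hx
  have h2 : ({x : ℝ | R.IsRoot x} \ {a})ᶜ ∈ 𝓝 a := by
    refine (h.subset Set.sdiff_subset).isClosed.isOpen_compl.mem_nhds ?_
    simp
  filter_upwards [mem_nhdsWithin_of_mem_nhds h2, self_mem_nhdsWithin] with x hx hx' h3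
  exact hx ⟨h3, hx'⟩

theorem contDiff_eval (a : ℝ[X]) : ContDiff ℝ ω (fun x : ℝ => a.eval x) := by
  induction a using Polynomial.induction_on' with
  | add p q hp hq => simp only [eval_add]; exact hp.add hq
  | monomial n a => simp only [eval_monomial]; fun_prop

theorem contDiffAt_evalEval (Q : ℝ[X][Y]) (u : ℝ × ℝ) :
    ContDiffAt ℝ ω (fun v : ℝ × ℝ => Q.evalEval v.1 v.2) u := by
  induction Q using Polynomial.induction_on' with
  | add p q hp hq =>
    simp only [evalEval_add]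
    exact hp.add hq
  | monomial n a =>
    have e : (fun v : ℝ × ℝ => (monomial n a : ℝ[X][Y]).evalEval v.1 v.2) =
        fun v => a.eval v.1 * v.2 ^ n := by
      ext v
      rw [← C_mul_X_pow_eq_monomial, evalEval_mul, evalEval_pow, evalEval_X, evalEval_C]
    rw [e]
    refine ContDiffAt.mul ?_ (contDiffAt_snd.pow n)
    exact (contDiff_eval a).contDiffAt.comp u contDiffAt_fst

theorem hasDerivAt_evalEval (Q : ℝ[X][Y]) (x y : ℝ) :
    HasDerivAt (fun t => Q.evalEval x t) ((derivative Q).evalEval x y) y := by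
  have e : (fun t => Q.evalEval x t) = fun t => (Q.map (evalRingHom x)).eval t := by
    ext t
    rw [map_evalRingHom_eval]
  rw [e, ← map_evalRingHom_eval, ← derivative_map]
  exact Polynomial.hasDerivAt _ _

/-- A continuous solution of `Q(x, f x) = 0` is analytic where `∂Q/∂y ≠ 0`. -/
theorem analyticAt_of_derivative_ne_zero {Q : ℝ[X][Y]} {f : ℝ → ℝ} {x : ℝ}
    (hf : ContinuousAt f x) (h : ∀ᶠ t in 𝓝 x, Q.evalEval t (f t) = 0)
    (hd : (derivative Q).evalEval x (f x) ≠ 0) : AnalyticAt ℝ f x := by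
  let F : ℝ × ℝ → ℝ := fun v => Q.evalEval v.1 v.2
  have cdf : ContDiffAt ℝ ω F (x, f x) := contDiffAt_evalEval Q _
  have pn : (ω : WithTop ℕ∞) ≠ 0 := by simp
  have hder : (fderiv ℝ F (x, f x) ∘L .inr ℝ ℝ ℝ) =
      ContinuousLinearMap.toSpanSingleton ℝ ((derivative Q).evalEval x (f x)) := by
    have h1 : HasFDerivAt F (fderiv ℝ F (x, f x)) (x, f x) :=
      (cdf.differentiableAt pn).hasFDerivAt
    have h2 : HasFDerivAt (fun t : ℝ => ((x, t) : ℝ × ℝ)) (.inr ℝ ℝ ℝ) (f x) :=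
      hasFDerivAt_prodMk_right x (f x)
    have h3 : HasFDerivAt (fun t : ℝ => F (x, t)) (fderiv ℝ F (x, f x) ∘L .inr ℝ ℝ ℝ) (f x) :=
      HasFDerivAt.comp (f x) h1 h2
    exact h3.unique (hasDerivAt_evalEval Q x (f x)).hasFDerivAt
  have if₂ : (fderiv ℝ F (x, f x) ∘L .inr ℝ ℝ ℝ).IsInvertible := by
    rw [hder]
    refine ⟨ContinuousLinearEquiv.unitsEquivAut ℝ (Units.mk0 _ hd), ?_⟩
    ext
    simp
  have h4 := cdf.eventually_apply_eq_iff_implicitFunction pn if₂
  have h5 : Tendsto (fun t => (t, f t)) (𝓝 x) (𝓝 (x, f x)) :=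
    (continuousAt_id.prodMk hf).tendsto
  have h6 : F (x, f x) = 0 := h.self_of_nhds
  have h7 : ∀ᶠ t in 𝓝 x, cdf.implicitFunction pn if₂ t = f t := by
    filter_upwards [h5.eventually h4, h] with t ht1 ht2
    rw [h6] at ht1
    exact ht1.1 ht2
  exact (cdf.contDiffAt_implicitFunction pn if₂).analyticAt.congr h7

/-- A continuous algebraic function is analytic near `0`, except possibly at `0`. -/
theorem eventually_analyticAt {P : ℝ[X][Y]} (hP : P ≠ 0) {f : ℝ → ℝ}
    (hf : ∀ᶠ x in 𝓝[≠] (0 : ℝ), ContinuousAt f x)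
    (h : ∀ᶠ x in 𝓝[≠] (0 : ℝ), P.evalEval x (f x) = 0) :
    ∀ᶠ x in 𝓝[≠] (0 : ℝ), AnalyticAt ℝ f x := by
  obtain ⟨Q, A, B, Z, R, D, n, hR, hD, hAB, hQ⟩ := exists_bezout hP
  have h1 : ∀ᶠ x in 𝓝[≠] (0 : ℝ), Q.evalEval x (f x) = 0 := by
    filter_upwards [h, eventually_eval_ne_zero hD 0] with x hx hx2
    have h2 := congrArg (fun p : ℝ[X][Y] => p.evalEval x (f x)) hQ
    simp only [evalEval_mul, evalEval_pow, evalEval_C, hx, zero_mul] at h2
    rcases mul_eq_zero.1 h2 with h3 | h3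
    · exact absurd h3 hx2
    · exact eq_zero_of_pow_eq_zero h3
  have h1' : ∀ᶠ x in 𝓝[≠] (0 : ℝ), ∀ᶠ t in 𝓝 x, Q.evalEval t (f t) = 0 := by
    rw [eventually_nhdsWithin_iff] at h1
    have h2 := eventually_eventually_nhds.2 h1
    rw [eventually_nhdsWithin_iff]
    filter_upwards [h2] with x hx hx0
    have h3 : ∀ᶠ t in 𝓝 x, t ∈ ({0} : Set ℝ)ᶜ := isOpen_compl_singleton.mem_nhds hx0
    filter_upwards [hx, h3] with t ht1 ht2
    exact ht1 ht2
  filter_upwards [h1, h1', hf, eventually_eval_ne_zero hR 0] with x hx1 hx2 hx3 hx4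
  apply analyticAt_of_derivative_ne_zero hx3 hx2
  intro h5
  have h2 := congrArg (fun p : ℝ[X][Y] => p.evalEval x (f x)) hAB
  simp only [evalEval_add, evalEval_mul, evalEval_C, hx1, h5, mul_zero, add_zero] at h2
  exact hx4 h2.symm

end Run7.h21
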