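import Mathlib

/-!
# The second order cocycle

For a function `f` of class `C^{k+1}` (`k ≥ 1`) with `f 0 = 0` let `ρ_f` be the first order Taylor
remainder at `0` of the `k`-th derivative of `f`.  Modulo functions of the form `C x ^ 2 + o(x ^ 2)`,
`ρ_{f₁ ∘ f₂} (x) = f₁'(0) ρ_{f₂} (x) + f₂'(0) ^ k ρ_{f₁} (f₂'(0) x)`.
-/

namespace Run7.h21

open Filter Topology Asymptotics

/-- The first order Taylor remainder at `0`. -/
noncomputable def tau (h : ℝ → ℝ) : ℝ → ℝ := fun x => h x - h 0 - x * deriv h 0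

theorem tau_add {h₁ h₂ : ℝ → ℝ} (d₁ : DifferentiableAt ℝ h₁ 0) (d₂ : DifferentiableAt ℝ h₂ 0) :
    tau (fun x => h₁ x + h₂ x) = fun x => tau h₁ x + tau h₂ x := by
  funext x
  simp only [tau]
  rw [deriv_fun_add d₁ d₂]
  ring

theorem isBigO_sub_zero {h : ℝ → ℝ} (d : DifferentiableAt ℝ h 0) :
    (fun x => h x - h 0) =O[𝓝 0] (fun x : ℝ => x) := by
  simpa using d.isBigO_sub

/-- The functions that have a second order expansion `C x ^ 2 + o(x ^ 2)` at the origin. -/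
def IsM2 (F : ℝ → ℝ) : Prop :=
  ∃ C : ℝ, (fun x => F x - C * x ^ 2) =o[𝓝 0] (fun x : ℝ => x ^ 2)

theorem IsM2.add {F H : ℝ → ℝ} (hF : IsM2 F) (hH : IsM2 H) : IsM2 (fun x => F x + H x) := by
  obtain ⟨a, ha⟩ := hF
  obtain ⟨b, hb⟩ := hH
  exact ⟨a + b, (ha.add hb).congr_left fun x => by ring⟩

theorem IsM2.const_mul {F : ℝ → ℝ} (hF : IsM2 F) (c : ℝ) : IsM2 (fun x => c * F x) := by
  obtain ⟨a, ha⟩ := hF
  exact ⟨c * a, (ha.const_mul_left c).congr_left fun x => by ring⟩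

theorem IsM2.zero : IsM2 (fun _ => 0) :=
  ⟨0, (isLittleO_zero _ _).congr_left fun x => by ring⟩

theorem IsM2.congr {F H : ℝ → ℝ} (hF : IsM2 F) (h : F =ᶠ[𝓝 0] H) : IsM2 H := by
  obtain ⟨a, ha⟩ := hF
  refine ⟨a, ha.congr' ?_ EventuallyEq.rfl⟩
  filter_upwards [h] with x hx
  rw [hx]

theorem IsM2.isBigO {F : ℝ → ℝ} (hF : IsM2 F) : F =O[𝓝 0] (fun x : ℝ => x ^ 2) := by
  obtain ⟨C, hC⟩ := hF
  have h8 := hC.isBigO.add (isBigO_const_mul_self C (fun x : ℝ => x ^ 2) (𝓝 0))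
  exact h8.congr_left fun x => by ring

theorem IsM2.dilate {F : ℝ → ℝ} (hF : IsM2 F) (μ : ℝ) : IsM2 (fun x => F (μ * x)) := by
  obtain ⟨a, ha⟩ := hF
  have h1 : Tendsto (fun x : ℝ => μ * x) (𝓝 0) (𝓝 0) := by
    simpa using (continuous_const_mul μ).tendsto (0 : ℝ)
  refine ⟨a * μ ^ 2, ?_⟩
  have h2 := ha.comp_tendsto h1
  have h3 : (fun x : ℝ => (μ * x) ^ 2) =O[𝓝 0] (fun x : ℝ => x ^ 2) := by
    refine IsBigO.of_bound (μ ^ 2) (Eventually.of_forall fun x => ?_)
    simp only [mul_pow, norm_mul]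
    rw [Real.norm_of_nonneg (sq_nonneg μ)]
  refine (h2.trans_isBigO h3).congr_left fun x => ?_
  simp only [Function.comp]
  ring

theorem tau_isLittleO {h : ℝ → ℝ} (d : DifferentiableAt ℝ h 0) :
    tau h =o[𝓝 0] (fun x : ℝ => x) := by
  have h1 := hasDerivAt_iff_isLittleO.1 d.hasDerivAt
  refine (h1.congr_left fun x => ?_).congr_right fun x => by ring
  simp only [tau, sub_zero, smul_eq_mul]

theorem tau_mul {h₁ h₂ : ℝ → ℝ} (d₁ : DifferentiableAt ℝ h₁ 0) (d₂ : DifferentiableAt ℝ h₂ 0) :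
    IsM2 (fun x => tau (fun x => h₁ x * h₂ x) x - (h₁ 0 * tau h₂ x + h₂ 0 * tau h₁ x)) := by
  refine ⟨deriv h₁ 0 * deriv h₂ 0, ?_⟩
  -- `(h₁ - h₁ 0) (h₂ - h₂ 0) - h₁' h₂' x ^ 2`
  have t₁ := tau_isLittleO d₁
  have t₂ := tau_isLittleO d₂
  have b₂ := isBigO_sub_zero d₂
  have e1 := t₁.mul_isBigO b₂
  have e2 := ((isBigO_refl (fun x : ℝ => x) (𝓝 0)).mul_isLittleO t₂).const_mul_left (deriv h₁ 0)
  refine ((e1.add e2).congr_right fun x => by ring).congr_left fun x => ?_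
  simp only [tau]
  rw [deriv_fun_mul d₁ d₂]
  ring

/-- The first order Taylor remainder of a `C^2` function has a second order expansion. -/
theorem tau_isM2 {h : ℝ → ℝ} (hh : ContDiff ℝ 2 h) : IsM2 (tau h) := by
  have hd : Differentiable ℝ h := hh.differentiable (by norm_num)
  have hd' : Differentiable ℝ (deriv h) := by
    have : ContDiff ℝ 1 (deriv h) := by
      have h2 : ContDiff ℝ (1 + 1) h := by simpa [one_add_one_eq_two] using hh
      exact (contDiff_succ_iff_deriv.1 h2).2.2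
    exact this.differentiable (by norm_num)
  set c := deriv (deriv h) 0 with hc
  refine ⟨c / 2, ?_⟩
  have h1 := tau_isLittleO (hd' 0)
  have hder : ∀ x, HasDerivAt (fun x => tau h x - c / 2 * x ^ 2) (tau (deriv h) x) x := by
    intro x
    have h3 : HasDerivAt h (deriv h x) x := (hd x).hasDerivAt
    have h4 : HasDerivAt (fun y : ℝ => y * deriv h 0) (1 * deriv h 0) x :=
      (hasDerivAt_id x).mul_const _
    have h5 := (h3.sub_const (h 0)).sub h4
    have h6 := ((hasDerivAt_pow 2 x).const_mul (c / 2))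
    have h7 := h5.sub h6
    refine h7.congr_deriv ?_
    simp only [tau, ← hc]
    norm_num
    ring
  rw [isLittleO_iff]
  intro ε hε
  have h8 := (isLittleO_iff.1 h1) hε
  obtain ⟨η, hη, hball⟩ := Metric.eventually_nhds_iff_ball.1 h8
  filter_upwards [Metric.ball_mem_nhds (0 : ℝ) hη] with x hx
  have hx' : |x| < η := by simpa using hx
  have h5 := (convex_closedBall (0 : ℝ) |x|).norm_image_sub_le_of_norm_hasDerivWithin_le
    (f := fun x => tau h x - c / 2 * x ^ 2) (f' := fun y => tau (deriv h) y) (C := ε * |x|)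
    (fun y _ => (hder y).hasDerivWithinAt) ?_
    (x := 0) (y := x) (by simp) (by simp)
  · have h6 : tau h 0 = 0 := by simp [tau]
    simp only [h6] at h5
    norm_num at h5 ⊢
    refine h5.trans (le_of_eq ?_)
    rw [mul_assoc, ← pow_two, sq_abs]
  · intro y hy
    have hy' : |y| ≤ |x| := by simpa using hy
    have h7 := hball y (by simpa using lt_of_le_of_lt hy' hx')
    exact h7.trans (mul_le_mul_of_nonneg_left hy' hε.le)

theorem tau_comp {h f : ℝ → ℝ} (hh : ContDiff ℝ 1 h) (hf : ContDiff ℝ 2 f) (hf0 : f 0 = 0) :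
    IsM2 (fun x => tau (fun x => h (f x)) x - tau h (deriv f 0 * x)) := by
  have hfd : Differentiable ℝ f := hf.differentiable (by norm_num)
  have hhd : Differentiable ℝ h := hh.differentiable (by norm_num)
  -- strict differentiability of `h` at `0`
  have hs : HasStrictDerivAt h (deriv h 0) 0 :=
    (hh.contDiffAt (x := (0 : ℝ))).hasStrictDerivAt (by norm_num)
  have htend : Tendsto (fun x : ℝ => (f x, deriv f 0 * x)) (𝓝 0) (𝓝 ((0 : ℝ), (0 : ℝ))) := by
    have h1 : Tendsto f (𝓝 0) (𝓝 0) := by simpa [hf0] using (hfd 0).continuousAt.tendsto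
    have h2 : Tendsto (fun x : ℝ => deriv f 0 * x) (𝓝 0) (𝓝 0) := by
      simpa using (continuous_const_mul (deriv f 0)).tendsto (0 : ℝ)
    exact h1.prodMk_nhds h2
  have h3 := (hasStrictFDerivAt_iff_isLittleO.1 hs.hasStrictFDerivAt).comp_tendsto htend
  obtain ⟨C, hC⟩ := tau_isM2 hf
  have h5 : ∀ x, tau f x = f x - deriv f 0 * x := by
    intro x
    simp only [tau, hf0]
    ring
  have h6 : (fun x => f x - deriv f 0 * x) =O[𝓝 0] (fun x : ℝ => x ^ 2) := by
    have h7 : (fun x => tau f x) =O[𝓝 0] (fun x : ℝ => x ^ 2) := by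
      have h8 := hC.isBigO.add (isBigO_const_mul_self C (fun x : ℝ => x ^ 2) (𝓝 0))
      exact h8.congr_left fun x => by ring
    exact h7.congr_left fun x => h5 x
  refine ⟨deriv h 0 * C, ?_⟩
  have h9 := (h3.trans_isBigO h6).add (hC.const_mul_left (deriv h 0))
  refine h9.congr_left fun x => ?_
  have h4 : deriv (fun x => h (f x)) 0 = deriv h 0 * deriv f 0 := by
    have := ((hhd (f 0)).hasDerivAt.comp (0 : ℝ) (hfd 0).hasDerivAt).deriv
    rw [hf0] at this
    exact this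
  simp only [Function.comp, tau, h4, hf0, ContinuousLinearMap.toSpanSingleton_apply, smul_eq_mul]
  ring

theorem contDiff_iteratedDeriv {n k : ℕ} {f : ℝ → ℝ} (hf : ContDiff ℝ ((n + k : ℕ) : WithTop ℕ∞) f) :
    ContDiff ℝ (n : WithTop ℕ∞) (iteratedDeriv k f) := by
  rw [iteratedDeriv_eq_iterate]
  apply ContDiff.iterate_deriv'
  exact_mod_cast hf

/-- The structure of the higher derivatives of a composition: up to a remainder of class `C^m`,
only the two extreme terms matter. -/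
theorem exists_iteratedDeriv_comp (i : ℕ) : ∀ (m : ℕ), 1 ≤ m → ∀ f₁ f₂ : ℝ → ℝ,
    ContDiff ℝ ((m + i + 1 : ℕ) : WithTop ℕ∞) f₁ → ContDiff ℝ ((m + i + 1 : ℕ) : WithTop ℕ∞) f₂ →
    ∃ W : ℝ → ℝ, ContDiff ℝ (m : WithTop ℕ∞) W ∧ iteratedDeriv (i + 2) (fun x => f₁ (f₂ x)) =
      fun x => iteratedDeriv (i + 2) f₁ (f₂ x) * (deriv f₂ x) ^ (i + 2) +
        deriv f₁ (f₂ x) * iteratedDeriv (i + 2) f₂ x + W x := by
  induction i with
  | zero =>
    intro m hm f₁ f₂ hf₁ hf₂
    refine ⟨0, contDiff_const, ?_⟩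
    have hm' : ((1 + 1 : ℕ) : WithTop ℕ∞) ≤ ((m + 0 + 1 : ℕ) : WithTop ℕ∞) := by
      exact_mod_cast (by omega : 1 + 1 ≤ m + 0 + 1)
    have c₁ : ContDiff ℝ ((1 + 1 : ℕ) : WithTop ℕ∞) f₁ := hf₁.of_le hm'
    have c₂ : ContDiff ℝ ((1 + 1 : ℕ) : WithTop ℕ∞) f₂ := hf₂.of_le hm'
    have d₁ : Differentiable ℝ f₁ := c₁.differentiable (by norm_num)
    have d₂ : Differentiable ℝ f₂ := c₂.differentiable (by norm_num)
    have dd₁ : Differentiable ℝ (deriv f₁) := by
      have := contDiff_iteratedDeriv c₁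
      rw [iteratedDeriv_one] at this
      exact this.differentiable (by norm_num)
    have dd₂ : Differentiable ℝ (deriv f₂) := by
      have := contDiff_iteratedDeriv c₂
      rw [iteratedDeriv_one] at this
      exact this.differentiable (by norm_num)
    have e1 : deriv (fun x => f₁ (f₂ x)) = fun x => deriv f₁ (f₂ x) * deriv f₂ x := by
      funext x
      exact ((d₁ (f₂ x)).hasDerivAt.comp x (d₂ x).hasDerivAt).deriv
    have e2 : ∀ f : ℝ → ℝ, iteratedDeriv (0 + 2) f = deriv (deriv f) := by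
      intro f
      rw [zero_add, iteratedDeriv_succ, iteratedDeriv_one]
    rw [e2, e2, e2, e1]
    funext x
    have h1 : HasDerivAt (fun x => deriv f₁ (f₂ x)) (deriv (deriv f₁) (f₂ x) * deriv f₂ x) x :=
      (dd₁ (f₂ x)).hasDerivAt.comp x (d₂ x).hasDerivAt
    have h2 := (h1.mul (dd₂ x).hasDerivAt).deriv
    have h3 : deriv (fun x => deriv f₁ (f₂ x) * deriv f₂ x) x =
      deriv (deriv f₁) (f₂ x) * deriv f₂ x * deriv f₂ x + deriv f₁ (f₂ x) * deriv (deriv f₂) x := h2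
    rw [h3]
    simp only [Pi.zero_apply]
    ring
  | succ i ih =>
    intro m hm f₁ f₂ hf₁ hf₂
    have hf₁' : ContDiff ℝ ((m + 1 + i + 1 : ℕ) : WithTop ℕ∞) f₁ := by
      convert hf₁ using 3
      ring
    have hf₂' : ContDiff ℝ ((m + 1 + i + 1 : ℕ) : WithTop ℕ∞) f₂ := by
      convert hf₂ using 3
      ring
    obtain ⟨W, hW, hWe⟩ := ih (m + 1) (by omega) f₁ f₂ hf₁' hf₂'
    -- regularity bookkeeping
    have r : ∀ (f : ℝ → ℝ), ContDiff ℝ ((m + 1 + i + 1 : ℕ) : WithTop ℕ∞) f →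
        ∀ p q : ℕ, p + q ≤ m + 1 + i + 1 → ContDiff ℝ (p : WithTop ℕ∞) (iteratedDeriv q f) := by
      intro f hf p q hpq
      apply contDiff_iteratedDeriv
      exact hf.of_le (by exact_mod_cast hpq)
    have c2f₁ : ContDiff ℝ (m : WithTop ℕ∞) (iteratedDeriv (i + 2) f₁) := r f₁ hf₁' _ _ (by omega)
    have c2f₂ : ContDiff ℝ (m : WithTop ℕ∞) (iteratedDeriv (i + 2) f₂) := r f₂ hf₂' _ _ (by omega)
    have cf₂ : ContDiff ℝ (m : WithTop ℕ∞) f₂ := hf₂'.of_le (by exact_mod_cast (by omega))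
    have cdf₁ : ContDiff ℝ (m : WithTop ℕ∞) (deriv f₁) := by
      have := r f₁ hf₁' m 1 (by omega)
      rwa [iteratedDeriv_one] at this
    have cdf₂ : ContDiff ℝ (m : WithTop ℕ∞) (deriv f₂) := by
      have := r f₂ hf₂' m 1 (by omega)
      rwa [iteratedDeriv_one] at this
    have cddf₁ : ContDiff ℝ (m : WithTop ℕ∞) (deriv (deriv f₁)) := by
      have := r f₁ hf₁' m 2 (by omega)
      rwa [iteratedDeriv_succ, iteratedDeriv_one] at this
    have cddf₂ : ContDiff ℝ (m : WithTop ℕ∞) (deriv (deriv f₂)) := by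
      have := r f₂ hf₂' m 2 (by omega)
      rwa [iteratedDeriv_succ, iteratedDeriv_one] at this
    have cdW : ContDiff ℝ (m : WithTop ℕ∞) (deriv W) := by
      have := contDiff_iteratedDeriv (n := m) (k := 1) hW
      rwa [iteratedDeriv_one] at this
    have hm1 : (m : WithTop ℕ∞) ≠ 0 := by
      exact_mod_cast (by omega : m ≠ 0)
    have d2f₁ := c2f₁.differentiable hm1
    have d2f₂ := c2f₂.differentiable hm1
    have df₂ := cf₂.differentiable hm1
    have ddf₁ := cdf₁.differentiable hm1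
    have ddf₂ := cdf₂.differentiable hm1
    have dW : Differentiable ℝ W := hW.differentiable (by exact_mod_cast (by omega : m + 1 ≠ 0))
    refine ⟨fun x => iteratedDeriv (i + 2) f₁ (f₂ x) *
        (((i + 2 : ℕ) : ℝ) * (deriv f₂ x) ^ (i + 1) * deriv (deriv f₂) x) +
        deriv (deriv f₁) (f₂ x) * deriv f₂ x * iteratedDeriv (i + 2) f₂ x + deriv W x, ?_, ?_⟩
    · apply ContDiff.add
      · apply ContDiff.add
        · exact (c2f₁.comp cf₂).mul ((contDiff_const.mul (cdf₂.pow _)).mul cddf₂)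
        · exact ((cddf₁.comp cf₂).mul cdf₂).mul c2f₂
      · exact cdW
    · rw [iteratedDeriv_succ (n := i + 1 + 1), iteratedDeriv_succ (n := i + 1 + 1) (f := f₁),
        iteratedDeriv_succ (n := i + 1 + 1) (f := f₂)]
      have e : i + 1 + 1 = i + 2 := rfl
      rw [e, hWe]
      funext x
      have h1 : HasDerivAt (fun x => iteratedDeriv (i + 2) f₁ (f₂ x))
          (deriv (iteratedDeriv (i + 2) f₁) (f₂ x) * deriv f₂ x) x :=
        (d2f₁ (f₂ x)).hasDerivAt.comp x (df₂ x).hasDerivAt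
      have h2 : HasDerivAt (fun x => (deriv f₂ x) ^ (i + 2))
          (((i + 2 : ℕ) : ℝ) * (deriv f₂ x) ^ (i + 1) * deriv (deriv f₂) x) x := by
        have := (ddf₂ x).hasDerivAt.pow (i + 2)
        exact this
      have h3 : HasDerivAt (fun x => deriv f₁ (f₂ x)) (deriv (deriv f₁) (f₂ x) * deriv f₂ x) x :=
        (ddf₁ (f₂ x)).hasDerivAt.comp x (df₂ x).hasDerivAt
      have h4 : HasDerivAt (iteratedDeriv (i + 2) f₂) (deriv (iteratedDeriv (i + 2) f₂) x) x :=
        (d2f₂ x).hasDerivAt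
      have h5 : HasDerivAt W (deriv W x) x := (dW x).hasDerivAt
      have h6 := (((h1.mul h2).add (h3.mul h4)).add h5).deriv
      refine Eq.trans h6 ?_
      ring

/-- **The second order cocycle.** -/
theorem cocycle {k : ℕ} (hk : 1 ≤ k) {f₁ f₂ : ℝ → ℝ}
    (hf₁ : ContDiff ℝ ((k + 1 : ℕ) : WithTop ℕ∞) f₁)
    (hf₂ : ContDiff ℝ ((k + 1 : ℕ) : WithTop ℕ∞) f₂) (h₂ : f₂ 0 = 0) :
    IsM2 (fun x => tau (iteratedDeriv k (fun x => f₁ (f₂ x))) x -
      (deriv f₁ 0 * tau (iteratedDeriv k f₂) x +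
        (deriv f₂ 0) ^ k * tau (iteratedDeriv k f₁) (deriv f₂ 0 * x))) := by
  have r : ∀ (f : ℝ → ℝ), ContDiff ℝ ((k + 1 : ℕ) : WithTop ℕ∞) f →
      ∀ p q : ℕ, p + q ≤ k + 1 → ContDiff ℝ (p : WithTop ℕ∞) (iteratedDeriv q f) := by
    intro f hf p q hpq
    apply contDiff_iteratedDeriv
    exact hf.of_le (by exact_mod_cast hpq)
  have c₂ : ContDiff ℝ 2 f₂ := hf₂.of_le (by exact_mod_cast (by omega : 2 ≤ k + 1))
  have d₁ : Differentiable ℝ f₁ := hf₁.differentiable (by exact_mod_cast (by omega : k + 1 ≠ 0))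
  have d₂ : Differentiable ℝ f₂ := c₂.differentiable (by norm_num)
  have kd₁ : ContDiff ℝ 1 (iteratedDeriv k f₁) := by exact_mod_cast r f₁ hf₁ 1 k (by omega)
  have kd₂ : ContDiff ℝ 1 (iteratedDeriv k f₂) := by exact_mod_cast r f₂ hf₂ 1 k (by omega)
  -- the main term
  have main := tau_comp kd₁ c₂ h₂
  rcases Nat.lt_or_ge 1 k with h1 | h1
  · -- `k ≥ 2`
    obtain ⟨i, rfl⟩ := Nat.exists_eq_add_of_le' h1
    have cf₁ : ContDiff ℝ ((2 + i + 1 : ℕ) : WithTop ℕ∞) f₁ := by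
      convert hf₁ using 3
      ring
    have cf₂ : ContDiff ℝ ((2 + i + 1 : ℕ) : WithTop ℕ∞) f₂ := by
      convert hf₂ using 3
      ring
    obtain ⟨W, hW, hWe⟩ := exists_iteratedDeriv_comp i 2 (by norm_num) f₁ f₂ cf₁ cf₂
    have hW2 : ContDiff ℝ 2 W := by exact_mod_cast hW
    have dc₁ : ContDiff ℝ 2 (deriv f₁) := by
      have := r f₁ hf₁ 2 1 (by omega)
      rw [iteratedDeriv_one] at this
      exact_mod_cast this
    have dc₂ : ContDiff ℝ 2 (deriv f₂) := by
      have := r f₂ hf₂ 2 1 (by omega)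
      rw [iteratedDeriv_one] at this
      exact_mod_cast this
    have P1 : ContDiff ℝ 2 (fun x => (deriv f₂ x) ^ (i + 2)) := dc₂.pow _
    have P2 : ContDiff ℝ 2 (fun x => deriv f₁ (f₂ x)) := dc₁.comp c₂
    have dP1 : DifferentiableAt ℝ (fun x => (deriv f₂ x) ^ (i + 2)) 0 :=
      (P1.differentiable (by norm_num)) 0
    have dP2 : DifferentiableAt ℝ (fun x => deriv f₁ (f₂ x)) 0 :=
      (P2.differentiable (by norm_num)) 0
    have Q1 : ContDiff ℝ 1 (fun x => iteratedDeriv (i + 2) f₁ (f₂ x)) :=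
      kd₁.comp (c₂.of_le (by norm_num))
    have dQ1 : DifferentiableAt ℝ (fun x => iteratedDeriv (i + 2) f₁ (f₂ x)) 0 :=
      (Q1.differentiable (by norm_num)) 0
    have dQ2 : DifferentiableAt ℝ (iteratedDeriv (i + 2) f₂) 0 :=
      (kd₂.differentiable (by norm_num)) 0
    have dW : DifferentiableAt ℝ W 0 := (hW2.differentiable (by norm_num)) 0
    have t1 := tau_mul dQ1 dP1
    have t2 := tau_mul dP2 dQ2
    have t3 := tau_isM2 hW2
    have t4 := tau_isM2 P1
    have t5 := tau_isM2 P2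
    have sum1 : tau (iteratedDeriv (i + 2) (fun x => f₁ (f₂ x))) = fun x =>
        tau (fun x => iteratedDeriv (i + 2) f₁ (f₂ x) * (deriv f₂ x) ^ (i + 2)) x +
        tau (fun x => deriv f₁ (f₂ x) * iteratedDeriv (i + 2) f₂ x) x + tau W x := by
      rw [hWe]
      have dA : DifferentiableAt ℝ
          (fun x => iteratedDeriv (i + 2) f₁ (f₂ x) * (deriv f₂ x) ^ (i + 2)) 0 := dQ1.mul dP1
      have dB : DifferentiableAt ℝ
          (fun x => deriv f₁ (f₂ x) * iteratedDeriv (i + 2) f₂ x) 0 := dP2.mul dQ2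
      have dAB : DifferentiableAt ℝ
          (fun x => iteratedDeriv (i + 2) f₁ (f₂ x) * (deriv f₂ x) ^ (i + 2) +
            deriv f₁ (f₂ x) * iteratedDeriv (i + 2) f₂ x) 0 := dA.add dB
      rw [tau_add dAB dW, tau_add dA dB]
    have total := (((t1.add t2).add t3).add ((main.const_mul ((deriv f₂ 0) ^ (i + 2))))).add
      ((t4.const_mul (iteratedDeriv (i + 2) f₁ 0)).add
        (t5.const_mul (iteratedDeriv (i + 2) f₂ 0)))
    refine total.congr (Eventually.of_forall fun x => ?_)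
    rw [sum1]
    simp only [h₂]
    ring
  · -- `k = 1`
    obtain rfl : k = 1 := le_antisymm h1 hk
    rw [iteratedDeriv_one, iteratedDeriv_one, iteratedDeriv_one]
    rw [iteratedDeriv_one] at kd₁ kd₂
    rw [iteratedDeriv_one] at main
    have e1 : deriv (fun x => f₁ (f₂ x)) = fun x => deriv f₁ (f₂ x) * deriv f₂ x := by
      funext x
      exact ((d₁ (f₂ x)).hasDerivAt.comp x (d₂ x).hasDerivAt).deriv
    have Q1 : ContDiff ℝ 1 (fun x => deriv f₁ (f₂ x)) := kd₁.comp (c₂.of_le (by norm_num))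
    have dQ1 : DifferentiableAt ℝ (fun x => deriv f₁ (f₂ x)) 0 :=
      (Q1.differentiable (by norm_num)) 0
    have dQ2 : DifferentiableAt ℝ (deriv f₂) 0 := (kd₂.differentiable (by norm_num)) 0
    have t1 := tau_mul dQ1 dQ2
    refine (t1.add (main.const_mul (deriv f₂ 0))).congr (Eventually.of_forall fun x => ?_)
    rw [e1]
    simp only [h₂]
    ring

end Run7.h21
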