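import Mathlib

/-!
# An algebraic lemma: slowly growing multiples are torsion

Let `A = ℤ[ℝ]` be the group ring of the additive group of the reals and let `E` be an `A`-module.
If arbitrarily cheap words (in the translates of a finite set of vectors) represent multiples of a
vector `v`, then `v` is a torsion vector.
-/

namespace Run7.h21

open scoped nonZeroDivisors

/-- The group ring `ℤ[ℝ]` of the additive group of the reals. -/
abbrev A : Type := AddMonoidAlgebra ℤ ℝ

/-- The `ℓ¹` norm on the group ring. -/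
noncomputable def nrm (a : A) : ℤ := ∑ t ∈ a.coeff.support, |a.coeff t|

theorem nrm_eq_of_subset (a : A) {s : Finset ℝ} (hs : a.coeff.support ⊆ s) :
    nrm a = ∑ t ∈ s, |a.coeff t| := by
  unfold nrm
  apply Finset.sum_subset hs
  intro x _ hx
  rw [Finsupp.notMem_support_iff.1 hx, abs_zero]

theorem nrm_zero : nrm 0 = 0 := by
  simp [nrm]

theorem nrm_add_le (a b : A) : nrm (a + b) ≤ nrm a + nrm b := by
  classical
  have h1 : (a + b).coeff.support ⊆ a.coeff.support ∪ b.coeff.support := by
    rw [AddMonoidAlgebra.coeff_add]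
    exact Finsupp.support_add
  rw [nrm_eq_of_subset _ h1, nrm_eq_of_subset a (Finset.subset_union_left (s₂ := b.coeff.support)),
    nrm_eq_of_subset b (Finset.subset_union_right (s₁ := a.coeff.support)),
    ← Finset.sum_add_distrib]
  apply Finset.sum_le_sum
  intro t _
  rw [AddMonoidAlgebra.coeff_add, Finsupp.add_apply]
  exact abs_add_le _ _

theorem nrm_sum_le {ι : Type*} (s : Finset ι) (f : ι → A) :
    nrm (∑ i ∈ s, f i) ≤ ∑ i ∈ s, nrm (f i) := by
  classical
  induction s using Finset.induction_on with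
  | empty => simp [nrm_zero]
  | insert i s hi ih =>
    rw [Finset.sum_insert hi, Finset.sum_insert hi]
    exact (nrm_add_le _ _).trans (by linarith)

theorem nrm_list_sum_le (l : List A) (C : ℤ) (hC : ∀ a ∈ l, nrm a ≤ C) :
    nrm l.sum ≤ l.length * C := by
  induction l with
  | nil => simp [nrm_zero]
  | cons a l ih =>
    have h1 := ih (fun b hb => hC b (List.mem_cons_of_mem _ hb))
    have h2 := hC a List.mem_cons_self
    rw [List.sum_cons, List.length_cons]
    have h3 := nrm_add_le a l.sum
    push_cast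
    linarith

theorem nrm_single (t : ℝ) (c : ℤ) : nrm (AddMonoidAlgebra.single t c) = |c| := by
  classical
  rw [nrm_eq_of_subset (s := {t})]
  · simp
  · intro x hx
    rw [AddMonoidAlgebra.coeff_single] at hx
    exact Finsupp.support_single_subset hx

theorem sum_single_eq (a : A) :
    ∑ s ∈ a.coeff.support, AddMonoidAlgebra.single s (a.coeff s) = a := by
  classical
  ext x
  rw [AddMonoidAlgebra.coeff_sum, Finsupp.finsetSum_apply]
  simp only [AddMonoidAlgebra.coeff_single, Finsupp.single_apply]
  rw [Finset.sum_ite_eq']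
  split_ifs with h
  · rfl
  · exact (Finsupp.notMem_support_iff.1 h).symm

theorem nrm_single_mul_le (t : ℝ) (a : A) : nrm (AddMonoidAlgebra.single t 1 * a) ≤ nrm a := by
  have h : a = ∑ s ∈ a.coeff.support, AddMonoidAlgebra.single s (a.coeff s) :=
    (sum_single_eq a).symm
  conv_lhs => rw [h]
  rw [Finset.mul_sum]
  refine (nrm_sum_le _ _).trans ?_
  unfold nrm
  apply Finset.sum_le_sum
  intro s _
  rw [AddMonoidAlgebra.single_mul_single, one_mul]
  exact (nrm_single _ _).le

theorem nrm_nsmul (n : ℕ) (a : A) : nrm (n • a) = n * nrm a := by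
  have h1 : (n • a).coeff.support ⊆ a.coeff.support := by
    intro x hx
    rw [Finsupp.mem_support_iff] at hx ⊢
    intro h
    apply hx
    rw [AddMonoidAlgebra.coeff_smul, Finsupp.smul_apply, h, smul_zero]
  rw [nrm_eq_of_subset _ h1, nrm, Finset.mul_sum]
  apply Finset.sum_congr rfl
  intro t _
  rw [AddMonoidAlgebra.coeff_smul, Finsupp.smul_apply, nsmul_eq_mul, abs_mul, Nat.abs_cast]

theorem one_le_nrm {a : A} (ha : a ≠ 0) : 1 ≤ nrm a := by
  have h1 : a.coeff.support.Nonempty := by
    rw [Finsupp.support_nonempty_iff]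
    intro h
    apply ha
    ext x
    simp [h]
  obtain ⟨t, ht⟩ := h1
  have h2 : |a.coeff t| ≤ nrm a :=
    Finset.single_le_sum (f := fun t => |a.coeff t|) (fun i _ => abs_nonneg _) ht
  have h3 : 1 ≤ |a.coeff t| := Int.one_le_abs (Finsupp.mem_support_iff.1 ht)
  linarith

/-- **Slow growth forces torsion.** If for every `δ > 0` some positive multiple `n • v` is a sum of
at most `δ n` translates of elements of a fixed finite set `W`, then `v` is killed by a nonzero
element of the group ring. -/
theorem exists_smul_eq_zero {E : Type*} [AddCommGroup E] [Module A E] (v : E) (W : Set E)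
    (hW : W.Finite)
    (h : ∀ δ : ℝ, 0 < δ → ∃ n : ℕ, 1 ≤ n ∧ ∃ l : List (ℝ × E), (∀ p ∈ l, p.2 ∈ W) ∧
      (l.map fun p => AddMonoidAlgebra.single p.1 (1 : ℤ) • p.2).sum = n • v ∧
      (l.length : ℝ) ≤ δ * n) :
    ∃ a : A, a ≠ 0 ∧ a • v = 0 := by
  classical
  by_contra hcon
  push Not at hcon
  -- pass to the fraction field
  let M : Submonoid A := A⁰
  let K := FractionRing A
  let EK := LocalizedModule M E
  let ι : E →ₗ[A] EK := LocalizedModule.mkLinearMap M E
  have hv : ι v ≠ 0 := by
    intro h0
    have h1 : LocalizedModule.mk v (1 : M) = LocalizedModule.mk 0 (1 : M) := by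
      rw [LocalizedModule.zero_mk]
      exact h0
    rw [LocalizedModule.mk_eq] at h1
    obtain ⟨u, hu⟩ := h1
    have h2 : (u : A) • v = 0 := by
      have h3 : u • v = 0 := by simpa using hu
      exact h3
    exact hcon u (nonZeroDivisors.coe_ne_zero u) h2
  obtain ⟨f, hf⟩ := Module.Projective.exists_dual_eq_one K hv
  -- a common denominator
  let F : E → K := fun w => f (ι w)
  have hF : ∀ (a : A) (w : E), F (a • w) = algebraMap A K a * F w := by
    intro a w
    show f (ι (a • w)) = algebraMap A K a * f (ι w)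
    rw [map_smul, ← algebraMap_smul K a (ι w), map_smul, smul_eq_mul]
  have hFadd : ∀ w w' : E, F (w + w') = F w + F w' := by
    intro w w'
    show f (ι (w + w')) = f (ι w) + f (ι w')
    rw [map_add, map_add]
  have hFzero : F 0 = 0 := by
    show f (ι 0) = 0
    rw [map_zero, map_zero]
  have hFlist : ∀ l : List E, F l.sum = (l.map F).sum := by
    intro l
    induction l with
    | nil => simpa using hFzero
    | cons a l ih => rw [List.sum_cons, hFadd, ih, List.map_cons, List.sum_cons]
  obtain ⟨b, hb⟩ := IsLocalization.exist_integer_multiples_of_finset M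
    (hW.toFinset.image F)
  have hc : ∀ w ∈ W, ∃ c : A, algebraMap A K c = algebraMap A K b * F w := by
    intro w hw
    obtain ⟨c, hc⟩ := hb (F w) (Finset.mem_image_of_mem F (hW.mem_toFinset.2 hw))
    refine ⟨c, ?_⟩
    rw [hc, Algebra.smul_def]
  choose! c hc using hc
  -- a bound for the norms of the numerators
  obtain ⟨C, hC⟩ : ∃ C : ℤ, ∀ w ∈ W, nrm (c w) ≤ C := by
    obtain ⟨C, hC⟩ := ((hW.image fun w => nrm (c w)).bddAbove)
    exact ⟨C, fun w hw => hC (Set.mem_image_of_mem _ hw)⟩
  have hC0 : (0 : ℝ) < max (C : ℝ) 0 + 1 := by positivity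
  obtain ⟨n, hn, l, hl1, hl2, hl3⟩ := h ((max (C : ℝ) 0 + 1)⁻¹ / 2) (by positivity)
  -- the identity in the group ring
  have key : (l.map fun p => AddMonoidAlgebra.single p.1 (1 : ℤ) * c p.2).sum = n • (b : A) := by
    apply IsFractionRing.injective A K
    have h1 := congrArg F hl2
    rw [hFlist, List.map_map] at h1
    have h2 : F (n • v) = n := by
      have : F (n • v) = n • F v := by
        show f (ι (n • v)) = n • f (ι v)
        rw [map_nsmul, map_nsmul]
      rw [this]
      show n • f (ι v) = n
      rw [hf, nsmul_eq_mul, mul_one]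
    rw [h2] at h1
    rw [map_nsmul, nsmul_eq_mul, ← h1, map_list_sum, List.map_map, ← List.sum_map_mul_right]
    congr 1
    apply List.map_congr_left
    intro p hp
    simp only [Function.comp]
    rw [map_mul, hc p.2 (hl1 p hp), hF]
    ring
  have h5 : nrm (n • (b : A)) ≤ l.length * C := by
    rw [← key]
    have := nrm_list_sum_le (l.map fun p => AddMonoidAlgebra.single p.1 (1 : ℤ) * c p.2) C ?_
    · simpa using this
    · intro a ha
      obtain ⟨p, hp, rfl⟩ := List.mem_map.1 ha
      exact (nrm_single_mul_le _ _).trans (hC _ (hl1 p hp))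
  rw [nrm_nsmul] at h5
  have h6 : (1 : ℤ) ≤ nrm (b : A) := one_le_nrm (nonZeroDivisors.coe_ne_zero b)
  have h7 : (n : ℝ) ≤ l.length * C := by
    have : (n : ℤ) ≤ l.length * C := by nlinarith
    exact_mod_cast this
  have hn0 : (1 : ℝ) ≤ n := by exact_mod_cast hn
  have h8 : (l.length : ℝ) * C ≤ l.length * (max (C : ℝ) 0 + 1) := by
    apply mul_le_mul_of_nonneg_left _ (Nat.cast_nonneg _)
    linarith [le_max_left (C : ℝ) 0]
  have h9 : (l.length : ℝ) * (max (C : ℝ) 0 + 1) ≤
      ((max (C : ℝ) 0 + 1)⁻¹ / 2 * n) * (max (C : ℝ) 0 + 1) :=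
    mul_le_mul_of_nonneg_right hl3 hC0.le
  have h10 : ((max (C : ℝ) 0 + 1)⁻¹ / 2 * n) * (max (C : ℝ) 0 + 1) = n / 2 := by
    field_simp
  linarith

end Run7.h21
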