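import Mathlib
import Pool.Agent.Run7.h21.Torsion
import Pool.Agent.Run7.h21.Cocycle

/-!
# Functions as a module over the group ring `ℤ[ℝ]`, acting by weighted dilations
-/

namespace Run7.h21

open Filter Topology Asymptotics

/-- The weighted dilation `F ↦ μ ^ p * F (μ * x)`. -/
def dil (p : ℕ) (μ : ℝ) : Module.End ℤ (ℝ → ℝ) where
  toFun F := fun x => μ ^ p * F (μ * x)
  map_add' F H := by
    funext x
    simp only [Pi.add_apply]
    ring
  map_smul' c F := by
    funext x
    simp only [Pi.smul_apply, zsmul_eq_mul, RingHom.id_apply]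
    ring

theorem dil_apply (p : ℕ) (μ : ℝ) (F : ℝ → ℝ) (x : ℝ) : dil p μ F x = μ ^ p * F (μ * x) := rfl

theorem dil_dil (p : ℕ) (μ ν : ℝ) (F : ℝ → ℝ) : dil p μ (dil p ν F) = dil p (μ * ν) F := by
  funext x
  simp only [dil_apply]
  rw [mul_pow, ← mul_assoc, ← mul_assoc, mul_comm ν μ]

theorem dil_one (p : ℕ) (F : ℝ → ℝ) : dil p 1 F = F := by
  funext x
  simp [dil_apply]

/-- The weighted dilations by `exp t`, as a multiplicative homomorphism. -/
noncomputable def scale (p : ℕ) : Multiplicative ℝ →* Module.End ℤ (ℝ → ℝ) where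
  toFun t := dil p (Real.exp t.toAdd)
  map_one' := by
    ext F x
    simp [dil_apply]
  map_mul' s t := by
    refine LinearMap.ext fun F => ?_
    rw [toAdd_mul, Real.exp_add]
    exact (dil_dil p _ _ F).symm

/-- Real functions, with the action of the group ring `ℤ[ℝ]` by the weighted dilations
`t • F = (x ↦ exp t ^ p * F (exp t * x))`. -/
def FunMod (_p : ℕ) : Type := ℝ → ℝ

instance (p : ℕ) : AddCommGroup (FunMod p) := inferInstanceAs (AddCommGroup (ℝ → ℝ))

noncomputable instance (p : ℕ) : Module A (FunMod p) :=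
  Module.compHom (ℝ → ℝ) (AddMonoidAlgebra.lift ℤ (Module.End ℤ (ℝ → ℝ)) ℝ (scale p)).toRingHom

theorem smul_def' (p : ℕ) (a : A) (F : FunMod p) :
    a • F = (AddMonoidAlgebra.lift ℤ (Module.End ℤ (ℝ → ℝ)) ℝ (scale p) a) F := rfl

theorem single_smul (p : ℕ) (t : ℝ) (F : FunMod p) :
    (AddMonoidAlgebra.single t (1 : ℤ) : A) • F = dil p (Real.exp t) F := by
  rw [smul_def', AddMonoidAlgebra.lift_single, one_smul]
  rfl

theorem lift_scale_apply (p : ℕ) (a : A) (F : ℝ → ℝ) (x : ℝ) :
    (AddMonoidAlgebra.lift ℤ (Module.End ℤ (ℝ → ℝ)) ℝ (scale p) a) F x =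
      ∑ t ∈ a.coeff.support, (a.coeff t : ℝ) * (Real.exp t ^ p * F (Real.exp t * x)) := by
  rw [AddMonoidAlgebra.lift_apply, Finsupp.sum, LinearMap.sum_apply, Finset.sum_apply]
  apply Finset.sum_congr rfl
  intro t _
  rw [LinearMap.smul_apply, Pi.smul_apply, zsmul_eq_mul]
  rfl

theorem smul_apply' (p : ℕ) (a : A) (F : FunMod p) (x : ℝ) :
    (a • F : FunMod p) x =
      ∑ t ∈ a.coeff.support, (a.coeff t : ℝ) * (Real.exp t ^ p * F (Real.exp t * x)) :=
  lift_scale_apply p a F x

theorem IsM2.dil {F : ℝ → ℝ} (hF : IsM2 F) (p : ℕ) (μ : ℝ) : IsM2 (Run7.h21.dil p μ F) :=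
  (hF.dilate μ).const_mul (μ ^ p)

/-- The functions with a second order expansion `C x ^ 2 + o(x ^ 2)` form a submodule. -/
def Neg (p : ℕ) : Submodule A (FunMod p) where
  carrier := {F | IsM2 (show ℝ → ℝ from F)}
  add_mem' h1 h2 := IsM2.add h1 h2
  zero_mem' := IsM2.zero
  smul_mem' a F hF := by
    classical
    have h : (a • F : FunMod p) = fun x => ∑ t ∈ a.coeff.support,
        (a.coeff t : ℝ) * dil p (Real.exp t) F x := by
      funext x
      exact smul_apply' p a F x
    show IsM2 (show ℝ → ℝ from (a • F : FunMod p))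
    rw [h]
    generalize a.coeff.support = s
    induction s using Finset.induction_on with
    | empty =>
      simp only [Finset.sum_empty]
      exact IsM2.zero
    | insert t s hts ih =>
      simp only [Finset.sum_insert hts]
      exact ((IsM2.dil hF p _).const_mul _).add ih

theorem mem_Neg {p : ℕ} {F : FunMod p} : F ∈ Neg p ↔ IsM2 (show ℝ → ℝ from F) := Iff.rfl

/-- The class of a function modulo the functions with a second order expansion. -/
noncomputable def cls (p : ℕ) (F : ℝ → ℝ) : FunMod p ⧸ Neg p :=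
  Submodule.Quotient.mk (p := Neg p) (show FunMod p from F)

theorem cls_add (p : ℕ) (F H : ℝ → ℝ) : cls p (fun x => F x + H x) = cls p F + cls p H := rfl

theorem cls_eq_iff (p : ℕ) (F H : ℝ → ℝ) :
    cls p F = cls p H ↔ IsM2 (fun x => F x - H x) := by
  unfold cls
  rw [Submodule.Quotient.eq, mem_Neg]
  rfl

theorem cls_eq_zero_iff (p : ℕ) (F : ℝ → ℝ) : cls p F = 0 ↔ IsM2 F := by
  unfold cls
  rw [Submodule.Quotient.mk_eq_zero, mem_Neg]

theorem single_smul_cls (p : ℕ) (t : ℝ) (F : ℝ → ℝ) :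
    (AddMonoidAlgebra.single t (1 : ℤ) : A) • cls p F = cls p (dil p (Real.exp t) F) := by
  unfold cls
  rw [← Submodule.Quotient.mk_smul, single_smul]

theorem smul_cls_eq_zero (p : ℕ) (a : A) (F : ℝ → ℝ) (h : a • cls p F = 0) :
    IsM2 (fun x => ∑ t ∈ a.coeff.support,
      (a.coeff t : ℝ) * (Real.exp t ^ p * F (Real.exp t * x))) := by
  unfold cls at h
  rw [← Submodule.Quotient.mk_smul, Submodule.Quotient.mk_eq_zero, mem_Neg] at h
  refine h.congr (Eventually.of_forall fun x => ?_)
  exact smul_apply' p a F x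

end Run7.h21
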