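import Mathlib
import Pool.Agent.Run7.h21.Defs
import Pool.Agent.Run7.h21.Words
import Pool.Agent.Run7.h21.Cocycle
import Pool.Agent.Run7.h21.FunModule

/-!
# The torsion obstruction to distortion
-/

namespace Run7.h21

open Filter Topology Asymptotics

/-- A germ of class `C^n` at `0` has a representative that is `C^n` on the whole line. -/
theorem exists_global_rep {n : ℕ} {f : ℝ → ℝ} (hf : ∀ᶠ x in 𝓝 (0 : ℝ), ContDiffAt ℝ n f x) :
    ∃ F : ℝ → ℝ, ContDiff ℝ n F ∧ F =ᶠ[𝓝 0] f := by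
  obtain ⟨ε, hε, hball⟩ := Metric.eventually_nhds_iff_ball.1 hf
  let φ : ContDiffBump (0 : ℝ) := ⟨ε / 4, ε / 2, by positivity, by linarith⟩
  refine ⟨fun x => φ x * f x, ?_, ?_⟩
  · rw [contDiff_iff_contDiffAt]
    intro x
    by_cases hx : x ∈ Metric.ball (0 : ℝ) ε
    · exact (φ.contDiffAt).mul (hball x hx)
    · have hx' : x ∉ tsupport φ := by
        rw [φ.tsupport_eq]
        intro h
        apply hx
        have h1 : dist x 0 ≤ ε / 2 := h
        exact lt_of_le_of_lt h1 (by linarith)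
      have h2 : (fun x => φ x * f x) =ᶠ[𝓝 x] fun _ => 0 := by
        have := notMem_tsupport_iff_eventuallyEq.1 hx'
        filter_upwards [this] with y hy
        rw [hy]
        simp
      exact contDiffAt_const.congr_of_eventuallyEq h2
  · have h1 := φ.eventuallyEq_one
    filter_upwards [h1] with x hx
    rw [hx]
    simp

theorem tau_congr {h₁ h₂ : ℝ → ℝ} (h : h₁ =ᶠ[𝓝 0] h₂) : tau h₁ =ᶠ[𝓝 0] tau h₂ := by
  have h0 := h.eq_of_nhds
  have h1 := h.deriv_eq
  filter_upwards [h] with x hx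
  simp only [tau, hx, h0, h1]

section Rep

variable {k : ℕ}

theorem exists_rep (s : G ((k + 1 : ℕ) : WithTop ℕ∞)) : ∃ F : ℝ → ℝ,
    ContDiff ℝ ((k + 1 : ℕ) : WithTop ℕ∞) F ∧ F 0 = 0 ∧ IsGermOf s F := by
  obtain ⟨u, hu⟩ := s
  obtain ⟨f, hf, hfr⟩ := hu.1
  obtain ⟨F, hF, hFf⟩ := exists_global_rep hfr
  have hgerm : (u : FixGerm).germ = (F : Germ (𝓝 (0 : ℝ)) ℝ) := by
    rw [hf]
    exact Filter.Germ.coe_eq.2 hFf.symm
  refine ⟨F, hF, ?_, hgerm⟩
  have h1 := (u : FixGerm).tends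
  rw [hgerm] at h1
  have h2 : Tendsto F (𝓝 0) (𝓝 0) := h1
  exact tendsto_nhds_unique hF.continuous.continuousAt.tendsto h2

/-- A chosen global representative. -/
noncomputable def rep (s : G ((k + 1 : ℕ) : WithTop ℕ∞)) : ℝ → ℝ := (exists_rep s).choose

theorem rep_contDiff (s : G ((k + 1 : ℕ) : WithTop ℕ∞)) :
    ContDiff ℝ ((k + 1 : ℕ) : WithTop ℕ∞) (rep s) := (exists_rep s).choose_spec.1

theorem rep_zero (s : G ((k + 1 : ℕ) : WithTop ℕ∞)) : rep s 0 = 0 := (exists_rep s).choose_spec.2.1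

theorem rep_germ (s : G ((k + 1 : ℕ) : WithTop ℕ∞)) : IsGermOf s (rep s) :=
  (exists_rep s).choose_spec.2.2

theorem IsGermOf.eventuallyEq {r : WithTop ℕ∞} {s : G r} {f g : ℝ → ℝ} (hf : IsGermOf s f)
    (hg : IsGermOf s g) : f =ᶠ[𝓝 0] g := by
  unfold IsGermOf at hf hg
  rw [hf] at hg
  exact Filter.Germ.coe_eq.1 hg

theorem IsGermOf.tendsto {r : WithTop ℕ∞} {s : G r} {f : ℝ → ℝ} (hf : IsGermOf s f) :
    Tendsto f (𝓝 0) (𝓝 0) := by
  have h1 := ((s : FixGermˣ) : FixGerm).tends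
  unfold IsGermOf at hf
  rw [hf] at h1
  exact h1

theorem IsGermOf.eq_of {r : WithTop ℕ∞} {s : G r} {f : ℝ → ℝ} (hf : IsGermOf s f) :
    ((s : FixGermˣ) : FixGerm) = FixGerm.of f hf.tendsto := by
  ext1
  exact hf

theorem IsGermOf.mul {r : WithTop ℕ∞} {s t : G r} {f g : ℝ → ℝ} (hf : IsGermOf s f)
    (hg : IsGermOf t g) : IsGermOf (s * t) (fun x => f (g x)) := by
  unfold IsGermOf
  rw [Subgroup.coe_mul, Units.val_mul, hf.eq_of, hg.eq_of, FixGerm.of_mul_of]
  rfl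

theorem IsGermOf.one (r : WithTop ℕ∞) : IsGermOf (1 : G r) (fun x => x) := rfl

theorem IsGermOf.congr {r : WithTop ℕ∞} {s : G r} {f g : ℝ → ℝ} (hf : IsGermOf s f)
    (h : f =ᶠ[𝓝 0] g) : IsGermOf s g := by
  unfold IsGermOf at *
  rw [hf]
  exact Filter.Germ.coe_eq.2 h

theorem rep_mul (s t : G ((k + 1 : ℕ) : WithTop ℕ∞)) :
    rep (s * t) =ᶠ[𝓝 0] fun x => rep s (rep t x) :=
  (rep_germ (s * t)).eventuallyEq ((rep_germ s).mul (rep_germ t))

theorem rep_differentiable (s : G ((k + 1 : ℕ) : WithTop ℕ∞)) : Differentiable ℝ (rep s) :=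
  (rep_contDiff s).differentiable (by exact_mod_cast (by omega : k + 1 ≠ 0))

/-- The multiplier `s'(0)`. -/
noncomputable def lam (s : G ((k + 1 : ℕ) : WithTop ℕ∞)) : ℝ := deriv (rep s) 0

theorem lam_mul (s t : G ((k + 1 : ℕ) : WithTop ℕ∞)) : lam (s * t) = lam s * lam t := by
  unfold lam
  rw [(rep_mul s t).deriv_eq]
  have h := ((rep_differentiable s (rep t 0)).hasDerivAt.comp (0 : ℝ)
    (rep_differentiable t 0).hasDerivAt).deriv
  rw [rep_zero] at h
  exact h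

theorem lam_one : lam (1 : G ((k + 1 : ℕ) : WithTop ℕ∞)) = 1 := by
  unfold lam
  rw [((rep_germ 1).eventuallyEq (IsGermOf.one _)).deriv_eq]
  exact deriv_id 0

theorem lam_ne_zero (s : G ((k + 1 : ℕ) : WithTop ℕ∞)) : lam s ≠ 0 := by
  intro h
  have h1 := lam_mul s s⁻¹
  rw [mul_inv_cancel, lam_one, h, zero_mul] at h1
  exact one_ne_zero h1

/-- The normalised second order remainder of the `k`-th derivative. -/
noncomputable def psi (s : G ((k + 1 : ℕ) : WithTop ℕ∞)) : ℝ → ℝ :=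
  fun x => (lam s)⁻¹ * tau (iteratedDeriv k (rep s)) x

theorem psi_mul (hk : 1 ≤ k) (s t : G ((k + 1 : ℕ) : WithTop ℕ∞)) :
    IsM2 (fun x => psi (s * t) x - (psi t x + dil (k - 1) (lam t) (psi s) x)) := by
  have h1 := cocycle hk (rep_contDiff s) (rep_contDiff t) (rep_zero t)
  have h2 : tau (iteratedDeriv k (rep (s * t))) =ᶠ[𝓝 0]
      tau (iteratedDeriv k (fun x => rep s (rep t x))) :=
    tau_congr ((rep_mul s t).iteratedDeriv k)
  have h3 := (h1.const_mul ((lam s * lam t)⁻¹))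
  refine h3.congr ?_
  filter_upwards [h2] with x hx
  obtain ⟨p, rfl⟩ := Nat.exists_eq_add_of_le' hk
  have hs := lam_ne_zero s
  have ht := lam_ne_zero t
  simp only [psi, dil_apply, hx, lam_mul]
  change _ * (_ - (lam s * _ + lam t ^ (p + 1) * tau _ (lam t * x))) = _
  rw [Nat.add_sub_cancel]
  field_simp
  ring

theorem psi_one (hk : 1 ≤ k) : IsM2 (psi (1 : G ((k + 1 : ℕ) : WithTop ℕ∞))) := by
  have h := psi_mul hk (1 : G ((k + 1 : ℕ) : WithTop ℕ∞)) 1
  rw [mul_one, lam_one, dil_one] at h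
  exact (h.const_mul (-1)).congr (Eventually.of_forall fun x => by ring)

/-- The class of `psi s` modulo the functions with a second order expansion. -/
noncomputable def Psi (s : G ((k + 1 : ℕ) : WithTop ℕ∞)) : FunMod (k - 1) ⧸ Neg (k - 1) :=
  cls (k - 1) (psi s)

/-- The class of the weighted dilation of `psi s` modulo the functions with a second order expansion. -/
noncomputable def dPsi (μ : ℝ) (s : G ((k + 1 : ℕ) : WithTop ℕ∞)) :
    FunMod (k - 1) ⧸ Neg (k - 1) :=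
  cls (k - 1) (dil (k - 1) μ (psi s))

theorem Psi_mul (hk : 1 ≤ k) (s t : G ((k + 1 : ℕ) : WithTop ℕ∞)) :
    Psi (s * t) = Psi t + dPsi (lam t) s := by
  unfold Psi dPsi
  rw [← cls_add, cls_eq_iff]
  exact psi_mul hk s t

theorem Psi_one (hk : 1 ≤ k) : Psi (1 : G ((k + 1 : ℕ) : WithTop ℕ∞)) = 0 := by
  unfold Psi
  rw [cls_eq_zero_iff]
  exact psi_one hk

theorem dPsi_one (s : G ((k + 1 : ℕ) : WithTop ℕ∞)) : dPsi 1 s = Psi s := by
  unfold dPsi Psi
  rw [dil_one]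

theorem dPsi_of_pos {μ : ℝ} (hμ : 0 < μ) (s : G ((k + 1 : ℕ) : WithTop ℕ∞)) :
    dPsi μ s = (AddMonoidAlgebra.single (Real.log μ) (1 : ℤ) : A) • Psi s := by
  unfold dPsi Psi
  rw [single_smul_cls, Real.exp_log hμ]

theorem dPsi_of_neg {μ : ℝ} (hμ : μ < 0) (s : G ((k + 1 : ℕ) : WithTop ℕ∞)) :
    dPsi μ s = (AddMonoidAlgebra.single (Real.log (-μ)) (1 : ℤ) : A) • dPsi (-1) s := by
  unfold dPsi
  rw [single_smul_cls, Real.exp_log (by linarith), dil_dil]
  simp

/-- A word in `T` gives a short sum of translates for the class of its product. -/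
theorem exists_list (hk : 1 ≤ k) (T : Set (G ((k + 1 : ℕ) : WithTop ℕ∞)))
    (l : List (G ((k + 1 : ℕ) : WithTop ℕ∞))) (hl : ∀ s ∈ l, s ∈ T) :
    ∃ L : List (ℝ × (FunMod (k - 1) ⧸ Neg (k - 1))), L.length = l.length ∧
      (∀ q ∈ L, q.2 ∈ Psi '' T ∪ dPsi (-1) '' T) ∧
      (L.map fun q => (AddMonoidAlgebra.single q.1 (1 : ℤ) : A) • q.2).sum = Psi l.prod := by
  induction l with
  | nil => exact ⟨[], rfl, by simp, by simp [Psi_one hk]⟩
  | cons s l ih =>
    obtain ⟨L, hL1, hL2, hL3⟩ := ih fun t ht => hl t (List.mem_cons_of_mem _ ht)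
    have hs : s ∈ T := hl s List.mem_cons_self
    rcases lt_or_gt_of_ne (lam_ne_zero l.prod) with h | h
    · refine ⟨(Real.log (-(lam l.prod)), dPsi (-1) s) :: L, by simp [hL1], ?_, ?_⟩
      · intro q hq
        rcases List.mem_cons.1 hq with rfl | hq
        · exact Or.inr ⟨s, hs, rfl⟩
        · exact hL2 q hq
      · rw [List.map_cons, List.sum_cons, hL3, List.prod_cons, Psi_mul hk, dPsi_of_neg h, add_comm]
    · refine ⟨(Real.log (lam l.prod), Psi s) :: L, by simp [hL1], ?_, ?_⟩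
      · intro q hq
        rcases List.mem_cons.1 hq with rfl | hq
        · exact Or.inl ⟨s, hs, rfl⟩
        · exact hL2 q hq
      · rw [List.map_cons, List.sum_cons, hL3, List.prod_cons, Psi_mul hk, dPsi_of_pos h, add_comm]

theorem lam_pow (s : G ((k + 1 : ℕ) : WithTop ℕ∞)) (hs : lam s = 1) (n : ℕ) : lam (s ^ n) = 1 := by
  induction n with
  | zero => rw [pow_zero, lam_one]
  | succ n ih => rw [pow_succ, lam_mul, ih, hs, one_mul]

theorem Psi_pow (hk : 1 ≤ k) (s : G ((k + 1 : ℕ) : WithTop ℕ∞)) (hs : lam s = 1) (n : ℕ) :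
    Psi (s ^ n) = n • Psi s := by
  induction n with
  | zero => rw [pow_zero, Psi_one hk, zero_smul]
  | succ n ih =>
    rw [pow_succ, Psi_mul hk, hs, dPsi_one, ih, succ_nsmul, add_comm]

/-- **The torsion obstruction**, in terms of the classes `Psi`. -/
theorem Psi_torsion (hk : 1 ≤ k) (g : G ((k + 1 : ℕ) : WithTop ℕ∞))
    (hg : IsDistortionElement g) (hlam : lam g = 1) : ∃ a : A, a ≠ 0 ∧ a • Psi g = 0 := by
  obtain ⟨T, hT, hw⟩ := hg.exists_words
  refine exists_smul_eq_zero (Psi g) (Psi '' T ∪ dPsi (-1) '' T)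
    ((hT.image _).union (hT.image _)) ?_
  intro δ hδ
  obtain ⟨n, hn, l, hl1, hl2, hl3⟩ := hw δ hδ
  obtain ⟨L, hL1, hL2, hL3⟩ := exists_list hk T l hl1
  refine ⟨n, hn, L, hL2, ?_, ?_⟩
  · rw [hL3, hl2, Psi_pow hk g hlam]
  · rw [hL1]
    exact hl3

theorem Psi_eq_cls {g : G ((k + 1 : ℕ) : WithTop ℕ∞)} {f : ℝ → ℝ} (hf : IsGermOf g f)
    (h1 : deriv f 0 = 1) : Psi g = cls (k - 1) (tau (iteratedDeriv k f)) := by
  have hrep : rep g =ᶠ[𝓝 0] f := (rep_germ g).eventuallyEq hf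
  have hlam : lam g = 1 := by
    unfold lam
    rw [hrep.deriv_eq, h1]
  unfold Psi
  rw [cls_eq_iff]
  have h5 : tau (iteratedDeriv k (rep g)) =ᶠ[𝓝 0] tau (iteratedDeriv k f) :=
    tau_congr (hrep.iteratedDeriv k)
  refine IsM2.zero.congr ?_
  filter_upwards [h5] with x hx
  simp only [psi, hlam, inv_one, one_mul, hx, sub_self]

/-- A function whose class modulo the functions with a second order expansion is a torsion element. -/
def IsTors (p : ℕ) (F : ℝ → ℝ) : Prop := ∃ a : A, a ≠ 0 ∧ a • cls p F = 0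

theorem IsTors.sub {p : ℕ} {F H : ℝ → ℝ} (hF : IsTors p F) (hH : IsTors p H) :
    IsTors p (fun x => F x - H x) := by
  obtain ⟨a, ha, haF⟩ := hF
  obtain ⟨b, hb, hbH⟩ := hH
  refine ⟨a * b, mul_ne_zero ha hb, ?_⟩
  have h1 : cls p (fun x => F x - H x) = cls p F - cls p H := rfl
  rw [h1, smul_sub, mul_smul a b (cls p H), hbH, smul_zero, mul_comm, mul_smul, haF, smul_zero,
    sub_zero]

/-- **The torsion obstruction.** -/
theorem isTors_of_isDistortionElement (hk : 1 ≤ k) {g : G ((k + 1 : ℕ) : WithTop ℕ∞)}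
    (hg : IsDistortionElement g) {f : ℝ → ℝ} (hf : IsGermOf g f) (h1 : deriv f 0 = 1) :
    IsTors (k - 1) (tau (iteratedDeriv k f)) := by
  have hrep : rep g =ᶠ[𝓝 0] f := (rep_germ g).eventuallyEq hf
  have hlam : lam g = 1 := by
    unfold lam
    rw [hrep.deriv_eq, h1]
  obtain ⟨a, ha, hav⟩ := Psi_torsion hk g hg hlam
  rw [Psi_eq_cls hf h1] at hav
  exact ⟨a, ha, hav⟩

end Rep

end Run7.h21
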