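import Mathlib

/-!
# Commensurable intermediate fields and the degree ratio
-/

namespace Run7.h21

open IntermediateField Module

variable {F E : Type*} [Field F] [Field E] [Algebra F E]

theorem relfinrank_ne_zero_iff {A B : IntermediateField F E} (h : A ≤ B) :
    relfinrank A B ≠ 0 ↔ FiniteDimensional A (extendScalars h) := by
  rw [relfinrank_eq_finrank_of_le h]
  constructor
  · intro h0
    exact Module.finite_of_finrank_pos (Nat.pos_of_ne_zero h0)
  · intro h0
    exact (Module.finrank_pos).ne'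

theorem relfinrank_sup_ne_zero {A B C : IntermediateField F E} (h : A ≤ B) (h' : A ≤ C)
    (hB : relfinrank A B ≠ 0) (hC : relfinrank A C ≠ 0) : relfinrank A (B ⊔ C) ≠ 0 := by
  rw [relfinrank_ne_zero_iff h] at hB
  rw [relfinrank_ne_zero_iff h'] at hC
  rw [relfinrank_ne_zero_iff (le_sup_of_le_left h), ← extendScalars_sup h h']
  infer_instance

/-- Two intermediate fields are commensurable when both are of finite degree in their
compositum. -/
def Com (A B : IntermediateField F E) : Prop :=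
  relfinrank A (A ⊔ B) ≠ 0 ∧ relfinrank B (A ⊔ B) ≠ 0

/-- The ratio of the two degrees. -/
noncomputable def ratio (A B : IntermediateField F E) : ℝ :=
  (relfinrank B (A ⊔ B) : ℝ) / (relfinrank A (A ⊔ B) : ℝ)

theorem Com.refl (A : IntermediateField F E) : Com A A := by
  unfold Com
  rw [sup_idem, relfinrank_self]
  simp

theorem Com.symm {A B : IntermediateField F E} (h : Com A B) : Com B A := by
  unfold Com at h ⊢
  rw [sup_comm B A]
  exact ⟨h.2, h.1⟩

theorem ratio_pos {A B : IntermediateField F E} (h : Com A B) : 0 < ratio A B := by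
  have h1 : 0 < (relfinrank A (A ⊔ B) : ℝ) := by exact_mod_cast Nat.pos_of_ne_zero h.1
  have h2 : 0 < (relfinrank B (A ⊔ B) : ℝ) := by exact_mod_cast Nat.pos_of_ne_zero h.2
  exact div_pos h2 h1

/-- The degree ratio may be computed in any larger field in which both have finite degree. -/
theorem ratio_eq {A B N : IntermediateField F E} (hA : A ≤ N) (hB : B ≤ N)
    (h : relfinrank (A ⊔ B) N ≠ 0) :
    ratio A B = (relfinrank B N : ℝ) / (relfinrank A N : ℝ) := by
  have hN : A ⊔ B ≤ N := sup_le hA hB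
  rw [← relfinrank_mul_relfinrank (le_sup_left : A ≤ A ⊔ B) hN,
    ← relfinrank_mul_relfinrank (le_sup_right : B ≤ A ⊔ B) hN]
  have h' : (relfinrank (A ⊔ B) N : ℝ) ≠ 0 := by exact_mod_cast h
  push_cast
  rw [mul_div_mul_right _ _ h']
  rfl

theorem relfinrank_sup_sup_ne_zero {A B C : IntermediateField F E} (h1 : Com A B)
    (h2 : Com B C) : relfinrank (A ⊔ B) (A ⊔ B ⊔ C) ≠ 0 ∧ relfinrank (B ⊔ C) (A ⊔ B ⊔ C) ≠ 0 := by
  have e : A ⊔ B ⊔ C = (A ⊔ B) ⊔ (B ⊔ C) := by
    rw [sup_assoc, sup_assoc, ← sup_assoc B B C, sup_idem]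
  have h3 : relfinrank B (A ⊔ B ⊔ C) ≠ 0 := by
    rw [e]
    exact relfinrank_sup_ne_zero le_sup_right le_sup_left h1.2 h2.1
  constructor
  · rw [← relfinrank_mul_relfinrank (le_sup_right : B ≤ A ⊔ B) le_sup_left] at h3
    exact right_ne_zero_of_mul h3
  · rw [← relfinrank_mul_relfinrank (le_sup_left : B ≤ B ⊔ C)
      (sup_le (le_sup_of_le_left le_sup_right) le_sup_right)] at h3
    exact right_ne_zero_of_mul h3

theorem Com.trans {A B C : IntermediateField F E} (h1 : Com A B) (h2 : Com B C) :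
    Com A C ∧ ratio A C = ratio A B * ratio B C := by
  obtain ⟨h3, h4⟩ := relfinrank_sup_sup_ne_zero h1 h2
  have lA : A ≤ A ⊔ B ⊔ C := le_sup_of_le_left le_sup_left
  have lB : B ≤ A ⊔ B ⊔ C := le_sup_of_le_left le_sup_right
  have lC : C ≤ A ⊔ B ⊔ C := le_sup_right
  have nA : relfinrank A (A ⊔ B ⊔ C) ≠ 0 := by
    rw [← relfinrank_mul_relfinrank (le_sup_left : A ≤ A ⊔ B) le_sup_left]
    exact mul_ne_zero h1.1 h3
  have nB : relfinrank B (A ⊔ B ⊔ C) ≠ 0 := by
    rw [← relfinrank_mul_relfinrank (le_sup_right : B ≤ A ⊔ B) le_sup_left]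
    exact mul_ne_zero h1.2 h3
  have nC : relfinrank C (A ⊔ B ⊔ C) ≠ 0 := by
    rw [← relfinrank_mul_relfinrank (le_sup_right : C ≤ B ⊔ C)
      (sup_le (le_sup_of_le_left le_sup_right) le_sup_right)]
    exact mul_ne_zero h2.2 h4
  have nA' := nA
  have nC' := nC
  rw [← relfinrank_mul_relfinrank (le_sup_left : A ≤ A ⊔ C) (sup_le lA lC)] at nA'
  rw [← relfinrank_mul_relfinrank (le_sup_right : C ≤ A ⊔ C) (sup_le lA lC)] at nC'
  refine ⟨⟨left_ne_zero_of_mul nA', left_ne_zero_of_mul nC'⟩, ?_⟩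
  rw [ratio_eq lA lC (right_ne_zero_of_mul nA'), ratio_eq lA lB h3, ratio_eq lB lC h4]
  have nB' : (relfinrank B (A ⊔ B ⊔ C) : ℝ) ≠ 0 := by exact_mod_cast nB
  have nA' : (relfinrank A (A ⊔ B ⊔ C) : ℝ) ≠ 0 := by exact_mod_cast nA
  field_simp

theorem com_map {A B : IntermediateField F E} (f : E →ₐ[F] E) (h : Com A B) :
    Com (A.map f) (B.map f) ∧ ratio (A.map f) (B.map f) = ratio A B := by
  unfold Com ratio
  rw [← IntermediateField.map_sup, relfinrank_map_map, relfinrank_map_map]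
  exact ⟨h, rfl⟩

end Run7.h21
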