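import Mathlib
import Pool.Agent.Run7.h21.Commens

/-!
# Algebraic relations between two elements and degrees
-/

namespace Run7.h21

open IntermediateField Module Polynomial
open scoped algebraAdjoinAdjoin Polynomial.Bivariate

variable {F E : Type*} [Field F] [Field E] [Algebra F E]

/-- The map of coefficient rings `F[X] → F(x)`. -/
noncomputable def toK (x : E) (hx : Transcendental F x) : F[X] →+* adjoin F ({x} : Set E) :=
  (algebraMap (Algebra.adjoin F ({x} : Set E)) (adjoin F ({x} : Set E))).comp
    (algEquivOfTranscendental F x hx : F[X] →+* Algebra.adjoin F ({x} : Set E))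

theorem toK_coe (x : E) (hx : Transcendental F x) (p : F[X]) :
    ((toK x hx p : adjoin F ({x} : Set E)) : E) = aeval x p := by
  have e : toK x hx p = algebraMap (Algebra.adjoin F ({x} : Set E)) (adjoin F ({x} : Set E))
    (aeval (⟨x, Algebra.self_mem_adjoin_singleton F x⟩ : Algebra.adjoin F ({x} : Set E)) p) := rfl
  rw [e, algebraAdjoinAdjoin.coe_algebraMap]
  rw [← Subalgebra.coe_val, ← Polynomial.aeval_algHom_apply]
  rfl

theorem toK_injective (x : E) (hx : Transcendental F x) : Function.Injective (toK x hx) := by
  intro p q h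
  have h1 : aeval x p = aeval x q := by rw [← toK_coe x hx, ← toK_coe x hx, h]
  exact transcendental_iff_injective.1 hx h1

theorem aeval_map_toK (x y : E) (hx : Transcendental F x) (P : F[X][Y]) :
    aeval y (P.map (toK x hx)) = aevalAeval x y P := by
  have : ((aeval y : (adjoin F ({x} : Set E))[X] →ₐ[adjoin F ({x} : Set E)] E) :
      (adjoin F ({x} : Set E))[X] →+* E).comp (mapRingHom (toK x hx)) =
      ((aevalAeval x y : F[X][Y] →ₐ[F] E) : F[X][Y] →+* E) := by
    apply Polynomial.ringHom_ext
    · intro p
      have e1 : (((aeval y : (adjoin F ({x} : Set E))[X] →ₐ[adjoin F ({x} : Set E)] E) :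
        (adjoin F ({x} : Set E))[X] →+* E).comp (mapRingHom (toK x hx))) (C p) =
          ((toK x hx p : adjoin F ({x} : Set E)) : E) := by
        simp only [RingHom.comp_apply, coe_mapRingHom, map_C, RingHom.coe_coe, aeval_C]
        rfl
      rw [e1, toK_coe]
      exact (aevalAeval_C x y p).symm
    · simp
  exact congrArg (fun φ : F[X][Y] →+* E => φ P) this

theorem isAlgebraic_adjoin_iff (x y : E) (hx : Transcendental F x) :
    IsAlgebraic (adjoin F ({x} : Set E)) y ↔ ∃ P : F[X][Y], P ≠ 0 ∧ aevalAeval x y P = 0 := by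
  constructor
  · intro h
    rw [← IsFractionRing.isAlgebraic_iff (Algebra.adjoin F ({x} : Set E))
      (adjoin F ({x} : Set E)) E] at h
    obtain ⟨p, hp, hp0⟩ := h
    refine ⟨p.map ((algEquivOfTranscendental F x hx).symm :
      Algebra.adjoin F ({x} : Set E) →+* F[X]), ?_, ?_⟩
    · rwa [Ne, Polynomial.map_eq_zero_iff]
      exact (algEquivOfTranscendental F x hx).symm.injective
    · rw [← aeval_map_toK x y hx, Polynomial.map_map]
      have e : (toK x hx).comp ((algEquivOfTranscendental F x hx).symm :
          Algebra.adjoin F ({x} : Set E) →+* F[X]) =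
          algebraMap (Algebra.adjoin F ({x} : Set E)) (adjoin F ({x} : Set E)) := by
        ext1 a
        unfold toK
        rw [RingHom.comp_apply, RingHom.comp_apply]
        congr 1
        exact (algEquivOfTranscendental F x hx).apply_symm_apply a
      rw [e, aeval_map_algebraMap]
      exact hp0
  · rintro ⟨P, hP, h0⟩
    refine ⟨P.map (toK x hx), ?_, ?_⟩
    · rwa [Ne, Polynomial.map_eq_zero_iff (toK_injective x hx)]
    · rw [aeval_map_toK]
      exact h0

theorem natDegree_ne_zero_of_aevalAeval {x y : E} (hx : Transcendental F x) {P : F[X][Y]}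
    (hP : P ≠ 0) (h0 : aevalAeval x y P = 0) : P.natDegree ≠ 0 := by
  intro h
  rw [Polynomial.eq_C_of_natDegree_eq_zero h, aevalAeval_C] at h0
  have : P.coeff 0 = 0 := transcendental_iff.1 hx _ h0
  rw [Polynomial.eq_C_of_natDegree_eq_zero h, this] at hP
  exact hP (map_zero _)

theorem finrank_adjoin_eq {x y : E} (hx : Transcendental F x) {P : F[X][Y]}
    (hP : Irreducible P) (h0 : aevalAeval x y P = 0) :
    finrank (adjoin F ({x} : Set E)) (adjoin (adjoin F ({x} : Set E)) ({y} : Set E)) =
      P.natDegree := by
  have hd := natDegree_ne_zero_of_aevalAeval hx hP.ne_zero h0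
  have : UniqueFactorizationMonoid (Algebra.adjoin F ({x} : Set E)) :=
    hx.uniqueFactorizationMonoid_adjoin
  let e := algEquivOfTranscendental F x hx
  let Q : (Algebra.adjoin F ({x} : Set E))[X] := P.map (e : F[X] →+* Algebra.adjoin F ({x} : Set E))
  have hQ : Irreducible Q := by
    have : Q = P.mapEquiv e.toRingEquiv := rfl
    rw [this, MulEquiv.irreducible_iff]
    exact hP
  have hinj : Function.Injective (e : F[X] →+* Algebra.adjoin F ({x} : Set E)) := e.injective
  have hQd : Q.natDegree = P.natDegree := natDegree_map_eq_of_injective hinj _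
  have hQp : Q.IsPrimitive := hQ.isPrimitive (by rw [hQd]; exact hd)
  have hR : Irreducible (Q.map (algebraMap (Algebra.adjoin F ({x} : Set E))
      (adjoin F ({x} : Set E)))) :=
    (IsPrimitive.irreducible_iff_irreducible_map_fraction_map hQp).1 hQ
  have eR : Q.map (algebraMap (Algebra.adjoin F ({x} : Set E)) (adjoin F ({x} : Set E))) =
      P.map (toK x hx) := by
    rw [Polynomial.map_map]
    rfl
  rw [eR] at hR
  have hR0 : aeval y (P.map (toK x hx)) = 0 := by rw [aeval_map_toK]; exact h0
  have hint : IsIntegral (adjoin F ({x} : Set E)) y :=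
    (show IsAlgebraic (adjoin F ({x} : Set E)) y from ⟨_, hR.ne_zero, hR0⟩).isIntegral
  rw [adjoin.finrank hint, ← minpoly.eq_of_irreducible hR hR0, mul_comm,
    natDegree_C_mul (inv_ne_zero (leadingCoeff_ne_zero.2 hR.ne_zero)),
    natDegree_map_eq_of_injective (toK_injective x hx)]

theorem relfinrank_adjoin_eq (A : IntermediateField F E) (y : E) :
    relfinrank A (A ⊔ adjoin F ({y} : Set E)) = finrank A (adjoin A ({y} : Set E)) := by
  rw [relfinrank_eq_finrank_of_le le_sup_left]
  have : extendScalars (le_sup_left : A ≤ A ⊔ adjoin F ({y} : Set E)) =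
      adjoin A ({y} : Set E) := by
    apply restrictScalars_injective F
    rw [extendScalars_restrictScalars, restrictScalars_adjoin_eq_sup]
  rw [this]

theorem relfinrank_adjoin_ne_zero_iff (A : IntermediateField F E) (y : E) :
    relfinrank A (A ⊔ adjoin F ({y} : Set E)) ≠ 0 ↔ IsAlgebraic A y := by
  rw [relfinrank_adjoin_eq]
  constructor
  · intro h
    have : FiniteDimensional A (adjoin A ({y} : Set E)) :=
      Module.finite_of_finrank_pos (Nat.pos_of_ne_zero h)
    have h1 : IsAlgebraic A (AdjoinSimple.gen A y) := Algebra.IsAlgebraic.isAlgebraic _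
    have h2 := h1.algebraMap (A := E)
    simpa using h2
  · intro h
    have : FiniteDimensional A (adjoin A ({y} : Set E)) :=
      adjoin.finiteDimensional h.isIntegral
    exact Module.finrank_pos.ne'

end Run7.h21
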