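import Mathlib

/-!
# Germs at `0+` of analytic functions, and the group of one-sided analytic germs
-/

namespace Run7.h21

open Filter Topology

/-- A germ at `0+` of a map tending to `0+` at `0+`. -/
@[ext]
structure PosGerm where
  /-- the underlying germ at `0+` of a real function -/
  germ : Filter.Germ (𝓝[>] (0 : ℝ)) ℝ
  /-- the germ tends to `0+` at `0+` -/
  tends : germ.Tendsto (𝓝[>] (0 : ℝ))

namespace PosGerm

/-- The germ of a function that tends to `0+` at `0+`. -/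
def of (f : ℝ → ℝ) (hf : Tendsto f (𝓝[>] 0) (𝓝[>] 0)) : PosGerm :=
  ⟨(f : Germ (𝓝[>] (0 : ℝ)) ℝ), hf⟩

theorem exists_rep (φ : PosGerm) :
    ∃ f : ℝ → ℝ, ∃ hf : Tendsto f (𝓝[>] 0) (𝓝[>] 0), φ = of f hf := by
  obtain ⟨g, hg⟩ := φ
  induction g using Filter.Germ.inductionOn with
  | h f => exact ⟨f, hg, rfl⟩

instance : Mul PosGerm where
  mul φ ψ := ⟨φ.germ.compTendsto' ψ.germ ψ.tends, by
    obtain ⟨f, hf, rfl⟩ := φ.exists_rep
    obtain ⟨g, hg, rfl⟩ := ψ.exists_rep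
    exact hf.comp hg⟩

instance : One PosGerm where
  one := of id tendsto_id

theorem of_mul_of {f g : ℝ → ℝ} (hf : Tendsto f (𝓝[>] 0) (𝓝[>] 0))
    (hg : Tendsto g (𝓝[>] 0) (𝓝[>] 0)) : of f hf * of g hg = of (f ∘ g) (hf.comp hg) := rfl

theorem one_def : (1 : PosGerm) = of id tendsto_id := rfl

theorem of_eq_of {f g : ℝ → ℝ} (hf : Tendsto f (𝓝[>] 0) (𝓝[>] 0))
    (hg : Tendsto g (𝓝[>] 0) (𝓝[>] 0)) : of f hf = of g hg ↔ f =ᶠ[𝓝[>] 0] g := by
  constructor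
  · intro h
    exact Filter.Germ.coe_eq.1 (congrArg PosGerm.germ h)
  · intro h
    ext1
    exact Filter.Germ.coe_eq.2 h

instance : Monoid PosGerm where
  mul_assoc φ ψ χ := by
    obtain ⟨f, hf, rfl⟩ := φ.exists_rep
    obtain ⟨g, hg, rfl⟩ := ψ.exists_rep
    obtain ⟨h, hh, rfl⟩ := χ.exists_rep
    rfl
  one_mul φ := by
    obtain ⟨f, hf, rfl⟩ := φ.exists_rep
    rfl
  mul_one φ := by
    obtain ⟨f, hf, rfl⟩ := φ.exists_rep
    rfl

/-- The germ is analytic near `0`, off `0`. -/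
def IsAn (φ : PosGerm) : Prop :=
  ∃ f : ℝ → ℝ, φ.germ = (f : Germ (𝓝[>] (0 : ℝ)) ℝ) ∧ ∀ᶠ x in 𝓝[>] (0 : ℝ), AnalyticAt ℝ f x

theorem _root_.Run7.h21.eventually_nhds_of_pos {p : ℝ → Prop} (h : ∀ᶠ x in 𝓝[>] (0 : ℝ), p x) :
    ∀ᶠ x in 𝓝[>] (0 : ℝ), ∀ᶠ t in 𝓝 x, p t := by
  rw [eventually_nhdsWithin_iff] at h ⊢
  have h2 := eventually_eventually_nhds.2 h
  filter_upwards [h2] with x hx hx0
  have h3 : ∀ᶠ t in 𝓝 x, t ∈ Set.Ioi (0 : ℝ) := isOpen_Ioi.mem_nhds hx0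
  filter_upwards [hx, h3] with t ht1 ht2
  exact ht1 ht2

theorem _root_.Run7.h21.analytic_congr {f g : ℝ → ℝ} (h : f =ᶠ[𝓝[>] 0] g)
    (hf : ∀ᶠ x in 𝓝[>] (0 : ℝ), AnalyticAt ℝ f x) : ∀ᶠ x in 𝓝[>] (0 : ℝ), AnalyticAt ℝ g x := by
  filter_upwards [eventually_nhds_of_pos h, hf] with x hx hx2
  exact hx2.congr hx

theorem isAn_of {f : ℝ → ℝ} (hf : Tendsto f (𝓝[>] 0) (𝓝[>] 0)) :
    IsAn (of f hf) ↔ ∀ᶠ x in 𝓝[>] (0 : ℝ), AnalyticAt ℝ f x := by
  constructor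
  · rintro ⟨g, hg, hgr⟩
    have h1 : f =ᶠ[𝓝[>] 0] g := Filter.Germ.coe_eq.1 hg
    exact analytic_congr h1.symm hgr
  · intro h
    exact ⟨f, rfl, h⟩

theorem IsAn.one : IsAn 1 := by
  rw [one_def, isAn_of]
  exact Eventually.of_forall fun x => analyticAt_id

theorem IsAn.mul {φ ψ : PosGerm} (hφ : IsAn φ) (hψ : IsAn ψ) : IsAn (φ * ψ) := by
  obtain ⟨f, hf, rfl⟩ := φ.exists_rep
  obtain ⟨g, hg, rfl⟩ := ψ.exists_rep
  rw [of_mul_of, isAn_of]
  rw [isAn_of] at hφ hψ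
  filter_upwards [hψ, hg.eventually hφ] with x hx hx'
  exact AnalyticAt.comp hx' hx

end PosGerm

/-- The group of one-sided analytic germs. -/
def PG : Subgroup PosGermˣ where
  carrier := {u | (u : PosGerm).IsAn ∧ ((u⁻¹ : PosGermˣ) : PosGerm).IsAn}
  mul_mem' := by
    rintro u v ⟨hu, hu'⟩ ⟨hv, hv'⟩
    refine ⟨?_, ?_⟩
    · rw [Units.val_mul]; exact hu.mul hv
    · rw [mul_inv_rev, Units.val_mul]; exact hv'.mul hu'
  one_mem' := by
    refine ⟨?_, ?_⟩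
    · rw [Units.val_one]; exact PosGerm.IsAn.one
    · rw [inv_one, Units.val_one]; exact PosGerm.IsAn.one
  inv_mem' := by
    rintro u ⟨hu, hu'⟩
    exact ⟨hu', by rwa [inv_inv]⟩

/-- The germ `g` of `PG` is the germ at `0+` of the function `f`. -/
def IsPos (g : PG) (f : ℝ → ℝ) : Prop :=
  ((g : PosGermˣ) : PosGerm).germ = (f : Germ (𝓝[>] (0 : ℝ)) ℝ)

theorem IsPos.eventuallyEq {s : PG} {f g : ℝ → ℝ} (hf : IsPos s f)
    (hg : IsPos s g) : f =ᶠ[𝓝[>] 0] g := by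
  unfold IsPos at hf hg
  rw [hf] at hg
  exact Filter.Germ.coe_eq.1 hg

theorem IsPos.tendsto {s : PG} {f : ℝ → ℝ} (hf : IsPos s f) :
    Tendsto f (𝓝[>] 0) (𝓝[>] 0) := by
  have h1 := ((s : PosGermˣ) : PosGerm).tends
  unfold IsPos at hf
  rw [hf] at h1
  exact h1

theorem IsPos.eq_of {s : PG} {f : ℝ → ℝ} (hf : IsPos s f) :
    ((s : PosGermˣ) : PosGerm) = PosGerm.of f hf.tendsto := by
  ext1
  exact hf

theorem IsPos.mul {s t : PG} {f g : ℝ → ℝ} (hf : IsPos s f)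
    (hg : IsPos t g) : IsPos (s * t) (fun x => f (g x)) := by
  unfold IsPos
  rw [Subgroup.coe_mul, Units.val_mul, hf.eq_of, hg.eq_of, PosGerm.of_mul_of]
  rfl

theorem IsPos.one : IsPos 1 (fun x => x) := rfl

theorem IsPos.congr {s : PG} {f g : ℝ → ℝ} (hf : IsPos s f)
    (h : f =ᶠ[𝓝[>] 0] g) : IsPos s g := by
  unfold IsPos at *
  rw [hf]
  exact Filter.Germ.coe_eq.2 h

theorem IsPos.ext {s t : PG} {f g : ℝ → ℝ} (hf : IsPos s f)
    (hg : IsPos t g) (h : f =ᶠ[𝓝[>] 0] g) : s = t := by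
  apply Subtype.ext
  apply Units.ext
  rw [hf.eq_of, hg.eq_of, PosGerm.of_eq_of]
  exact h

theorem exists_pos_rep (s : PG) :
    ∃ f : ℝ → ℝ, (∀ᶠ x in 𝓝[>] (0 : ℝ), AnalyticAt ℝ f x) ∧ IsPos s f := by
  obtain ⟨u, hu⟩ := s
  obtain ⟨f, hf, hfr⟩ := hu.1
  exact ⟨f, hfr, hf⟩

/-- The ring of germs at `0+` of functions that are real-analytic near `0`, off `0`. -/
def posRing : Subring (Germ (𝓝[>] (0 : ℝ)) ℝ) where
  carrier := {φ | ∃ f : ℝ → ℝ, (∀ᶠ x in 𝓝[>] (0 : ℝ), AnalyticAt ℝ f x) ∧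
    φ = (f : Germ (𝓝[>] (0 : ℝ)) ℝ)}
  mul_mem' := by
    rintro _ _ ⟨f, hf, rfl⟩ ⟨g, hg, rfl⟩
    refine ⟨f * g, ?_, rfl⟩
    filter_upwards [hf, hg] with x h1 h2
    exact h1.mul h2
  one_mem' := ⟨1, Eventually.of_forall fun _ => analyticAt_const, rfl⟩
  add_mem' := by
    rintro _ _ ⟨f, hf, rfl⟩ ⟨g, hg, rfl⟩
    refine ⟨f + g, ?_, rfl⟩
    filter_upwards [hf, hg] with x h1 h2
    exact h1.add h2
  zero_mem' := ⟨0, Eventually.of_forall fun _ => analyticAt_const, rfl⟩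
  neg_mem' := by
    rintro _ ⟨f, hf, rfl⟩
    refine ⟨-f, ?_, rfl⟩
    filter_upwards [hf] with x h1
    exact h1.neg

/-- Eventually analytic at `0+`. -/
def EvAn (f : ℝ → ℝ) : Prop := ∀ᶠ x in 𝓝[>] (0 : ℝ), AnalyticAt ℝ f x

theorem EvAn.mul {f g : ℝ → ℝ} (hf : EvAn f) (hg : EvAn g) : EvAn (fun x => f x * g x) := by
  filter_upwards [hf, hg] with x h1 h2
  exact h1.mul h2

theorem EvAn.add {f g : ℝ → ℝ} (hf : EvAn f) (hg : EvAn g) : EvAn (fun x => f x + g x) := by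
  filter_upwards [hf, hg] with x h1 h2
  exact h1.add h2

theorem EvAn.const (c : ℝ) : EvAn (fun _ => c) := Eventually.of_forall fun _ => analyticAt_const

theorem EvAn.id : EvAn (fun x => x) := Eventually.of_forall fun _ => analyticAt_id

/-- The germ of an eventually analytic function. -/
def mkPos (f : ℝ → ℝ) (hf : EvAn f) : posRing := ⟨(f : Germ (𝓝[>] (0 : ℝ)) ℝ), f, hf, rfl⟩

theorem exists_mkPos (φ : posRing) : ∃ (f : ℝ → ℝ) (hf : EvAn f), φ = mkPos f hf := by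
  obtain ⟨_, f, hf, rfl⟩ := φ
  exact ⟨f, hf, rfl⟩

theorem mkPos_eq_iff {f g : ℝ → ℝ} (hf : EvAn f) (hg : EvAn g) :
    mkPos f hf = mkPos g hg ↔ f =ᶠ[𝓝[>] 0] g := by
  constructor
  · intro h
    exact Filter.Germ.coe_eq.1 (congrArg Subtype.val h)
  · intro h
    exact Subtype.ext (Filter.Germ.coe_eq.2 h)

theorem mkPos_mul {f g : ℝ → ℝ} (hf : EvAn f) (hg : EvAn g) :
    mkPos f hf * mkPos g hg = mkPos (fun x => f x * g x) (hf.mul hg) := rfl

theorem mkPos_add {f g : ℝ → ℝ} (hf : EvAn f) (hg : EvAn g) :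
    mkPos f hf + mkPos g hg = mkPos (fun x => f x + g x) (hf.add hg) := rfl

theorem mkPos_zero : (0 : posRing) = mkPos (fun _ => 0) (EvAn.const 0) := rfl

theorem mkPos_one : (1 : posRing) = mkPos (fun _ => 1) (EvAn.const 1) := rfl

instance : Nontrivial posRing := by
  refine ⟨⟨0, 1, ?_⟩⟩
  rw [mkPos_zero, mkPos_one, Ne, mkPos_eq_iff]
  intro h
  obtain ⟨x, hx⟩ := h.exists
  exact zero_ne_one hx

instance : NoZeroDivisors posRing where
  eq_zero_or_eq_zero_of_mul_eq_zero := by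
    intro φ ψ h
    obtain ⟨f, hf, rfl⟩ := exists_mkPos φ
    obtain ⟨g, hg, rfl⟩ := exists_mkPos ψ
    rw [mkPos_mul, mkPos_zero, mkPos_eq_iff] at h
    rw [mkPos_zero, mkPos_eq_iff, mkPos_eq_iff]
    obtain ⟨δ, hδ, hsub⟩ := mem_nhdsGT_iff_exists_Ioo_subset.1 (hf.and (hg.and h))
    have hδ : (0 : ℝ) < δ := hδ
    have hI : Set.Ioo (0 : ℝ) δ ∈ 𝓝[>] (0 : ℝ) := Ioo_mem_nhdsGT hδ
    have fan : AnalyticOnNhd ℝ f (Set.Ioo 0 δ) := fun x hx => (hsub hx).1
    have gan : AnalyticOnNhd ℝ g (Set.Ioo 0 δ) := fun x hx => (hsub hx).2.1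
    by_cases hfz : ∀ x ∈ Set.Ioo (0 : ℝ) δ, f x = 0
    · left
      filter_upwards [hI] with x hx
      exact hfz x hx
    · right
      push Not at hfz
      obtain ⟨x₀, hx₀, hfx₀⟩ := hfz
      have h1 : ∀ᶠ x in 𝓝 x₀, f x ≠ 0 := (fan x₀ hx₀).continuousAt.eventually_ne hfx₀
      have h2 : g =ᶠ[𝓝 x₀] 0 := by
        filter_upwards [h1, isOpen_Ioo.mem_nhds hx₀] with x hx hxI
        have h3 : f x * g x = 0 := (hsub hxI).2.2
        rcases mul_eq_zero.1 h3 with h4 | h4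
        · exact absurd h4 hx
        · exact h4
      have h3 := gan.eqOn_zero_of_preconnected_of_eventuallyEq_zero isPreconnected_Ioo hx₀ h2
      filter_upwards [hI] with x hx
      exact h3 hx

instance : IsDomain posRing := NoZeroDivisors.to_isDomain _

/-- The constants. -/
def constPos : ℝ →+* posRing where
  toFun c := mkPos (fun _ => c) (EvAn.const c)
  map_one' := rfl
  map_mul' _ _ := rfl
  map_zero' := rfl
  map_add' _ _ := rfl

instance : Algebra ℝ posRing := constPos.toAlgebra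

theorem algebraMap_posRing (c : ℝ) : algebraMap ℝ posRing c = mkPos (fun _ => c) (EvAn.const c) :=
  rfl

/-- The fraction field of the ring of germs at `0+`. -/
abbrev MerPos : Type := FractionRing posRing

/-- The element of `PG` as an element of the ring. -/
def sgP (s : PG) : posRing := ⟨((s : PosGermˣ) : PosGerm).germ, by
  obtain ⟨f, hf, h⟩ := exists_pos_rep s
  exact ⟨f, hf, h⟩⟩

theorem sgP_eq {s : PG} {f : ℝ → ℝ} (hf : EvAn f) (h : IsPos s f) :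
    sgP s = mkPos f hf := Subtype.ext h

theorem evAn_comp {f g : ℝ → ℝ} (hf : EvAn f) (hg : EvAn g)
    (h : Tendsto g (𝓝[>] 0) (𝓝[>] 0)) : EvAn (fun x => f (g x)) := by
  filter_upwards [hg, h.eventually hf] with x h1 h2
  exact AnalyticAt.comp h2 h1

theorem compPos_mem (s : PG) (φ : posRing) :
    (φ : Germ (𝓝[>] (0 : ℝ)) ℝ).compTendsto' ((s : PosGermˣ) : PosGerm).germ
      ((s : PosGermˣ) : PosGerm).tends ∈ posRing := by
  obtain ⟨f, hf, rfl⟩ := exists_mkPos φ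
  obtain ⟨g, hg, h⟩ := exists_pos_rep s
  refine ⟨fun x => f (g x), evAn_comp hf hg h.tendsto, ?_⟩
  have e := h.eq_of
  show (f : Germ (𝓝[>] (0 : ℝ)) ℝ).compTendsto' ((s : PosGermˣ) : PosGerm).germ
      ((s : PosGermˣ) : PosGerm).tends = _
  simp only [e]
  rfl

/-- Composition with an element of `PG`. -/
def compPos (s : PG) (φ : posRing) : posRing := ⟨_, compPos_mem s φ⟩

theorem compPos_mkPos {s : PG} {f g : ℝ → ℝ} (hf : EvAn f)
    (h : IsPos s g) (hfg : EvAn (fun x => f (g x))) :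
    compPos s (mkPos f hf) = mkPos (fun x => f (g x)) hfg := by
  apply Subtype.ext
  have e := h.eq_of
  show (f : Germ (𝓝[>] (0 : ℝ)) ℝ).compTendsto' ((s : PosGermˣ) : PosGerm).germ
      ((s : PosGermˣ) : PosGerm).tends = _
  simp only [e]
  rfl

/-- Composition with `s`, as an algebra homomorphism. -/
def compHomP (s : PG) : posRing →ₐ[ℝ] posRing where
  toFun := compPos s
  map_one' := by
    obtain ⟨g, hg, h⟩ := exists_pos_rep s
    rw [mkPos_one, compPos_mkPos (EvAn.const 1) h (EvAn.const 1)]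
  map_mul' φ ψ := by
    obtain ⟨f₁, hf₁, rfl⟩ := exists_mkPos φ
    obtain ⟨f₂, hf₂, rfl⟩ := exists_mkPos ψ
    obtain ⟨g, hg, h⟩ := exists_pos_rep s
    rw [mkPos_mul, compPos_mkPos (hf₁.mul hf₂) h (evAn_comp (hf₁.mul hf₂) hg h.tendsto),
      compPos_mkPos hf₁ h (evAn_comp hf₁ hg h.tendsto),
      compPos_mkPos hf₂ h (evAn_comp hf₂ hg h.tendsto), mkPos_mul]
  map_zero' := by
    obtain ⟨g, hg, h⟩ := exists_pos_rep s
    rw [mkPos_zero, compPos_mkPos (EvAn.const 0) h (EvAn.const 0)]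
  map_add' φ ψ := by
    obtain ⟨f₁, hf₁, rfl⟩ := exists_mkPos φ
    obtain ⟨f₂, hf₂, rfl⟩ := exists_mkPos ψ
    obtain ⟨g, hg, h⟩ := exists_pos_rep s
    rw [mkPos_add, compPos_mkPos (hf₁.add hf₂) h (evAn_comp (hf₁.add hf₂) hg h.tendsto),
      compPos_mkPos hf₁ h (evAn_comp hf₁ hg h.tendsto),
      compPos_mkPos hf₂ h (evAn_comp hf₂ hg h.tendsto), mkPos_add]
  commutes' c := by
    obtain ⟨g, hg, h⟩ := exists_pos_rep s
    rw [algebraMap_posRing, compPos_mkPos (EvAn.const c) h (EvAn.const c)]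

theorem compHomP_mkPos {s : PG} {f g : ℝ → ℝ} (hf : EvAn f)
    (h : IsPos s g) (hfg : EvAn (fun x => f (g x))) :
    compHomP s (mkPos f hf) = mkPos (fun x => f (g x)) hfg := compPos_mkPos hf h hfg

theorem compHomP_compHomP (s t : PG) (φ : posRing) :
    compHomP s (compHomP t φ) = compHomP (t * s) φ := by
  obtain ⟨f, hf, rfl⟩ := exists_mkPos φ
  obtain ⟨g, hg, h⟩ := exists_pos_rep s
  obtain ⟨g', hg', h'⟩ := exists_pos_rep t
  have a1 := evAn_comp hf hg' h'.tendsto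
  have a2 := evAn_comp a1 hg h.tendsto
  rw [compHomP_mkPos hf h' a1, compHomP_mkPos a1 h a2, compHomP_mkPos hf (h'.mul h) a2]

theorem compHomP_one (φ : posRing) : compHomP 1 φ = φ := by
  obtain ⟨f, hf, rfl⟩ := exists_mkPos φ
  rw [compHomP_mkPos hf IsPos.one hf]

theorem compHomP_sgP (s t : PG) : compHomP s (sgP t) = sgP (t * s) := by
  obtain ⟨g, hg, h⟩ := exists_pos_rep s
  obtain ⟨g', hg', h'⟩ := exists_pos_rep t
  have a := evAn_comp hg' hg h.tendsto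
  rw [sgP_eq hg' h', compHomP_mkPos hg' h a, sgP_eq a (h'.mul h)]

/-- Composition with `s`, as an algebra automorphism. -/
def compEquivP (s : PG) : posRing ≃ₐ[ℝ] posRing :=
  AlgEquiv.ofAlgHom (compHomP s) (compHomP s⁻¹)
    (by ext1 φ; rw [AlgHom.comp_apply, compHomP_compHomP, inv_mul_cancel, compHomP_one]; rfl)
    (by ext1 φ; rw [AlgHom.comp_apply, compHomP_compHomP, mul_inv_cancel, compHomP_one]; rfl)

/-- Composition with `s`, as an automorphism of the field. -/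
noncomputable def compFieldP (s : PG) : MerPos ≃ₐ[ℝ] MerPos :=
  IsFractionRing.algEquivOfAlgEquiv (compEquivP s)

/-- The element of `PG` as an element of the field. -/
noncomputable def sKP (s : PG) : MerPos := algebraMap posRing MerPos (sgP s)

theorem compFieldP_sKP (s t : PG) : compFieldP s (sKP t) = sKP (t * s) := by
  unfold compFieldP sKP
  rw [IsFractionRing.algEquivOfAlgEquiv_algebraMap]
  exact congrArg _ (compHomP_sgP s t)

/-- The field `ℝ(s)`. -/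
noncomputable def KP (s : PG) : IntermediateField ℝ MerPos := IntermediateField.adjoin ℝ {sKP s}

theorem KP_map (s t : PG) : (KP t).map (compFieldP s : MerPos →ₐ[ℝ] MerPos) = KP (t * s) := by
  unfold KP
  rw [IntermediateField.adjoin_map, Set.image_singleton]
  exact congrArg (fun z => IntermediateField.adjoin ℝ {z}) (compFieldP_sKP s t)

end Run7.h21
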