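import Mathlib
import Pool.Agent.Run7.h21.PosGerm
import Pool.Agent.Run7.h21.AlgPair

/-!
# Algebraic one-sided germs and the degree ratio homomorphism
-/

namespace Run7.h21

open Filter Topology Polynomial IntermediateField
open scoped Polynomial.Bivariate

section Pair

variable {F E : Type*} [Field F] [Field E] [Algebra F E]

theorem com_of_rel {x y : E} (hx : Transcendental F x) (hy : Transcendental F y) {P : F[X][Y]}
    (hP : P ≠ 0) (h0 : aevalAeval x y P = 0) :
    Com (adjoin F ({x} : Set E)) (adjoin F ({y} : Set E)) := by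
  constructor
  · rw [relfinrank_adjoin_ne_zero_iff, isAlgebraic_adjoin_iff x y hx]
    exact ⟨P, hP, h0⟩
  · rw [sup_comm, relfinrank_adjoin_ne_zero_iff, isAlgebraic_adjoin_iff y x hy]
    refine ⟨Bivariate.swap P, ?_, ?_⟩
    · rwa [Ne, EmbeddingLike.map_eq_zero_iff]
    · rw [Bivariate.aevalAeval_swap]
      exact h0

theorem rel_of_com {x y : E} (hx : Transcendental F x)
    (h : Com (adjoin F ({x} : Set E)) (adjoin F ({y} : Set E))) :
    ∃ P : F[X][Y], P ≠ 0 ∧ aevalAeval x y P = 0 := by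
  have h1 := h.1
  rwa [relfinrank_adjoin_ne_zero_iff, isAlgebraic_adjoin_iff x y hx] at h1

theorem ratio_of_irreducible {x y : E} (hx : Transcendental F x) (hy : Transcendental F y)
    {P : F[X][Y]} (hP : Irreducible P) (h0 : aevalAeval x y P = 0) :
    ratio (adjoin F ({x} : Set E)) (adjoin F ({y} : Set E)) =
      ((Bivariate.swap P).natDegree : ℝ) / (P.natDegree : ℝ) ∧
      P.natDegree ≠ 0 ∧ (Bivariate.swap P).natDegree ≠ 0 := by
  have h0' : aevalAeval y x (Bivariate.swap P) = 0 := by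
    rw [Bivariate.aevalAeval_swap]
    exact h0
  have hP' : Irreducible (Bivariate.swap P) := by
    rw [MulEquiv.irreducible_iff]
    exact hP
  refine ⟨?_, natDegree_ne_zero_of_aevalAeval hx hP.ne_zero h0,
    natDegree_ne_zero_of_aevalAeval hy hP'.ne_zero h0'⟩
  unfold ratio
  rw [relfinrank_adjoin_eq, finrank_adjoin_eq hx hP h0, sup_comm, relfinrank_adjoin_eq,
    finrank_adjoin_eq hy hP' h0']

theorem adjoin_units_smul (c : ℤˣ) (y : E) :
    adjoin F ({((c : ℤ) : E) * y} : Set E) = adjoin F ({y} : Set E) := by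
  rcases Int.units_eq_one_or c with rfl | rfl
  · simp
  · apply le_antisymm
    · rw [adjoin_simple_le_iff]
      simpa using mem_adjoin_simple_self F y
    · rw [adjoin_simple_le_iff]
      have h := neg_mem (mem_adjoin_simple_self F (-y))
      simpa using h

end Pair

/-- Evaluation of bivariate polynomials along two functions, as germs at `0+`. -/
noncomputable def evP (f g : ℝ → ℝ) : ℝ[X][Y] →+* Germ (𝓝[>] (0 : ℝ)) ℝ where
  toFun P := ((fun x => P.evalEval (f x) (g x) : ℝ → ℝ) : Germ (𝓝[>] (0 : ℝ)) ℝ)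
  map_one' := by simp only [evalEval_one]; rfl
  map_mul' P Q := by simp only [evalEval_mul]; rfl
  map_zero' := by simp only [evalEval_zero]; rfl
  map_add' P Q := by simp only [evalEval_add]; rfl

theorem evP_apply (f g : ℝ → ℝ) (P : ℝ[X][Y]) :
    evP f g P = ((fun x => P.evalEval (f x) (g x) : ℝ → ℝ) : Germ (𝓝[>] (0 : ℝ)) ℝ) := rfl

theorem coe_aevalAeval_mkPos {f g : ℝ → ℝ} (hf : EvAn f) (hg : EvAn g) (P : ℝ[X][Y]) :
    ((aevalAeval (mkPos f hf) (mkPos g hg) P : posRing) : Germ (𝓝[>] (0 : ℝ)) ℝ) =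
      evP f g P := by
  have : posRing.subtype.comp ((aevalAeval (mkPos f hf) (mkPos g hg) : ℝ[X][Y] →ₐ[ℝ] posRing) :
      ℝ[X][Y] →+* posRing) = evP f g := by
    apply Polynomial.ringHom_ext'
    · apply Polynomial.ringHom_ext'
      · ext1 c
        simp only [RingHom.comp_apply, RingHom.coe_coe]
        rw [aevalAeval_C, aeval_C, evP_apply]
        simp only [evalEval_C, eval_C]
        rfl
      · simp only [RingHom.comp_apply, RingHom.coe_coe]
        rw [aevalAeval_X, evP_apply]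
        simp only [evalEval_C, eval_X]
        rfl
    · simp only [RingHom.comp_apply, RingHom.coe_coe]
      rw [aevalAeval_Y, evP_apply]
      simp only [evalEval_X]
      rfl
  exact congrArg (fun φ : ℝ[X][Y] →+* Germ (𝓝[>] (0 : ℝ)) ℝ => φ P) this

/-- The element of the field given by an eventually analytic function. -/
noncomputable def kap (f : ℝ → ℝ) (hf : EvAn f) : MerPos := algebraMap posRing MerPos (mkPos f hf)

theorem aevalAeval_kap {f g : ℝ → ℝ} (hf : EvAn f) (hg : EvAn g) (P : ℝ[X][Y]) :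
    aevalAeval (kap f hf) (kap g hg) P =
      algebraMap posRing MerPos (aevalAeval (mkPos f hf) (mkPos g hg) P) := by
  have : (aevalAeval (kap f hf) (kap g hg) : ℝ[X][Y] →ₐ[ℝ] MerPos) =
      (IsScalarTower.toAlgHom ℝ posRing MerPos).comp
        (aevalAeval (mkPos f hf) (mkPos g hg) : ℝ[X][Y] →ₐ[ℝ] posRing) := by
    apply (aevalAevalEquiv ℝ MerPos).symm.injective
    simp only [Equiv.symm_apply_apply]
    rw [aevalAevalEquiv_symm_apply]
    simp only [AlgHom.comp_apply]
    rw [aevalAeval_X, aevalAeval_Y]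
    rfl
  exact congrArg (fun φ : ℝ[X][Y] →ₐ[ℝ] MerPos => φ P) this

theorem aevalAeval_kap_eq_zero_iff {f g : ℝ → ℝ} (hf : EvAn f) (hg : EvAn g) (P : ℝ[X][Y]) :
    aevalAeval (kap f hf) (kap g hg) P = 0 ↔
      ∀ᶠ x in 𝓝[>] (0 : ℝ), P.evalEval (f x) (g x) = 0 := by
  rw [aevalAeval_kap, FaithfulSMul.algebraMap_eq_zero_iff, ← Subtype.coe_inj,
    coe_aevalAeval_mkPos hf hg, evP_apply]
  exact Filter.Germ.coe_eq

theorem sKP_eq_kap {s : PG} {f : ℝ → ℝ} (hf : EvAn f) (h : IsPos s f) : sKP s = kap f hf := by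
  unfold sKP kap
  rw [sgP_eq hf h]

theorem transcendental_sKP_one : Transcendental ℝ (sKP 1) := by
  rw [transcendental_iff]
  intro p hp
  have e : sKP 1 = kap (fun x => x) EvAn.id := sKP_eq_kap EvAn.id IsPos.one
  rw [e] at hp
  have h1 : aevalAeval (kap (fun x => x) EvAn.id) (kap (fun x => x) EvAn.id) (C p) = 0 := by
    rw [aevalAeval_C]; exact hp
  rw [aevalAeval_kap_eq_zero_iff] at h1
  by_contra hne
  have h2 : {x : ℝ | p.IsRoot x}.Finite := by
    have := p.roots.toFinset.finite_toSet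
    refine this.subset fun x hx => ?_
    simpa [hne] using hx
  obtain ⟨δ, hδ, hsub⟩ := mem_nhdsGT_iff_exists_Ioo_subset.1 h1
  have hδ : (0 : ℝ) < δ := hδ
  have h4 : Set.Ioo 0 δ ⊆ {x : ℝ | p.IsRoot x} := by
    intro x hx
    have : (C p : ℝ[X][Y]).evalEval x x = 0 := hsub hx
    rw [evalEval_C] at this
    exact this
  exact (Set.Ioo_infinite hδ) (h2.subset h4)

theorem transcendental_sKP (s : PG) : Transcendental ℝ (sKP s) := by
  have e : sKP s = compFieldP s (sKP 1) := by rw [compFieldP_sKP, one_mul]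
  rw [e]
  intro h
  apply transcendental_sKP_one
  have h2 := h.algHom ((compFieldP s).symm : MerPos →ₐ[ℝ] MerPos)
  simpa using h2

theorem com_KP {t u : PG} (s : PG) (h : Com (KP t) (KP u)) :
    Com (KP (t * s)) (KP (u * s)) ∧ ratio (KP (t * s)) (KP (u * s)) = ratio (KP t) (KP u) := by
  rw [← KP_map s t, ← KP_map s u]
  exact com_map _ h

/-- The logarithm of the degree ratio. -/
noncomputable def logP (s : PG) : ℝ := Real.log (ratio (KP 1) (KP s))

theorem com_mul {s t : PG} (hs : Com (KP 1) (KP s)) (ht : Com (KP 1) (KP t)) :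
    Com (KP 1) (KP (s * t)) ∧ logP (s * t) = logP s + logP t := by
  obtain ⟨h1, h2⟩ := com_KP t hs
  rw [one_mul] at h1 h2
  obtain ⟨h3, h4⟩ := Com.trans ht h1
  refine ⟨h3, ?_⟩
  unfold logP
  rw [h4, h2, Real.log_mul (ratio_pos ht).ne' (ratio_pos hs).ne', add_comm]

end Run7.h21
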