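import Mathlib
import Pool.Agent.Run7.h21.Defs
import Pool.Agent.Run7.h21.Obstruction
import Pool.Agent.Run7.h21.PosNash
import Pool.Agent.Run7.h21.AlgCont

/-!
# The two one-sided germs of an element of `𝒢^r`
-/

namespace Run7.h21

open Filter Topology Polynomial IntermediateField
open scoped Polynomial.Bivariate

variable {r : WithTop ℕ∞}

theorem IsGermOf.zero_eq {s : G r} {f : ℝ → ℝ} (hf : IsGermOf s f) : f 0 = 0 := by
  have h1 : Tendsto f (pure 0) (𝓝 0) := hf.tendsto.mono_left (pure_le_nhds 0)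
  have h2 : Tendsto f (pure 0) (pure (f 0)) := tendsto_pure_pure f 0
  have h3 : (pure (f 0) : Filter ℝ) ≤ 𝓝 0 := by
    have : Filter.map f (pure 0) = pure (f 0) := Filter.map_pure f 0
    rw [Tendsto, this] at h1
    exact h1
  exact (pure_le_nhds_iff.1 h3)

theorem IsGermOf.eventually_continuousAt {s : G r} {f : ℝ → ℝ} (hf : IsGermOf s f) :
    ∀ᶠ x in 𝓝 (0 : ℝ), ContinuousAt f x := by
  obtain ⟨g, hg, hgr⟩ := s.2.1
  have h1 : g =ᶠ[𝓝 0] f := IsGermOf.eventuallyEq (s := s) hg hf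
  have h2 : ∀ᶠ x in 𝓝 (0 : ℝ), g =ᶠ[𝓝 x] f := eventually_eventually_nhds.2 h1
  filter_upwards [h2, hgr] with x hx hgx
  exact hgx.continuousAt.congr hx

theorem IsGermOf.eventually_comp_inv {s : G r} {f φ : ℝ → ℝ} (hf : IsGermOf s f)
    (hφ : IsGermOf s⁻¹ φ) : ∀ᶠ y in 𝓝 (0 : ℝ), f (φ y) = y := by
  have h := hf.mul hφ
  rw [mul_inv_cancel] at h
  exact IsGermOf.eventuallyEq h (IsGermOf.one _)

theorem exists_germ_rep (s : G r) : ∃ f : ℝ → ℝ, IsGermOf s f := by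
  obtain ⟨g, hg, -⟩ := s.2.1
  exact ⟨g, hg⟩

theorem IsGermOf.exists_mono {s : G r} {f : ℝ → ℝ} (hf : IsGermOf s f) :
    ∃ δ : ℝ, 0 < δ ∧ (StrictMonoOn f (Set.Ioo (-δ) δ) ∨ StrictAntiOn f (Set.Ioo (-δ) δ)) := by
  obtain ⟨φ, hφ⟩ := exists_germ_rep s⁻¹
  have h1 : ∀ᶠ y in 𝓝 (0 : ℝ), φ (f y) = y := by
    have := hφ.eventually_comp_inv (φ := f) (by rwa [inv_inv])
    exact this
  obtain ⟨δ, hδ, hsub⟩ := Metric.eventually_nhds_iff.1 (h1.and hf.eventually_continuousAt)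
  have hsub' : ∀ x ∈ Set.Ioo (-δ) δ, φ (f x) = x ∧ ContinuousAt f x := by
    intro x hx
    apply hsub
    rw [Real.dist_eq, sub_zero, abs_lt]
    exact hx
  refine ⟨δ, hδ, ContinuousOn.strictMonoOn_of_injOn_Ioo (by linarith) ?_ ?_⟩
  · intro x hx
    exact (hsub' x hx).2.continuousWithinAt
  · intro x hx y hy hxy
    rw [← (hsub' x hx).1, ← (hsub' y hy).1, hxy]

open Classical in
/-- The orientation character. -/
noncomputable def sgn (s : G r) : ℤˣ :=
  if ∃ δ : ℝ, 0 < δ ∧ StrictMonoOn (exists_germ_rep s).choose (Set.Ioo (-δ) δ) then 1 else -1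

theorem sgn_spec {s : G r} {f : ℝ → ℝ} (hf : IsGermOf s f) (σ : ℤˣ) :
    ∀ᶠ x in 𝓝[>] (0 : ℝ), 0 < ((sgn s : ℤ) : ℝ) * ((σ : ℤ) : ℝ) * f (((σ : ℤ) : ℝ) * x) := by
  have hrep := (exists_germ_rep s).choose_spec
  have h0 : (exists_germ_rep s).choose 0 = 0 := hrep.zero_eq
  have heq : ∀ᶠ x in 𝓝[>] (0 : ℝ), (exists_germ_rep s).choose (((σ : ℤ) : ℝ) * x) =
      f (((σ : ℤ) : ℝ) * x) := by
    have h1 := hrep.eventuallyEq hf
    have h2 : Tendsto (fun x : ℝ => ((σ : ℤ) : ℝ) * x) (𝓝[>] 0) (𝓝 0) := by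
      have : Tendsto (fun x : ℝ => ((σ : ℤ) : ℝ) * x) (𝓝 0) (𝓝 (((σ : ℤ) : ℝ) * 0)) :=
        (continuous_const.mul continuous_id).tendsto 0
      rw [mul_zero] at this
      exact this.mono_left nhdsWithin_le_nhds
    exact h2.eventually h1
  set F := (exists_germ_rep s).choose with hF
  by_cases hmono : ∃ δ : ℝ, 0 < δ ∧ StrictMonoOn F (Set.Ioo (-δ) δ)
  · have hs : sgn s = 1 := by
      unfold sgn
      rw [if_pos hmono]
    obtain ⟨δ, hδ, hm⟩ := hmono
    filter_upwards [heq, Ioo_mem_nhdsGT hδ] with x hx hx2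
    rw [← hx, hs]
    rcases Int.units_eq_one_or σ with rfl | rfl
    · simp only [Units.val_one, Int.cast_one, one_mul]
      have := hm (by constructor <;> linarith) (⟨by linarith [hx2.1], hx2.2⟩ : x ∈ Set.Ioo (-δ) δ)
        hx2.1
      rwa [h0] at this
    · simp only [Units.val_one, Int.cast_one, one_mul, Units.val_neg, Int.cast_neg, neg_mul]
      have := hm (⟨by linarith [hx2.2], by linarith [hx2.1]⟩ : -x ∈ Set.Ioo (-δ) δ)
        (by constructor <;> linarith) (by linarith [hx2.1] : -x < 0)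
      rw [h0] at this
      linarith
  · have hs : sgn s = -1 := by
      unfold sgn
      rw [if_neg hmono]
    obtain ⟨δ, hδ, hm⟩ := hrep.exists_mono
    have hm' : StrictAntiOn F (Set.Ioo (-δ) δ) := by
      rcases hm with hm | hm
      · exact absurd ⟨δ, hδ, hm⟩ hmono
      · exact hm
    filter_upwards [heq, Ioo_mem_nhdsGT hδ] with x hx hx2
    rw [← hx, hs]
    rcases Int.units_eq_one_or σ with rfl | rfl
    · simp only [Units.val_one, Int.cast_one, one_mul, mul_one, Units.val_neg, Int.cast_neg,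
        neg_mul]
      have := hm' (by constructor <;> linarith) (⟨by linarith [hx2.1], hx2.2⟩ : x ∈ Set.Ioo (-δ) δ)
        hx2.1
      rw [h0] at this
      linarith
    · simp only [Units.val_one, Int.cast_one, one_mul, Units.val_neg, Int.cast_neg, neg_mul,
        mul_neg, neg_neg]
      have := hm' (⟨by linarith [hx2.2], by linarith [hx2.1]⟩ : -x ∈ Set.Ioo (-δ) δ)
        (by constructor <;> linarith) (by linarith [hx2.1] : -x < 0)
      rwa [h0] at this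

theorem sgn_unique {s : G r} {f : ℝ → ℝ} (hf : IsGermOf s f) {ε : ℤˣ}
    (h : ∀ᶠ x in 𝓝[>] (0 : ℝ), 0 < ((ε : ℤ) : ℝ) * f x) : sgn s = ε := by
  obtain ⟨x, hx1, hx2⟩ := (h.and (sgn_spec hf 1)).exists
  simp only [Units.val_one, Int.cast_one, one_mul, mul_one] at hx2
  rcases Int.units_eq_one_or ε with rfl | rfl <;>
    rcases Int.units_eq_one_or (sgn s) with h1 | h1 <;> rw [h1] at hx2 ⊢ <;>
    simp at hx1 hx2 <;> linarith

theorem units_sq (σ : ℤˣ) : ((σ : ℤ) : ℝ) * ((σ : ℤ) : ℝ) = 1 := by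
  rcases Int.units_eq_one_or σ with rfl | rfl <;> simp

theorem side_tendsto {s : G r} {f : ℝ → ℝ} (hf : IsGermOf s f) (σ : ℤˣ) :
    Tendsto (fun x : ℝ => ((sgn s : ℤ) : ℝ) * ((σ : ℤ) : ℝ) * f (((σ : ℤ) : ℝ) * x))
      (𝓝[>] 0) (𝓝[>] 0) := by
  rw [tendsto_nhdsWithin_iff]
  refine ⟨?_, sgn_spec hf σ⟩
  have h2 : Tendsto (fun x : ℝ => ((σ : ℤ) : ℝ) * x) (𝓝[>] 0) (𝓝 0) := by
    have : Tendsto (fun x : ℝ => ((σ : ℤ) : ℝ) * x) (𝓝 0) (𝓝 (((σ : ℤ) : ℝ) * 0)) :=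
      (continuous_const.mul continuous_id).tendsto 0
    rw [mul_zero] at this
    exact this.mono_left nhdsWithin_le_nhds
  have h3 := (hf.tendsto.comp h2).const_mul (((sgn s : ℤ) : ℝ) * ((σ : ℤ) : ℝ))
  rw [mul_zero] at h3
  exact h3

theorem sgn_mul (s t : G r) : sgn (s * t) = sgn s * sgn t := by
  obtain ⟨f, hf⟩ := exists_germ_rep s
  obtain ⟨g, hg⟩ := exists_germ_rep t
  apply sgn_unique (hf.mul hg)
  have h1 := side_tendsto hg 1
  have h2 := h1.eventually (sgn_spec hf (sgn t))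
  filter_upwards [h2] with x hx
  simp only [Units.val_one, Int.cast_one, one_mul, mul_one] at hx
  rw [← mul_assoc, units_sq, one_mul] at hx
  push_cast
  exact hx

theorem sgn_one : sgn (1 : G r) = 1 := by
  have := sgn_mul (1 : G r) 1
  rw [mul_one] at this
  exact (mul_eq_left.1 this.symm)

theorem sgn_inv_mul (s : G r) : sgn s⁻¹ * sgn s = 1 := by
  rw [← sgn_mul, inv_mul_cancel, sgn_one]

/-- The one-sided germs of an element of `𝒢^r`. -/
noncomputable def sideG (s : G r) (σ : ℤˣ) : PosGerm :=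
  PosGerm.of _ (side_tendsto (exists_germ_rep s).choose_spec σ)

theorem sideG_eq {s : G r} {f : ℝ → ℝ} (hf : IsGermOf s f) (σ : ℤˣ) :
    sideG s σ = PosGerm.of _ (side_tendsto hf σ) := by
  unfold sideG
  rw [PosGerm.of_eq_of]
  have h1 := (exists_germ_rep s).choose_spec.eventuallyEq hf
  have h2 : Tendsto (fun x : ℝ => ((σ : ℤ) : ℝ) * x) (𝓝[>] 0) (𝓝 0) := by
    have : Tendsto (fun x : ℝ => ((σ : ℤ) : ℝ) * x) (𝓝 0) (𝓝 (((σ : ℤ) : ℝ) * 0)) :=
      (continuous_const.mul continuous_id).tendsto 0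
    rw [mul_zero] at this
    exact this.mono_left nhdsWithin_le_nhds
  filter_upwards [h2.eventually h1] with x hx
  rw [hx]

theorem sideG_mul (s t : G r) (σ : ℤˣ) :
    sideG (s * t) σ = sideG s (sgn t * σ) * sideG t σ := by
  obtain ⟨f, hf⟩ := exists_germ_rep s
  obtain ⟨g, hg⟩ := exists_germ_rep t
  rw [sideG_eq hf, sideG_eq hg, sideG_eq (hf.mul hg), PosGerm.of_mul_of, PosGerm.of_eq_of]
  refine Eventually.of_forall fun x => ?_
  simp only [Function.comp_apply, sgn_mul]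
  have e : (((sgn t * σ : ℤˣ) : ℤ) : ℝ) *
      (((sgn t : ℤ) : ℝ) * ((σ : ℤ) : ℝ) * g (((σ : ℤ) : ℝ) * x)) = g (((σ : ℤ) : ℝ) * x) := by
    have h1 := units_sq (sgn t)
    have h2 := units_sq σ
    push_cast
    calc _ = (((sgn t : ℤ) : ℝ) * ((sgn t : ℤ) : ℝ)) * (((σ : ℤ) : ℝ) * ((σ : ℤ) : ℝ)) *
        g (((σ : ℤ) : ℝ) * x) := by ring
      _ = _ := by rw [h1, h2, one_mul, one_mul]
  rw [e]
  push_cast
  ring

theorem sideG_one (σ : ℤˣ) : sideG (1 : G r) σ = 1 := by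
  rw [sideG_eq (IsGermOf.one r), PosGerm.one_def, PosGerm.of_eq_of]
  refine Eventually.of_forall fun x => ?_
  simp only [sgn_one, Units.val_one, Int.cast_one, one_mul, id]
  rw [← mul_assoc, units_sq, one_mul]

/-- The one-sided germs as units. -/
noncomputable def sideU (s : G r) (σ : ℤˣ) : PosGermˣ where
  val := sideG s σ
  inv := sideG s⁻¹ (sgn s * σ)
  val_inv := by
    have h := sideG_mul s s⁻¹ (sgn s * σ)
    rw [← mul_assoc, sgn_inv_mul, one_mul, mul_inv_cancel, sideG_one] at h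
    exact h.symm
  inv_val := by
    have h := sideG_mul s⁻¹ s σ
    rw [inv_mul_cancel, sideG_one] at h
    exact h.symm

theorem sideU_mul (s t : G r) (σ : ℤˣ) :
    sideU (s * t) σ = sideU s (sgn t * σ) * sideU t σ := Units.ext (sideG_mul s t σ)

/-- An element of `𝒢^r` is algebraic when some nonzero real polynomial in two variables vanishes
on its graph near the origin. -/
def IsAlgebraicGerm (s : G r) : Prop :=
  ∃ P : ℝ[X][Y], P ≠ 0 ∧ ∃ f : ℝ → ℝ, IsGermOf s f ∧ ∀ᶠ x in 𝓝 (0 : ℝ), P.evalEval x (f x) = 0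

theorem evalEval_swap' (P : ℝ[X][Y]) (x y : ℝ) :
    (Bivariate.swap P).evalEval x y = P.evalEval y x := by
  rw [← coe_aevalAeval_eq_evalEval, ← coe_aevalAeval_eq_evalEval]
  exact Bivariate.aevalAeval_swap x y P

theorem IsAlgebraicGerm.inv {s : G r} (h : IsAlgebraicGerm s) : IsAlgebraicGerm s⁻¹ := by
  obtain ⟨P, hP, f, hf, h⟩ := h
  obtain ⟨φ, hφ⟩ := exists_germ_rep s⁻¹
  refine ⟨Bivariate.swap P, ?_, φ, hφ, ?_⟩
  · rwa [Ne, EmbeddingLike.map_eq_zero_iff]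
  · filter_upwards [hφ.tendsto.eventually h, hf.eventually_comp_inv hφ] with y hy1 hy2
    rw [evalEval_swap']
    rw [hy2] at hy1
    exact hy1

theorem IsAlgebraicGerm.exists_rel {s : G r} (h : IsAlgebraicGerm s) {f : ℝ → ℝ}
    (hf : IsGermOf s f) : ∃ P : ℝ[X][Y], P ≠ 0 ∧ ∀ᶠ x in 𝓝 (0 : ℝ), P.evalEval x (f x) = 0 := by
  obtain ⟨P, hP, g, hg, h⟩ := h
  refine ⟨P, hP, ?_⟩
  filter_upwards [h, hg.eventuallyEq hf] with x hx1 hx2
  rw [← hx2]
  exact hx1

theorem tendsto_units_mul (σ : ℤˣ) :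
    Tendsto (fun x : ℝ => ((σ : ℤ) : ℝ) * x) (𝓝[>] 0) (𝓝[≠] 0) := by
  rw [tendsto_nhdsWithin_iff]
  constructor
  · have : Tendsto (fun x : ℝ => ((σ : ℤ) : ℝ) * x) (𝓝 0) (𝓝 (((σ : ℤ) : ℝ) * 0)) :=
      (continuous_const.mul continuous_id).tendsto 0
    rw [mul_zero] at this
    exact this.mono_left nhdsWithin_le_nhds
  · filter_upwards [self_mem_nhdsWithin] with x hx
    have hx : (0 : ℝ) < x := hx
    rcases Int.units_eq_one_or σ with rfl | rfl <;> simp [hx.ne']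

theorem IsAlgebraicGerm.eventually_analyticAt {s : G r} (h : IsAlgebraicGerm s) {f : ℝ → ℝ}
    (hf : IsGermOf s f) : ∀ᶠ x in 𝓝[≠] (0 : ℝ), AnalyticAt ℝ f x := by
  obtain ⟨P, hP, h⟩ := h.exists_rel hf
  exact Run7.h21.eventually_analyticAt hP
    (hf.eventually_continuousAt.filter_mono nhdsWithin_le_nhds)
    (h.filter_mono nhdsWithin_le_nhds)

theorem evAn_units_mul (σ : ℤˣ) : EvAn (fun x : ℝ => ((σ : ℤ) : ℝ) * x) :=
  (EvAn.const _).mul EvAn.id

theorem IsAlgebraicGerm.evAn {s : G r} (h : IsAlgebraicGerm s) {f : ℝ → ℝ}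
    (hf : IsGermOf s f) (σ : ℤˣ) : EvAn (fun x : ℝ => f (((σ : ℤ) : ℝ) * x)) := by
  have h1 := (tendsto_units_mul σ).eventually (h.eventually_analyticAt hf)
  filter_upwards [h1] with x hx
  have h2 : AnalyticAt ℝ (fun x : ℝ => ((σ : ℤ) : ℝ) * x) x :=
    analyticAt_const.mul analyticAt_id
  exact AnalyticAt.comp (f := fun x : ℝ => ((σ : ℤ) : ℝ) * x) hx h2

theorem IsAlgebraicGerm.isAn {s : G r} (h : IsAlgebraicGerm s) (σ : ℤˣ) : (sideG s σ).IsAn := by
  obtain ⟨f, hf⟩ := exists_germ_rep s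
  rw [sideG_eq hf, PosGerm.isAn_of]
  exact (EvAn.const _).mul (h.evAn hf σ)

/-- The one-sided germs of an algebraic element, as elements of `PG`. -/
noncomputable def sideP (s : G r) (h : IsAlgebraicGerm s) (σ : ℤˣ) : PG :=
  ⟨sideU s σ, h.isAn σ, h.inv.isAn (sgn s * σ)⟩

theorem isPos_sideP {s : G r} (h : IsAlgebraicGerm s) {f : ℝ → ℝ} (hf : IsGermOf s f) (σ : ℤˣ) :
    IsPos (sideP s h σ)
      (fun x => ((sgn s : ℤ) : ℝ) * ((σ : ℤ) : ℝ) * f (((σ : ℤ) : ℝ) * x)) := by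
  show (sideG s σ).germ = _
  rw [sideG_eq hf]
  rfl

theorem kap_mul_const (c : ℝ) {f : ℝ → ℝ} (hf : EvAn f) (hcf : EvAn (fun x => c * f x)) :
    kap (fun x => c * f x) hcf = algebraMap ℝ MerPos c * kap f hf := by
  unfold kap
  rw [IsScalarTower.algebraMap_apply ℝ posRing MerPos, ← map_mul, algebraMap_posRing, mkPos_mul]

/-- The field generated by `f(σ x)` is the field of the one-sided germ. -/
theorem adjoin_kap_side {u : PG} {f : ℝ → ℝ} {c σ : ℤˣ}
    (hu : IsPos u (fun x => ((c : ℤ) : ℝ) * ((σ : ℤ) : ℝ) * f (((σ : ℤ) : ℝ) * x)))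
    (hf : EvAn (fun x : ℝ => f (((σ : ℤ) : ℝ) * x))) :
    adjoin ℝ ({kap _ hf} : Set MerPos) = KP u ∧ Transcendental ℝ (kap _ hf) := by
  have e : kap _ hf = (((c * σ : ℤˣ) : ℤ) : MerPos) * sKP u := by
    have h1 : EvAn (fun x => ((c : ℤ) : ℝ) * ((σ : ℤ) : ℝ) * f (((σ : ℤ) : ℝ) * x)) :=
      (EvAn.const _).mul hf
    rw [sKP_eq_kap h1 hu, kap_mul_const _ hf, ← mul_assoc]
    have h2 : ((((c * σ : ℤˣ) : ℤ) : MerPos) * algebraMap ℝ MerPos (((c : ℤ) : ℝ) * ((σ : ℤ) : ℝ)))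
        = 1 := by
      have h3 : (((c * σ : ℤˣ) : ℤ) : MerPos) =
          algebraMap ℝ MerPos (((c : ℤ) : ℝ) * ((σ : ℤ) : ℝ)) := by
        rw [map_mul, map_intCast, map_intCast]
        push_cast
        rfl
      rw [h3, ← map_mul]
      have h4 : ((c : ℤ) : ℝ) * ((σ : ℤ) : ℝ) * (((c : ℤ) : ℝ) * ((σ : ℤ) : ℝ)) = 1 := by
        have h5 := units_sq c
        have h6 := units_sq σ
        calc _ = (((c : ℤ) : ℝ) * ((c : ℤ) : ℝ)) * (((σ : ℤ) : ℝ) * ((σ : ℤ) : ℝ)) := by ring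
          _ = 1 := by rw [h5, h6, one_mul]
      rw [h4, map_one]
    rw [h2, one_mul]
  constructor
  · rw [e, adjoin_units_smul]
    rfl
  · rw [e]
    have h1 := transcendental_sKP u
    intro h2
    apply h1
    have h3 : sKP u = (((c * σ : ℤˣ) : ℤ) : MerPos) * ((((c * σ : ℤˣ) : ℤ) : MerPos) * sKP u) := by
      rcases Int.units_eq_one_or (c * σ) with h | h <;> rw [h] <;> simp
    rw [h3]
    exact (isAlgebraic_intCast _).mul h2

theorem adjoin_kap_units (σ : ℤˣ) :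
    adjoin ℝ ({kap _ (evAn_units_mul σ)} : Set MerPos) = KP 1 ∧
      Transcendental ℝ (kap _ (evAn_units_mul σ)) := by
  have h : IsPos 1 (fun x => ((1 : ℤˣ) : ℤ) * ((σ : ℤ) : ℝ) *
      (fun y : ℝ => y) (((σ : ℤ) : ℝ) * x)) := by
    refine IsPos.one.congr (Eventually.of_forall fun x => ?_)
    simp only [Units.val_one, Int.cast_one, one_mul]
    rw [← mul_assoc, units_sq, one_mul]
  exact adjoin_kap_side (f := fun y : ℝ => y) h (evAn_units_mul σ)

/-- The one-sided germs of an algebraic germ are algebraic. -/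
theorem com_side {s : G r} (h : IsAlgebraicGerm s) (σ : ℤˣ) :
    Com (KP 1) (KP (sideP s h σ)) := by
  obtain ⟨f, hf⟩ := exists_germ_rep s
  obtain ⟨P, hP, hr⟩ := h.exists_rel hf
  obtain ⟨h1, h2⟩ := adjoin_kap_units σ
  obtain ⟨h3, h4⟩ := adjoin_kap_side (isPos_sideP h hf σ) (h.evAn hf σ)
  rw [← h1, ← h3]
  refine com_of_rel h2 h4 hP ?_
  rw [aevalAeval_kap_eq_zero_iff]
  have h5 : Tendsto (fun x : ℝ => ((σ : ℤ) : ℝ) * x) (𝓝[>] 0) (𝓝 0) :=
    (tendsto_units_mul σ).mono_right nhdsWithin_le_nhds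
  exact h5.eventually hr

/-- Conversely, a germ with algebraic one-sided germs is algebraic. -/
theorem isAlgebraicGerm_of_com {s : G r} (u : ℤˣ → PG)
    (hu : ∀ σ, ((u σ : PG) : PosGermˣ) = sideU s σ) (hc : ∀ σ, Com (KP 1) (KP (u σ))) :
    IsAlgebraicGerm s := by
  obtain ⟨f, hf⟩ := exists_germ_rep s
  have key : ∀ σ : ℤˣ, ∃ P : ℝ[X][Y], P ≠ 0 ∧ ∀ᶠ x in 𝓝[>] (0 : ℝ),
      P.evalEval (((σ : ℤ) : ℝ) * x) (f (((σ : ℤ) : ℝ) * x)) = 0 := by
    intro σ
    have hpos : IsPos (u σ)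
        (fun x => ((sgn s : ℤ) : ℝ) * ((σ : ℤ) : ℝ) * f (((σ : ℤ) : ℝ) * x)) := by
      unfold IsPos
      rw [hu]
      show (sideG s σ).germ = _
      rw [sideG_eq hf]
      rfl
    have han : EvAn (fun x : ℝ => f (((σ : ℤ) : ℝ) * x)) := by
      obtain ⟨g, hg, hg'⟩ := exists_pos_rep (u σ)
      have h1 := analytic_congr (hg'.eventuallyEq hpos) hg
      have h2 := EvAn.mul (EvAn.const (((sgn s : ℤ) : ℝ) * ((σ : ℤ) : ℝ))) h1
      refine analytic_congr (Eventually.of_forall fun x => ?_) h2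
      have h5 := units_sq (sgn s)
      have h6 := units_sq σ
      show ((sgn s : ℤ) : ℝ) * ((σ : ℤ) : ℝ) * (((sgn s : ℤ) : ℝ) * ((σ : ℤ) : ℝ) *
        f (((σ : ℤ) : ℝ) * x)) = _
      calc _ = (((sgn s : ℤ) : ℝ) * ((sgn s : ℤ) : ℝ)) * (((σ : ℤ) : ℝ) * ((σ : ℤ) : ℝ)) *
          f (((σ : ℤ) : ℝ) * x) := by ring
        _ = _ := by rw [h5, h6, one_mul, one_mul]
    obtain ⟨h1, h2⟩ := adjoin_kap_units σ
    obtain ⟨h3, h4⟩ := adjoin_kap_side hpos han
    have h5 := hc σ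
    rw [← h1, ← h3] at h5
    obtain ⟨P, hP, h6⟩ := rel_of_com h2 h5
    exact ⟨P, hP, (aevalAeval_kap_eq_zero_iff _ _ _).1 h6⟩
  obtain ⟨P₁, hP₁, h₁⟩ := key 1
  obtain ⟨P₂, hP₂, h₂⟩ := key (-1)
  refine ⟨C X * P₁ * P₂, ?_, f, hf, ?_⟩
  · refine mul_ne_zero (mul_ne_zero ?_ hP₁) hP₂
    rw [Ne, C_eq_zero]
    exact X_ne_zero
  · simp only [Units.val_one, Int.cast_one, one_mul] at h₁
    simp only [Units.val_neg, Units.val_one, Int.cast_neg, Int.cast_one, neg_mul, one_mul] at h₂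
    rw [eventually_nhdsWithin_iff] at h₁ h₂
    have h₂' : ∀ᶠ x in 𝓝 (0 : ℝ), -x ∈ Set.Ioi (0 : ℝ) → P₂.evalEval x (f x) = 0 := by
      have hneg : Tendsto (fun x : ℝ => -x) (𝓝 0) (𝓝 0) := by
        simpa using (continuous_neg (G := ℝ)).tendsto 0
      filter_upwards [hneg.eventually h₂] with x hx hx2
      have := hx hx2
      rwa [neg_neg] at this
    filter_upwards [h₁, h₂'] with x hx1 hx2
    rw [evalEval_mul, evalEval_mul, evalEval_C, eval_X]
    rcases lt_trichotomy x 0 with h | h | h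
    · rw [hx2 (by simpa using h), mul_zero]
    · rw [h]; simp
    · rw [hx1 h]; simp

variable (r) in
/-- The group, under composition, of the algebraic elements of `𝒢^r`. -/
def AlgG : Subgroup (G r) where
  carrier := {s | IsAlgebraicGerm s}
  mul_mem' := by
    intro s t hs ht
    refine isAlgebraicGerm_of_com
      (fun σ => sideP s hs (sgn t * σ) * sideP t ht σ) (fun σ => ?_) (fun σ => ?_)
    · rw [Subgroup.coe_mul]
      exact (sideU_mul s t σ).symm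
    · exact (com_mul (com_side hs _) (com_side ht _)).1
  one_mem' := by
    refine ⟨C X - Y, ?_, fun x => x, IsGermOf.one r, Eventually.of_forall fun x => ?_⟩
    · intro h
      have := congrArg (fun P : ℝ[X][Y] => P.evalEval 0 1) h
      simp [evalEval_C] at this
    · simp [evalEval_C]
  inv_mem' := by
    intro s hs
    exact IsAlgebraicGerm.inv hs

/-- The sum over the two sides of the logarithm of the degree ratio. -/
noncomputable def logSum (s : AlgG r) : ℝ := ∑ σ : ℤˣ, logP (sideP (s : G r) s.2 σ)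

theorem logSum_mul (s t : AlgG r) : logSum (s * t) = logSum s + logSum t := by
  unfold logSum
  have h1 : ∀ σ : ℤˣ, logP (sideP ((s * t : AlgG r) : G r) (s * t).2 σ) =
      logP (sideP (s : G r) s.2 (sgn (t : G r) * σ)) + logP (sideP (t : G r) t.2 σ) := by
    intro σ
    rw [← (com_mul (com_side s.2 _) (com_side t.2 _)).2]
    congr 1
    apply Subtype.ext
    exact sideU_mul (s : G r) (t : G r) σ
  rw [Finset.sum_congr rfl fun σ _ => h1 σ, Finset.sum_add_distrib]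
  congr 1
  exact Equiv.sum_comp (Equiv.mulLeft (sgn (t : G r)))
    (fun σ => logP (sideP (s : G r) s.2 σ))

/-- The invariant of an algebraic germ in terms of its irreducible polynomial. -/
theorem logSum_eq {s : AlgG r} {f : ℝ → ℝ} (hf : IsGermOf (s : G r) f) {P : ℝ[X][Y]}
    (hP : Irreducible P) (h : ∀ᶠ x in 𝓝 (0 : ℝ), P.evalEval x (f x) = 0) :
    logSum s = 2 * Real.log (((Bivariate.swap P).natDegree : ℝ) / (P.natDegree : ℝ)) ∧
      P.natDegree ≠ 0 ∧ (Bivariate.swap P).natDegree ≠ 0 := by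
  have key : ∀ σ : ℤˣ, ratio (KP 1) (KP (sideP (s : G r) s.2 σ)) =
      ((Bivariate.swap P).natDegree : ℝ) / (P.natDegree : ℝ) ∧
      P.natDegree ≠ 0 ∧ (Bivariate.swap P).natDegree ≠ 0 := by
    intro σ
    obtain ⟨h1, h2⟩ := adjoin_kap_units σ
    have hs : IsAlgebraicGerm (s : G r) := s.2
    obtain ⟨h3, h4⟩ := adjoin_kap_side (isPos_sideP hs hf σ) (hs.evAn hf σ)
    have h5 : Tendsto (fun x : ℝ => ((σ : ℤ) : ℝ) * x) (𝓝[>] 0) (𝓝 0) :=
      (tendsto_units_mul σ).mono_right nhdsWithin_le_nhds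
    have h6 := ratio_of_irreducible h2 h4 hP
      ((aevalAeval_kap_eq_zero_iff _ _ _).2 (h5.eventually h))
    rw [h1, h3] at h6
    exact h6
  refine ⟨?_, (key 1).2⟩
  unfold logSum logP
  rw [Finset.sum_congr rfl fun σ _ => congrArg Real.log (key σ).1]
  rw [Finset.sum_const, nsmul_eq_mul]
  congr 1

end Run7.h21
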