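import Mathlib
import Pool.Agent.Run7.h21.Sides
import Pool.Agent.Run7.h21.HomUndist

/-!
# Distortion elements of the groups of algebraic germs
-/

namespace Run7.h21

open Filter Topology Polynomial IntermediateField
open scoped ContDiff Polynomial.Bivariate

variable {r : WithTop ℕ∞}

/-- An analytic function with `f 0 = 0` and `f'(0) ≠ 0` defines an element of `𝒢^r`. -/
theorem exists_germ_an (r : WithTop ℕ∞) {f : ℝ → ℝ} (hf : AnalyticAt ℝ f 0) (h0 : f 0 = 0)
    (h1 : deriv f 0 ≠ 0) : ∃ g : G r, IsGermOf g f := by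
  have hω : ContDiffAt ℝ ω f 0 := hf.contDiffAt
  have hr0 : (ω : WithTop ℕ∞) ≠ 0 := by simp
  have hd : HasFDerivAt f ((ContinuousLinearEquiv.unitsEquivAut ℝ (Units.mk0 _ h1) : ℝ ≃L[ℝ] ℝ) :
      ℝ →L[ℝ] ℝ) 0 := by
    exact (hω.differentiableAt hr0).hasDerivAt.hasFDerivAt_equiv h1
  have hs := hω.hasStrictFDerivAt' hd hr0
  let φ := hs.localInverse f _ 0
  have hφ0 : φ 0 = 0 := by
    have := hs.localInverse_apply_image
    rw [h0] at this
    exact this
  have hφ : ContDiffAt ℝ ω φ 0 := by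
    have := hω.to_localInverse hd hr0
    rw [h0] at this
    exact this
  have tf : Tendsto f (𝓝 0) (𝓝 0) := by
    have := hω.continuousAt.tendsto
    rwa [h0] at this
  have tφ : Tendsto φ (𝓝 0) (𝓝 0) := by
    have := hφ.continuousAt.tendsto
    rwa [hφ0] at this
  have e1 : ∀ᶠ x in 𝓝 (0 : ℝ), φ (f x) = x := hs.eventually_left_inverse
  have e2 : ∀ᶠ x in 𝓝 (0 : ℝ), f (φ x) = x := by
    have := hs.eventually_right_inverse
    rw [h0] at this
    exact this
  let u : FixGermˣ :=
    { val := FixGerm.of f tf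
      inv := FixGerm.of φ tφ
      val_inv := by
        rw [FixGerm.of_mul_of, FixGerm.one_def, FixGerm.of_eq_of]
        exact e2
      inv_val := by
        rw [FixGerm.of_mul_of, FixGerm.one_def, FixGerm.of_eq_of]
        exact e1 }
  refine ⟨⟨u, ?_, ?_⟩, rfl⟩
  · show (FixGerm.of f tf).IsCr r
    rw [FixGerm.isCr_of]
    filter_upwards [hf.eventually_analyticAt] with x hx
    exact hx.contDiffAt
  · show (FixGerm.of φ tφ).IsCr r
    rw [FixGerm.isCr_of]
    filter_upwards [hφ.analyticAt.eventually_analyticAt] with x hx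
    exact hx.contDiffAt

theorem IsGermOf.ext' {s t : G r} {f g : ℝ → ℝ} (hf : IsGermOf s f)
    (hg : IsGermOf t g) (h : f =ᶠ[𝓝 0] g) : s = t := by
  apply Subtype.ext
  apply Units.ext
  rw [hf.eq_of, hg.eq_of, FixGerm.of_eq_of]
  exact h

theorem IsGermOf.differentiableAt (hr : r ≠ 0) {s : G r} {f : ℝ → ℝ} (hf : IsGermOf s f) :
    DifferentiableAt ℝ f 0 := by
  obtain ⟨g, hg, hgr⟩ := s.2.1
  have h1 : g =ᶠ[𝓝 0] f := IsGermOf.eventuallyEq (s := s) hg hf
  exact (hgr.self_of_nhds.differentiableAt hr).congr_of_eventuallyEq h1.symm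

/-- The multiplier of an element of `𝒢^r`. -/
noncomputable def multG (s : G r) : ℝ := deriv (exists_germ_rep s).choose 0

theorem multG_eq {s : G r} {f : ℝ → ℝ} (hf : IsGermOf s f) : multG s = deriv f 0 :=
  ((exists_germ_rep s).choose_spec.eventuallyEq hf).deriv_eq

theorem multG_mul (hr : r ≠ 0) (s t : G r) : multG (s * t) = multG s * multG t := by
  obtain ⟨f, h⟩ := exists_germ_rep s
  obtain ⟨g, h'⟩ := exists_germ_rep t
  rw [multG_eq h, multG_eq h', multG_eq (h.mul h')]
  have h0 : g 0 = 0 := h'.zero_eq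
  have h1 : HasDerivAt f (deriv f 0) (g 0) := by
    rw [h0]
    exact (h.differentiableAt hr).hasDerivAt
  exact (h1.comp (0 : ℝ) (h'.differentiableAt hr).hasDerivAt).deriv

theorem multG_one : multG (1 : G r) = 1 := by
  rw [multG_eq (IsGermOf.one _)]
  exact deriv_id 0

theorem multG_ne_zero (hr : r ≠ 0) (s : G r) : multG s ≠ 0 := by
  intro h
  have := multG_mul hr s s⁻¹
  rw [mul_inv_cancel, multG_one, h, zero_mul] at this
  exact one_ne_zero this

variable (r) in
/-- The doubling map as an element of `𝒢^r`. -/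
noncomputable def dblG : G r :=
  ⟨{ val := FixGerm.of (fun x => 2 * x) (by
        have : Tendsto (fun x : ℝ => 2 * x) (𝓝 0) (𝓝 (2 * 0)) :=
          (continuous_const.mul continuous_id).tendsto 0
        rwa [mul_zero] at this)
     inv := FixGerm.of (fun x => x / 2) (by
        have : Tendsto (fun x : ℝ => x / 2) (𝓝 0) (𝓝 (0 / 2)) :=
          (continuous_id.div_const 2).tendsto 0
        rwa [zero_div] at this)
     val_inv := by
        rw [FixGerm.of_mul_of, FixGerm.one_def, FixGerm.of_eq_of]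
        refine Eventually.of_forall fun x => ?_
        simp only [Function.comp_apply, id]
        ring
     inv_val := by
        rw [FixGerm.of_mul_of, FixGerm.one_def, FixGerm.of_eq_of]
        refine Eventually.of_forall fun x => ?_
        simp only [Function.comp_apply, id]
        ring }, by
    constructor
    · show (FixGerm.of (fun x : ℝ => 2 * x) _).IsCr r
      rw [FixGerm.isCr_of]
      exact Eventually.of_forall fun x => contDiffAt_const.mul contDiffAt_id
    · show (FixGerm.of (fun x : ℝ => x / 2) _).IsCr r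
      rw [FixGerm.isCr_of]
      exact Eventually.of_forall fun x => contDiffAt_id.div_const 2⟩

theorem dblG_germ : IsGermOf (dblG r) (fun x => 2 * x) := rfl

theorem dblG_inv_germ : IsGermOf (dblG r)⁻¹ (fun x => x / 2) := rfl

theorem dblG_mem : dblG r ∈ AlgG r := by
  refine ⟨C (C (-2) * X) + Y, ?_, fun x => 2 * x, dblG_germ, Eventually.of_forall fun x => ?_⟩
  · intro h
    have := congrArg (fun P : ℝ[X][Y] => P.evalEval 0 1) h
    simp [evalEval_C] at this
  · simp [evalEval_C]

/-- An algebraic germ of the form `x / (1 + c x)` is distorted. -/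
theorem dist_moebius (g : AlgG r) (c : ℝ)
    (hf : IsGermOf (g : G r) (fun x => x / (1 + c * x))) : IsDistortionElement g := by
  apply isDistortionElement_of_conj (θ := (⟨dblG r, dblG_mem⟩ : AlgG r))
  apply Subtype.ext
  rw [Subgroup.coe_mul, Subgroup.coe_mul, Subgroup.coe_inv, Subgroup.coe_pow, pow_two]
  refine ((dblG_inv_germ.mul hf).mul dblG_germ).ext' (hf.mul hf) ?_
  have h1 : ∀ᶠ x in 𝓝 (0 : ℝ), 1 + c * x ≠ 0 := by
    have : ContinuousAt (fun x : ℝ => 1 + c * x) 0 := by fun_prop
    exact this.eventually_ne (by simp)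
  filter_upwards [h1] with x hx
  have h3 : 1 + c * (x / (1 + c * x)) = (1 + c * (2 * x)) / (1 + c * x) := by
    field_simp
    ring
  rw [h3, div_div_div_cancel_right₀ hx]
  ring

/-- An algebraic germ of the form `-x / (1 + c x)` is distorted. -/
theorem dist_moebius_neg (g : AlgG r) (c : ℝ)
    (hf : IsGermOf (g : G r) (fun x => -x / (1 + c * x))) : IsDistortionElement g := by
  apply isDistortionElement_of_sq
  apply Subtype.ext
  rw [Subgroup.coe_pow, pow_two, Subgroup.coe_one]
  refine (hf.mul hf).ext' (IsGermOf.one _) ?_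
  have h1 : ∀ᶠ x in 𝓝 (0 : ℝ), 1 + c * x ≠ 0 := by
    have : ContinuousAt (fun x : ℝ => 1 + c * x) 0 := by fun_prop
    exact this.eventually_ne (by simp)
  filter_upwards [h1] with x hx
  have h3 : 1 + c * (-x / (1 + c * x)) = 1 / (1 + c * x) := by
    field_simp
    ring
  rw [h3, neg_div, div_div_div_cancel_right₀ hx]
  ring

/-- The degree obstruction. -/
theorem natDegree_eq_of_distortion (g : AlgG r) (f : ℝ → ℝ) (hf : IsGermOf (g : G r) f)
    (P : ℝ[X][Y]) (hP : Irreducible P) (h : ∀ᶠ x in 𝓝 (0 : ℝ), P.evalEval x (f x) = 0)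
    (hg : IsDistortionElement g) : (Bivariate.swap P).natDegree = P.natDegree := by
  have h1 := hg.hom_eq_zero logSum logSum_mul
  obtain ⟨h2, h3, h4⟩ := logSum_eq hf hP h
  rw [h2] at h1
  have h3' : (0 : ℝ) < (P.natDegree : ℝ) := by exact_mod_cast Nat.pos_of_ne_zero h3
  have h4' : (0 : ℝ) < ((Bivariate.swap P).natDegree : ℝ) := by
    exact_mod_cast Nat.pos_of_ne_zero h4
  have h5 : Real.log (((Bivariate.swap P).natDegree : ℝ) / (P.natDegree : ℝ)) = 0 := by linarith
  have h6 : 0 < ((Bivariate.swap P).natDegree : ℝ) / (P.natDegree : ℝ) := div_pos h4' h3'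
  rw [Real.log_eq_zero] at h5
  rcases h5 with h5 | h5 | h5
  · linarith
  · rw [div_eq_one_iff_eq h3'.ne'] at h5
    exact_mod_cast h5
  · linarith

theorem abs_mult_eq_one_of_distortion (hr : r ≠ 0) (g : AlgG r) (f : ℝ → ℝ)
    (hf : IsGermOf (g : G r) f) (hg : IsDistortionElement g) : |deriv f 0| = 1 := by
  have h1 := hg.hom_eq_zero (fun s : AlgG r => Real.log |multG (s : G r)|) (by
    intro a b
    rw [Subgroup.coe_mul, multG_mul hr, abs_mul,
      Real.log_mul (abs_pos.2 (multG_ne_zero hr _)).ne' (abs_pos.2 (multG_ne_zero hr _)).ne'])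
  rw [Real.log_eq_zero] at h1
  have h2 : 0 < |multG (g : G r)| := abs_pos.2 (multG_ne_zero hr _)
  rw [← multG_eq hf]
  rcases h1 with h1 | h1 | h1
  · exact absurd h1 h2.ne'
  · exact h1
  · linarith

section Rational

variable {p q : ℝ[X]}

/-- The polynomial `q(X) Y - p(X)` of a rational function `p / q`. -/
noncomputable def ratPoly (p q : ℝ[X]) : ℝ[X][Y] := C q * Y + C (-p)

theorem ratPoly_irreducible (hq : q ≠ 0) (hpq : IsCoprime p q) : Irreducible (ratPoly p q) :=
  irreducible_C_mul_X_add_C hq (IsCoprime.neg_right hpq.symm).isRelPrime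

theorem ratPoly_evalEval (p q : ℝ[X]) (x y : ℝ) :
    (ratPoly p q).evalEval x y = q.eval x * y - p.eval x := by
  unfold ratPoly
  simp [evalEval_C, sub_eq_add_neg]

theorem ratPoly_natDegree (hq : q ≠ 0) : (ratPoly p q).natDegree = 1 := natDegree_linear hq

theorem swap_ratPoly (p q : ℝ[X]) :
    Bivariate.swap (ratPoly p q) = q.map C * C X + (-p).map C := by
  unfold ratPoly
  rw [map_add, map_mul, Bivariate.swap_C, Bivariate.swap_C, Bivariate.swap_Y]

theorem coeff_swap_ratPoly (p q : ℝ[X]) (n : ℕ) :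
    (Bivariate.swap (ratPoly p q)).coeff n = C (q.coeff n) * X + C (-p.coeff n) := by
  rw [swap_ratPoly, coeff_add, coeff_mul_C, coeff_map, coeff_map, coeff_neg]

theorem coeff_swap_ratPoly_eq_zero_iff (p q : ℝ[X]) (n : ℕ) :
    (Bivariate.swap (ratPoly p q)).coeff n = 0 ↔ q.coeff n = 0 ∧ p.coeff n = 0 := by
  rw [coeff_swap_ratPoly]
  constructor
  · intro h
    have h0 := congrArg (fun P : ℝ[X] => P.coeff 0) h
    have h1 := congrArg (fun P : ℝ[X] => P.coeff 1) h
    simp at h0 h1
    exact ⟨h1, h0⟩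
  · rintro ⟨h1, h2⟩
    rw [h1, h2]
    simp

theorem natDegree_le_swap_left (p q : ℝ[X]) :
    p.natDegree ≤ (Bivariate.swap (ratPoly p q)).natDegree := by
  by_cases hp : p = 0
  · rw [hp]; simp
  · apply le_natDegree_of_ne_zero
    intro h
    rw [coeff_swap_ratPoly_eq_zero_iff] at h
    exact hp (leadingCoeff_eq_zero.1 h.2)

theorem natDegree_le_swap_right (p q : ℝ[X]) :
    q.natDegree ≤ (Bivariate.swap (ratPoly p q)).natDegree := by
  by_cases hq : q = 0
  · rw [hq]; simp
  · apply le_natDegree_of_ne_zero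
    intro h
    rw [coeff_swap_ratPoly_eq_zero_iff] at h
    exact hq (leadingCoeff_eq_zero.1 h.1)

theorem hasDerivAt_ratio (hp : p.eval 0 = 0) (hq : q.eval 0 ≠ 0) :
    HasDerivAt (fun x => p.eval x / q.eval x) (p.derivative.eval 0 / q.eval 0) 0 := by
  have h := (p.hasDerivAt 0).div (q.hasDerivAt 0) hq
  rw [hp, zero_mul, sub_zero, sq, mul_div_mul_right _ _ hq] at h
  exact h

/-- Rational germs: the distortion elements among them. -/
theorem rational_iff (hr : r ≠ 0) (hpq : IsCoprime p q) (hp : p.eval 0 = 0) (hq : q.eval 0 ≠ 0)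
    (hd : p.derivative.eval 0 ≠ 0) :
    ∃ g : AlgG r, IsGermOf (g : G r) (fun x => p.eval x / q.eval x) ∧
      (IsDistortionElement g ↔
        |p.derivative.eval 0 / q.eval 0| = 1 ∧ p.natDegree ≤ 1 ∧ q.natDegree ≤ 1) := by
  have hq0 : q ≠ 0 := by
    rintro rfl
    simp at hq
  have han : AnalyticAt ℝ (fun x => p.eval x / q.eval x) 0 :=
    (contDiff_eval p).contDiffAt.analyticAt.div (contDiff_eval q).contDiffAt.analyticAt hq
  have hder := hasDerivAt_ratio hp hq
  obtain ⟨g, hg⟩ := exists_germ_an r han (by rw [hp, zero_div]) (by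
    rw [hder.deriv]
    exact div_ne_zero hd hq)
  have hne : ∀ᶠ x in 𝓝 (0 : ℝ), q.eval x ≠ 0 :=
    q.continuous.continuousAt.eventually_ne hq
  have hrel : ∀ᶠ x in 𝓝 (0 : ℝ), (ratPoly p q).evalEval x (p.eval x / q.eval x) = 0 := by
    filter_upwards [hne] with x hx
    rw [ratPoly_evalEval, mul_div_cancel₀ _ hx, sub_self]
  have hirr := ratPoly_irreducible hq0 hpq
  have halg : g ∈ AlgG r := ⟨ratPoly p q, hirr.ne_zero, _, hg, hrel⟩
  refine ⟨⟨g, halg⟩, hg, ?_, ?_⟩
  · intro hD
    have h1 := abs_mult_eq_one_of_distortion hr ⟨g, halg⟩ _ hg hD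
    rw [hder.deriv] at h1
    have h2 := natDegree_eq_of_distortion ⟨g, halg⟩ _ hg _ hirr hrel hD
    rw [ratPoly_natDegree hq0] at h2
    exact ⟨h1, h2 ▸ natDegree_le_swap_left p q, h2 ▸ natDegree_le_swap_right p q⟩
  · rintro ⟨h1, h2, h3⟩
    obtain ⟨a, b, hab⟩ := exists_eq_X_add_C_of_natDegree_le_one h2
    obtain ⟨c, d, hcd⟩ := exists_eq_X_add_C_of_natDegree_le_one h3
    have hb : b = 0 := by
      rw [hab] at hp
      simpa using hp
    have hd' : d ≠ 0 := by
      rw [hcd] at hq
      simpa using hq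
    have e1 : ∀ x, p.eval x = a * x := by
      intro x
      rw [hab, hb]
      simp
    have e2 : ∀ x, q.eval x = c * x + d := by
      intro x
      rw [hcd]
      simp
    have e3 : p.derivative.eval 0 = a := by
      rw [hab]
      simp
    have e4 : q.eval 0 = d := by
      rw [e2]
      simp
    rw [e3, e4] at h1
    have hne' : ∀ᶠ x in 𝓝 (0 : ℝ), 1 + (c / d) * x ≠ 0 := by
      have : ContinuousAt (fun x : ℝ => 1 + (c / d) * x) 0 := by fun_prop
      exact this.eventually_ne (by simp)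
    have hrep : ∀ᶠ x in 𝓝 (0 : ℝ), p.eval x / q.eval x = (a / d) * x / (1 + (c / d) * x) := by
      filter_upwards [hne, hne'] with x hx hx'
      rw [e2] at hx
      rw [e1, e2, div_eq_div_iff hx hx']
      field_simp
      ring
    rcases (abs_eq zero_le_one).1 h1 with h4 | h4
    · apply dist_moebius _ (c / d)
      apply hg.congr
      filter_upwards [hrep] with x hx
      rw [hx, h4, one_mul]
    · apply dist_moebius_neg _ (c / d)
      apply hg.congr
      filter_upwards [hrep] with x hx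
      rw [hx, h4, neg_mul, one_mul]

end Rational

end Run7.h21
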