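import Mathlib
import Pool.Agent.Run7.h21.Defs
import Pool.Agent.Run7.h21.Obstruction

/-!
# Constructing elements of `𝒢^r`
-/

namespace Run7.h21

open Filter Topology Asymptotics

/-- A `C^r` function (`1 ≤ r < ∞`) with `f 0 = 0` and `f'(0) ≠ 0` defines an element of `𝒢^r`. -/
theorem exists_germ {r : ℕ} (hr : 1 ≤ r) {f : ℝ → ℝ} (hf : ContDiffAt ℝ r f 0) (h0 : f 0 = 0)
    (h1 : deriv f 0 ≠ 0) : ∃ g : G (r : WithTop ℕ∞), IsGermOf g f := by
  have hr0 : (r : WithTop ℕ∞) ≠ 0 := by exact_mod_cast (by omega : r ≠ 0)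
  have hd : HasFDerivAt f ((ContinuousLinearEquiv.unitsEquivAut ℝ (Units.mk0 _ h1) : ℝ ≃L[ℝ] ℝ) :
      ℝ →L[ℝ] ℝ) 0 := by
    exact (hf.differentiableAt hr0).hasDerivAt.hasFDerivAt_equiv h1
  have hs := hf.hasStrictFDerivAt' hd hr0
  let φ := hs.localInverse f _ 0
  have hφ0 : φ 0 = 0 := by
    have := hs.localInverse_apply_image
    rw [h0] at this
    exact this
  have hφ : ContDiffAt ℝ r φ 0 := by
    have := hf.to_localInverse hd hr0
    rw [h0] at this
    exact this
  have tf : Tendsto f (𝓝 0) (𝓝 0) := by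
    have := hf.continuousAt.tendsto
    rwa [h0] at this
  have tφ : Tendsto φ (𝓝 0) (𝓝 0) := by
    have := hφ.continuousAt.tendsto
    rwa [hφ0] at this
  have e1 : ∀ᶠ x in 𝓝 (0 : ℝ), φ (f x) = x := hs.eventually_left_inverse
  have e2 : ∀ᶠ x in 𝓝 (0 : ℝ), f (φ x) = x := by
    have := hs.eventually_right_inverse
    rw [h0] at this
    exact this
  let u : FixGermˣ :=
    { val := FixGerm.of f tf
      inv := FixGerm.of φ tφ
      val_inv := by
        rw [FixGerm.of_mul_of, FixGerm.one_def, FixGerm.of_eq_of]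
        exact e2
      inv_val := by
        rw [FixGerm.of_mul_of, FixGerm.one_def, FixGerm.of_eq_of]
        exact e1 }
  refine ⟨⟨u, ?_, ?_⟩, rfl⟩
  · show (FixGerm.of f tf).IsCr r
    rw [FixGerm.isCr_of]
    exact hf.eventually (by simp)
  · show (FixGerm.of φ tφ).IsCr r
    rw [FixGerm.isCr_of]
    exact hφ.eventually (by simp)

end Run7.h21
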