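import Mathlib
import Pool.Agent.Run7.h21.Obstruction
import Pool.Agent.Run7.h21.Mk

/-!
# The germ `x ^ r / log (1 / |x|)`
-/

namespace Run7.h21

open Filter Topology Asymptotics Polynomial

/-- The function `1 / log (1 / |x|)` (equal to `0` at `0`). -/
noncomputable def LL (x : ℝ) : ℝ := 1 / Real.log (1 / |x|)

theorem LL_eq (x : ℝ) : LL x = -(Real.log x)⁻¹ := by
  unfold LL
  rw [one_div, one_div, Real.log_inv, Real.log_abs, inv_neg]

theorem LL_zero : LL 0 = 0 := by simp [LL_eq]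

theorem tendsto_LL : Tendsto LL (𝓝 0) (𝓝 0) := by
  have h1 : Tendsto LL (𝓝[≠] 0) (𝓝 0) := by
    have h2 : Tendsto (fun x : ℝ => -(Real.log x)⁻¹) (𝓝[≠] 0) (𝓝 (-0)) :=
      (tendsto_inv_atBot_zero.comp Real.tendsto_log_nhdsNE_zero).neg
    rw [neg_zero] at h2
    exact h2.congr fun x => (LL_eq x).symm
  have h3 : ContinuousAt LL 0 := by
    rw [← continuousWithinAt_compl_self]
    show Tendsto LL (𝓝[≠] 0) (𝓝 (LL 0))
    rw [LL_zero]
    exact h1
  have := h3.tendsto
  rwa [LL_zero] at this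

theorem hasDerivAt_LL {x : ℝ} (hx : x ≠ 0) (hx1 : |x| < 1) : HasDerivAt LL (LL x ^ 2 / x) x := by
  have hlog : Real.log x ≠ 0 := by
    rw [← Real.log_abs]
    exact (Real.log_neg (abs_pos.2 hx) hx1).ne
  have h1 := ((Real.hasDerivAt_log hx).inv hlog).neg
  have h2 : HasDerivAt LL (-(-x⁻¹ / Real.log x ^ 2)) x := by
    refine h1.congr_of_eventuallyEq (Eventually.of_forall fun y => ?_)
    rw [LL_eq]
    rfl
  convert h2 using 1
  rw [LL_eq]
  field_simp

/-- The polynomial giving the derivative of `x ^ (j + 1) * Q (LL x)`. -/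
noncomputable def nextQ (j : ℕ) (Q : ℝ[X]) : ℝ[X] :=
  C ((j : ℝ) + 1) * Q + X ^ 2 * derivative Q

theorem nextQ_eval_zero (j : ℕ) {Q : ℝ[X]} (hQ : Q.eval 0 = 0) : (nextQ j Q).eval 0 = 0 := by
  simp [nextQ, hQ]

theorem nextQ_coeff_one (j : ℕ) (Q : ℝ[X]) : (nextQ j Q).coeff 1 = ((j : ℝ) + 1) * Q.coeff 1 := by
  unfold nextQ
  rw [coeff_add, coeff_C_mul, coeff_X_pow_mul']
  simp

theorem hasDerivAt_pow_mul (j : ℕ) {Q : ℝ[X]} (hQ : Q.eval 0 = 0) {x : ℝ} (hx1 : |x| < 1) :
    HasDerivAt (fun x => x ^ (j + 1) * Q.eval (LL x)) (x ^ j * (nextQ j Q).eval (LL x)) x := by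
  rcases eq_or_ne x 0 with rfl | hx
  · have h0 : (0 : ℝ) ^ j * (nextQ j Q).eval (LL 0) = 0 := by
      rw [LL_zero, nextQ_eval_zero j hQ, mul_zero]
    rw [h0, hasDerivAt_iff_isLittleO]
    have h1 : Tendsto (fun x : ℝ => x ^ j * Q.eval (LL x)) (𝓝 0) (𝓝 0) := by
      have h2 : Tendsto (fun x : ℝ => Q.eval (LL x)) (𝓝 0) (𝓝 (Q.eval 0)) :=
        (Q.continuous.tendsto 0).comp tendsto_LL
      have h3 : Tendsto (fun x : ℝ => x ^ j) (𝓝 0) (𝓝 (0 ^ j)) := (continuous_pow j).tendsto 0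
      have := h3.mul h2
      rwa [hQ, mul_zero] at this
    have h4 := (isBigO_refl (fun x : ℝ => x) (𝓝 0)).mul_isLittleO ((isLittleO_one_iff ℝ).2 h1)
    refine (h4.congr_left fun x => ?_).congr_right fun x => ?_
    · rw [LL_zero, hQ]
      simp only [mul_zero, sub_zero, smul_zero]
      ring
    · ring
  · have h1 := (hasDerivAt_pow (j + 1) x).mul ((Q.hasDerivAt (LL x)).comp x (hasDerivAt_LL hx hx1))
    refine h1.congr_deriv ?_
    simp only [nextQ, eval_add, eval_mul, eval_C, eval_pow, eval_X, Function.comp]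
    rw [Nat.add_sub_cancel]
    push_cast
    field_simp
    ring

theorem contDiffOn_pow_mul (j : ℕ) : ∀ {Q : ℝ[X]}, Q.eval 0 = 0 →
    ContDiffOn ℝ j (fun x => x ^ j * Q.eval (LL x)) (Metric.ball 0 1) := by
  induction j with
  | zero =>
    intro Q hQ
    simp only [pow_zero, one_mul, Nat.cast_zero]
    rw [contDiffOn_zero]
    intro x hx
    have hx1 : |x| < 1 := by simpa using hx
    apply ContinuousAt.continuousWithinAt
    refine (Q.continuous.continuousAt).comp ?_
    rcases eq_or_ne x 0 with rfl | hx0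
    · show Tendsto LL (𝓝 0) (𝓝 (LL 0))
      rw [LL_zero]
      exact tendsto_LL
    · exact (hasDerivAt_LL hx0 hx1).continuousAt
  | succ j ih =>
    intro Q hQ
    have hd : ∀ x ∈ Metric.ball (0 : ℝ) 1, HasDerivAt (fun x => x ^ (j + 1) * Q.eval (LL x))
        (x ^ j * (nextQ j Q).eval (LL x)) x := by
      intro x hx
      exact hasDerivAt_pow_mul j hQ (by simpa using hx)
    have e : ((j + 1 : ℕ) : WithTop ℕ∞) = (j : WithTop ℕ∞) + 1 := by push_cast; rfl
    rw [e, contDiffOn_succ_iff_deriv_of_isOpen Metric.isOpen_ball]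
    refine ⟨fun x hx => (hd x hx).differentiableAt.differentiableWithinAt, ?_, ?_⟩
    · intro h
      exact absurd h (by simp)
    · exact (ih (nextQ_eval_zero j hQ)).congr fun x hx => (hd x hx).deriv

/-- The iterated derivatives of `x ^ (k + 1) / log (1 / |x|)`. -/
theorem exists_iteratedDeriv (k : ℕ) : ∀ i : ℕ, i ≤ k → ∃ Q : ℝ[X], Q.eval 0 = 0 ∧ Q.coeff 1 ≠ 0 ∧
    ∀ x ∈ Metric.ball (0 : ℝ) 1, iteratedDeriv i (fun x => x ^ (k + 1) * LL x) x =
      x ^ (k + 1 - i) * Q.eval (LL x) := by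
  intro i
  induction i with
  | zero =>
    intro _
    exact ⟨X, by simp, by simp, fun x _ => by simp⟩
  | succ i ih =>
    intro hi
    obtain ⟨Q, hQ0, hQ1, hQ⟩ := ih (by omega)
    obtain ⟨m, hm⟩ : ∃ m, k + 1 - i = m + 1 := ⟨k - i, by omega⟩
    refine ⟨nextQ m Q, nextQ_eval_zero m hQ0, ?_, ?_⟩
    · rw [nextQ_coeff_one]
      have : (0 : ℝ) < (m : ℝ) + 1 := by positivity
      exact mul_ne_zero this.ne' hQ1
    · intro x hx
      rw [iteratedDeriv_succ]
      have h1 : iteratedDeriv i (fun x => x ^ (k + 1) * LL x) =ᶠ[𝓝 x]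
          fun x => x ^ (m + 1) * Q.eval (LL x) := by
        filter_upwards [Metric.isOpen_ball.mem_nhds hx] with y hy
        rw [hQ y hy, hm]
      rw [h1.deriv_eq, (hasDerivAt_pow_mul m hQ0 (by simpa using hx)).deriv]
      have h2 : k + 1 - (i + 1) = m := by omega
      rw [h2]

/-- Independence: a nontrivial combination of the functions `Q (1 / (u - t))` is not
exponentially small. -/
theorem coeff_eq_zero_of_isBigO (T : Finset ℝ) (b : ℝ → ℝ) {Q : ℝ[X]} (hQ0 : Q.eval 0 = 0)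
    (hQ : Q ≠ 0)
    (h : (fun u : ℝ => ∑ t ∈ T, b t * Q.eval (1 / (u - t))) =O[atTop] fun u => Real.exp (-u)) :
    ∀ t ∈ T, b t = 0 := by
  classical
  set m := Q.natDegree with hm
  have hm1 : m ≠ 0 := by
    intro h0
    have h1 : Q = C (Q.coeff 0) := Polynomial.eq_C_of_natDegree_eq_zero h0
    rw [← Polynomial.coeff_zero_eq_eval_zero] at hQ0
    rw [hQ0, C_0] at h1
    exact hQ h1
  let R : ℝ[X] := ∑ t ∈ T, C (b t) * (Q.reverse.comp (X - C t)) *
    ∏ s ∈ T.erase t, (X - C s) ^ m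
  have hR : ∀ u : ℝ, (∀ t ∈ T, u ≠ t) → R.eval u =
      (∑ t ∈ T, b t * Q.eval (1 / (u - t))) * ∏ s ∈ T, (u - s) ^ m := by
    intro u hu
    show (∑ t ∈ T, C (b t) * (Q.reverse.comp (X - C t)) *
      ∏ s ∈ T.erase t, (X - C s) ^ m).eval u = _
    rw [eval_finsetSum, Finset.sum_mul]
    apply Finset.sum_congr rfl
    intro t ht
    have h1 : u - t ≠ 0 := sub_ne_zero.2 (hu t ht)
    rw [eval_mul, eval_mul, eval_C, eval_comp, eval_sub, eval_X, eval_C, eval_prod,
      ← Finset.mul_prod_erase T _ ht]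
    have h2 : Q.reverse.eval (u - t) = Q.eval (1 / (u - t)) * (u - t) ^ m := by
      have : Invertible ((u - t)⁻¹) := invertibleOfNonzero (inv_ne_zero h1)
      have h3 := Polynomial.eval₂_reverse_mul_pow (RingHom.id ℝ) ((u - t)⁻¹) Q
      rw [invOf_eq_inv, inv_inv] at h3
      have h4 : Q.reverse.eval (u - t) * ((u - t)⁻¹) ^ m = Q.eval (1 / (u - t)) := by
        rw [one_div]
        exact h3
      rw [← h4, mul_assoc, ← mul_pow, inv_mul_cancel₀ h1, one_pow, mul_one]
    rw [h2]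
    simp only [eval_pow, eval_sub, eval_X, eval_C]
    ring
  have hlim : Tendsto (fun u => R.eval u) atTop (𝓝 0) := by
    have h1 : (fun u : ℝ => ∏ s ∈ T, (u - s) ^ m) =O[atTop] fun u => (u ^ (T.card * m) : ℝ) := by
      have h5 : (∏ s ∈ T, (X - C s) ^ m : ℝ[X]).degree ≤ (X ^ (T.card * m) : ℝ[X]).degree := by
        rw [degree_prod, degree_X_pow]
        simp only [degree_pow, degree_X_sub_C]
        simp
      have h6 := Polynomial.isBigO_atTop_of_degree_le _ _ h5
      simpa [eval_prod] using h6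
    have h2 := h.mul h1
    have h3 : Tendsto (fun u : ℝ => Real.exp (-u) * u ^ (T.card * m)) atTop (𝓝 0) := by
      have := Real.tendsto_pow_mul_exp_neg_atTop_nhds_zero (T.card * m)
      exact this.congr fun u => mul_comm _ _
    refine (h2.trans_tendsto h3).congr' ?_
    have h4 : ∀ᶠ u in atTop, ∀ t ∈ T, u ≠ t := by
      rw [Filter.eventually_all_finset]
      intro t _
      exact eventually_ne_atTop t
    filter_upwards [h4] with u hu
    exact (hR u hu).symm
  have hR0 : R = 0 := by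
    obtain ⟨h1, h2⟩ := (Polynomial.tendsto_nhds_iff R).1 hlim
    exact Polynomial.leadingCoeff_eq_zero.1 h1
  intro t ht
  have h1 : R.eval t = 0 := by rw [hR0, eval_zero]
  have h2 : R.eval t = b t * Q.leadingCoeff * ∏ s ∈ T.erase t, (t - s) ^ m := by
    show (∑ t ∈ T, C (b t) * (Q.reverse.comp (X - C t)) *
      ∏ s ∈ T.erase t, (X - C s) ^ m).eval t = _
    rw [eval_finsetSum, Finset.sum_eq_single t]
    · rw [eval_mul, eval_mul, eval_C, eval_comp, eval_sub, eval_X, eval_C, eval_prod, sub_self]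
      simp only [eval_pow, eval_sub, eval_X, eval_C]
      rw [← Polynomial.coeff_zero_eq_eval_zero, Polynomial.coeff_zero_reverse]
    · intro s hs hst
      rw [eval_mul, eval_prod, Finset.prod_eq_zero (Finset.mem_erase.2 ⟨hst.symm, ht⟩), mul_zero]
      simp [hm1]
    · intro h; exact absurd ht h
  rw [h2] at h1
  have h3 : ∏ s ∈ T.erase t, (t - s) ^ m ≠ 0 := by
    rw [Finset.prod_ne_zero_iff]
    intro s hs
    exact pow_ne_zero _ (sub_ne_zero.2 (Finset.ne_of_mem_erase hs).symm)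
  have h4 : Q.leadingCoeff ≠ 0 := Polynomial.leadingCoeff_ne_zero.2 hQ
  rcases mul_eq_zero.1 h1 with h5 | h5
  · rcases mul_eq_zero.1 h5 with h6 | h6
    · exact h6
    · exact absurd h6 h4
  · exact absurd h5 h3

theorem LL_exp (t u : ℝ) : LL (Real.exp t * Real.exp (-u)) = 1 / (u - t) := by
  rw [LL_eq, ← Real.exp_add, Real.log_exp, ← inv_neg, one_div]
  congr 1
  ring

theorem not_isTors_log {k : ℕ} {δ : ℝ} (hδ : δ ≠ 0) :
    ¬ IsTors (k - 1) (fun x => δ * tau (iteratedDeriv k (fun x => x ^ (k + 1) * LL x)) x) := by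
  rintro ⟨a, ha, hav⟩
  obtain ⟨Q, hQ0, hQ1, hQ⟩ := exists_iteratedDeriv k k le_rfl
  have hQne : Q ≠ 0 := by
    rintro rfl
    simp at hQ1
  have h1 := (smul_cls_eq_zero _ _ _ hav).isBigO
  -- the remainder, near the origin
  have htau : ∀ y ∈ Metric.ball (0 : ℝ) 1,
      tau (iteratedDeriv k (fun x => x ^ (k + 1) * LL x)) y = y * Q.eval (LL y) := by
    intro y hy
    have hk : k + 1 - k = 1 := by omega
    have e1 : iteratedDeriv k (fun x => x ^ (k + 1) * LL x) =ᶠ[𝓝 0]
        fun x => x ^ (0 + 1) * Q.eval (LL x) := by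
      filter_upwards [Metric.isOpen_ball.mem_nhds (Metric.mem_ball_self one_pos)] with z hz
      rw [hQ z hz, hk]
    have e2 : deriv (iteratedDeriv k (fun x => x ^ (k + 1) * LL x)) 0 = 0 := by
      rw [e1.deriv_eq, (hasDerivAt_pow_mul 0 hQ0 (by simp)).deriv, LL_zero,
        nextQ_eval_zero 0 hQ0, mul_zero]
    have e3 : iteratedDeriv k (fun x => x ^ (k + 1) * LL x) 0 = 0 := by
      rw [hQ 0 (Metric.mem_ball_self one_pos), LL_zero, hQ0, mul_zero]
    simp only [tau]
    rw [e2, e3, hQ y hy, hk, pow_one, mul_zero, sub_zero, sub_zero]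
  have h2 : Tendsto (fun u : ℝ => Real.exp (-u)) atTop (𝓝 0) :=
    Real.tendsto_exp_neg_atTop_nhds_zero
  have h3 := h1.comp_tendsto h2
  have h4 : (fun u : ℝ => ∑ t ∈ a.coeff.support,
      ((a.coeff t : ℝ) * Real.exp t ^ (k - 1) * δ * Real.exp t) * Q.eval (1 / (u - t)))
      =O[atTop] fun u => Real.exp (-u) := by
    have h5 := h3.mul (isBigO_refl (fun u : ℝ => Real.exp u) atTop)
    refine h5.congr' ?_ ?_
    · have h6 : ∀ᶠ u : ℝ in atTop, ∀ t ∈ a.coeff.support, Real.exp t * Real.exp (-u) < 1 := by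
        rw [Filter.eventually_all_finset]
        intro t _
        filter_upwards [eventually_gt_atTop t] with u hu
        rw [← Real.exp_add, Real.exp_lt_one_iff]
        linarith
      filter_upwards [h6] with u hu
      simp only [Function.comp]
      rw [Finset.sum_mul]
      apply Finset.sum_congr rfl
      intro t ht
      have hy : Real.exp t * Real.exp (-u) ∈ Metric.ball (0 : ℝ) 1 := by
        rw [Metric.mem_ball, dist_zero_right, Real.norm_of_nonneg (by positivity)]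
        exact hu t ht
      rw [htau _ hy, LL_exp]
      have h7 : Real.exp (-u) * Real.exp u = 1 := by rw [← Real.exp_add]; simp
      linear_combination (a.coeff t : ℝ) * Real.exp t ^ (k - 1) * δ * Real.exp t *
        Q.eval (1 / (u - t)) * h7
    · filter_upwards with u
      simp only [Function.comp]
      have h7 : Real.exp (-u) * Real.exp u = 1 := by rw [← Real.exp_add]; simp
      linear_combination Real.exp (-u) * h7
  have h8 := coeff_eq_zero_of_isBigO a.coeff.support _ hQ0 hQne h4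
  apply ha
  ext t
  by_contra hne
  have ht : t ∈ a.coeff.support := by
    rw [Finsupp.mem_support_iff]
    simpa using hne
  have h9 := h8 t ht
  have h10 : (a.coeff t : ℝ) ≠ 0 := by
    exact_mod_cast Finsupp.mem_support_iff.1 ht
  have h11 : (a.coeff t : ℝ) * Real.exp t ^ (k - 1) * δ * Real.exp t ≠ 0 := by
    have := Real.exp_pos t
    positivity
  exact h11 h9

/-- The function `x ^ (k + 1) / log (1 / |x|)` is of class `C^{k+1}` near the origin. -/
theorem contDiffAt_log (k : ℕ) :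
    ContDiffAt ℝ ((k + 1 : ℕ) : WithTop ℕ∞) (fun x => x ^ (k + 1) * LL x) 0 := by
  have h := contDiffOn_pow_mul (k + 1) (Q := X) (by simp)
  have h2 := h.contDiffAt (Metric.isOpen_ball.mem_nhds (Metric.mem_ball_self one_pos))
  simpa using h2

theorem deriv_log_zero (k : ℕ) : HasDerivAt (fun x => x ^ (k + 1) * LL x) 0 0 := by
  have h := hasDerivAt_pow_mul k (Q := X) (by simp) (x := 0) (by simp)
  have e : (0 : ℝ) ^ k * (nextQ k X).eval (LL 0) = 0 := by
    rw [LL_zero, nextQ_eval_zero k (by simp), mul_zero]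
  rw [e] at h
  simpa using h

theorem IsTors.congr {p : ℕ} {F H : ℝ → ℝ} (hF : IsTors p F) (h : F =ᶠ[𝓝 0] H) : IsTors p H := by
  obtain ⟨a, ha, haF⟩ := hF
  refine ⟨a, ha, ?_⟩
  have h1 : cls p H = cls p F := by
    rw [cls_eq_iff]
    refine IsM2.zero.congr ?_
    filter_upwards [h] with x hx
    rw [hx, sub_self]
  rw [h1, haF]

/-- Linearity of the remainder of the `k`-th derivative. -/
theorem tau_iteratedDeriv_add_smul {k : ℕ} {f h : ℝ → ℝ}
    (hf : ContDiffAt ℝ ((k + 1 : ℕ) : WithTop ℕ∞) f 0)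
    (hh : ContDiffAt ℝ ((k + 1 : ℕ) : WithTop ℕ∞) h 0) (ε : ℝ) :
    tau (iteratedDeriv k (fun x => f x + ε * h x)) =ᶠ[𝓝 0]
      fun x => tau (iteratedDeriv k f) x + ε * tau (iteratedDeriv k h) x := by
  have hle : (k : WithTop ℕ∞) ≤ ((k + 1 : ℕ) : WithTop ℕ∞) := by exact_mod_cast Nat.le_succ k
  have e1 : iteratedDeriv k (fun x => f x + ε * h x) =ᶠ[𝓝 0]
      fun x => iteratedDeriv k f x + ε * iteratedDeriv k h x := by
    filter_upwards [hf.eventually (by simp), hh.eventually (by simp)] with x hx1 hx2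
    rw [iteratedDeriv_fun_add (hx1.of_le hle) (contDiffAt_const.mul (hx2.of_le hle)),
      iteratedDeriv_const_mul_field]
  have d1 : ∀ {f : ℝ → ℝ}, ContDiffAt ℝ ((k + 1 : ℕ) : WithTop ℕ∞) f 0 →
      DifferentiableAt ℝ (iteratedDeriv k f) 0 := by
    intro f hf
    obtain ⟨F, hF, hFf⟩ := exists_global_rep (hf.eventually (by simp))
    have h1 : ContDiff ℝ ((1 : ℕ) : WithTop ℕ∞) (iteratedDeriv k F) := by
      apply contDiff_iteratedDeriv
      rw [add_comm]
      exact hF
    have h2 : DifferentiableAt ℝ (iteratedDeriv k F) 0 :=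
      (h1.differentiable (by norm_num)) 0
    exact h2.congr_of_eventuallyEq (hFf.iteratedDeriv k).symm
  refine (tau_congr e1).trans ?_
  filter_upwards with x
  have h1 := congrFun (tau_add (d1 hf) ((d1 hh).const_mul ε)) x
  rw [h1]
  simp only [tau]
  rw [deriv_const_mul ε (d1 hh)]
  ring

/-- **Theorem B**, with `r = k + 1`. -/
theorem log_perturbation {k : ℕ} (hk : 1 ≤ k) {f : ℝ → ℝ}
    (hf : ContDiffAt ℝ ((k + 1 : ℕ) : WithTop ℕ∞) f 0) (h0 : f 0 = 0) (h1 : deriv f 0 = 1) :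
    (∀ ε : ℝ, ∃ g : G ((k + 1 : ℕ) : WithTop ℕ∞), IsGermOf g
      (fun x => f x + ε * (x ^ (k + 1) / Real.log (1 / |x|)))) ∧
    {ε : ℝ | ∃ g : G ((k + 1 : ℕ) : WithTop ℕ∞), IsGermOf g
      (fun x => f x + ε * (x ^ (k + 1) / Real.log (1 / |x|))) ∧
        IsDistortionElement g}.Subsingleton := by
  have hk0 : ((k + 1 : ℕ) : WithTop ℕ∞) ≠ 0 := by exact_mod_cast (by omega : k + 1 ≠ 0)
  have ediv : ∀ ε : ℝ, (fun x : ℝ => f x + ε * (x ^ (k + 1) / Real.log (1 / |x|))) =
      fun x => f x + ε * (x ^ (k + 1) * LL x) := by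
    intro ε
    funext x
    rw [LL, mul_one_div]
  have hder : ∀ ε : ℝ, HasDerivAt (fun x => f x + ε * (x ^ (k + 1) * LL x)) 1 0 := by
    intro ε
    have h2 : HasDerivAt f 1 0 := by
      rw [← h1]
      exact (hf.differentiableAt hk0).hasDerivAt
    have h3 := h2.add ((deriv_log_zero k).const_mul ε)
    rw [mul_zero, add_zero] at h3
    exact h3
  constructor
  · intro ε
    rw [ediv]
    refine exists_germ (by omega) (hf.add (contDiffAt_const.mul (contDiffAt_log k))) ?_ ?_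
    · simp [h0]
    · rw [(hder ε).deriv]
      exact one_ne_zero
  · rintro ε₁ ⟨g₁, hg₁, hd₁⟩ ε₂ ⟨g₂, hg₂, hd₂⟩
    by_contra hne
    rw [ediv] at hg₁ hg₂
    have t₁ := (isTors_of_isDistortionElement hk hd₁ hg₁ (hder ε₁).deriv).congr
      (tau_iteratedDeriv_add_smul hf (contDiffAt_log k) ε₁)
    have t₂ := (isTors_of_isDistortionElement hk hd₂ hg₂ (hder ε₂).deriv).congr
      (tau_iteratedDeriv_add_smul hf (contDiffAt_log k) ε₂)
    have t₃ := t₁.sub t₂
    apply not_isTors_log (k := k) (sub_ne_zero.2 hne)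
    refine t₃.congr ?_
    filter_upwards with x
    ring

end Run7.h21
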