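import Mathlib

/-!
# Independence of trigonometric functions at infinity
-/

namespace Run7.h21

open Filter Topology

/-- A trigonometric function of a single positive frequency that has a limit at infinity
vanishes. -/
theorem trig_single {μ a b L : ℝ} (hμ : 0 < μ)
    (h : Tendsto (fun X : ℝ => a * Real.cos (μ * X) + b * Real.sin (μ * X)) atTop (𝓝 L)) :
    a = 0 ∧ b = 0 := by
  have hn : Tendsto (fun n : ℕ => (n : ℝ)) atTop atTop := tendsto_natCast_atTop_atTop
  have key : ∀ θ : ℝ, a * Real.cos θ + b * Real.sin θ = L := by
    intro θ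
    have h1 : Tendsto (fun n : ℕ => (θ + n * (2 * Real.pi)) / μ) atTop atTop := by
      apply Tendsto.atTop_div_const hμ
      apply tendsto_atTop_add_const_left
      exact hn.atTop_mul_const (by positivity)
    have h2 := h.comp h1
    have h3 : (fun n : ℕ => a * Real.cos θ + b * Real.sin θ) =
        (fun X : ℝ => a * Real.cos (μ * X) + b * Real.sin (μ * X)) ∘
          fun n : ℕ => (θ + n * (2 * Real.pi)) / μ := by
      funext n
      simp only [Function.comp]
      have h4 : μ * ((θ + n * (2 * Real.pi)) / μ) = θ + n * (2 * Real.pi) := by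
        field_simp
      rw [h4, Real.cos_add_nat_mul_two_pi, Real.sin_add_nat_mul_two_pi]
    rw [← h3] at h2
    exact tendsto_nhds_unique tendsto_const_nhds h2
  have k0 := key 0
  have k1 := key Real.pi
  have k2 := key (Real.pi / 2)
  have k3 := key (-(Real.pi / 2))
  simp only [Real.cos_zero, Real.sin_zero, Real.cos_pi, Real.sin_pi, Real.cos_pi_div_two,
    Real.sin_pi_div_two, Real.cos_neg, Real.sin_neg] at k0 k1 k2 k3
  constructor <;> linarith

/-- Trigonometric functions with distinct positive frequencies are independent modulo functions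
that have a limit at infinity. -/
theorem trig_independent {ι : Type*} (s : Finset ι) (μ : ι → ℝ) :
    (∀ i ∈ s, 0 < μ i) → (Set.InjOn μ s) → ∀ (a b : ι → ℝ) (L : ℝ),
    Tendsto (fun X : ℝ => ∑ i ∈ s, (a i * Real.cos (μ i * X) + b i * Real.sin (μ i * X))) atTop
      (𝓝 L) → ∀ i ∈ s, a i = 0 ∧ b i = 0 := by
  classical
  induction s using Finset.induction_on with
  | empty => intro _ _ a b L _ i hi; simp at hi
  | insert j s hj ih =>
    intro hpos hinj a b L hlim
    have hposs : ∀ i ∈ s, 0 < μ i := fun i hi => hpos i (Finset.mem_insert_of_mem hi)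
    have hposj : 0 < μ j := hpos j (Finset.mem_insert_self j s)
    -- the shift
    set S : ℝ := 1 + ∑ i ∈ insert j s, μ i with hS
    have hSpos : 0 < S := by
      have : 0 ≤ ∑ i ∈ insert j s, μ i := Finset.sum_nonneg fun i hi => (hpos i hi).le
      linarith
    set h : ℝ := 1 / S with hh
    have hhpos : 0 < h := by positivity
    have hle : ∀ i ∈ insert j s, μ i * h ∈ Set.Icc (0 : ℝ) Real.pi := by
      intro i hi
      refine ⟨by have := hpos i hi; positivity, ?_⟩
      have h1 : μ i ≤ S := by
        have := Finset.single_le_sum (f := μ) (fun i hi => (hpos i hi).le) hi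
        linarith
      have h2 : μ i * h ≤ 1 := by
        rw [hh, mul_one_div]
        exact (div_le_one hSpos).2 h1
      linarith [Real.pi_gt_three]
    have hne : ∀ i ∈ s, 2 * Real.cos (μ i * h) - 2 * Real.cos (μ j * h) ≠ 0 := by
      intro i hi hzero
      have h1 : Real.cos (μ i * h) = Real.cos (μ j * h) := by linarith
      have h2 := Real.injOn_cos (hle i (Finset.mem_insert_of_mem hi))
        (hle j (Finset.mem_insert_self j s)) h1
      have h3 : μ i = μ j := mul_right_cancel₀ hhpos.ne' h2
      have h4 := hinj (Finset.mem_coe.2 (Finset.mem_insert_of_mem hi))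
        (Finset.mem_coe.2 (Finset.mem_insert_self j s)) h3
      exact hj (h4 ▸ hi)
    have hother : ∀ i ∈ s, a i = 0 ∧ b i = 0 := by
      have hp : Tendsto (fun X : ℝ => X + h) atTop atTop := tendsto_atTop_add_const_right _ _
        tendsto_id
      have hm : Tendsto (fun X : ℝ => X - h) atTop atTop := tendsto_atTop_add_const_right _ _
        tendsto_id
      have h5 := ((hlim.comp hp).add (hlim.comp hm)).sub (hlim.const_mul (2 * Real.cos (μ j * h)))
      have h6 := ih hposs (hinj.mono (by simp)) (fun i => (2 * Real.cos (μ i * h) -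
        2 * Real.cos (μ j * h)) * a i) (fun i => (2 * Real.cos (μ i * h) -
        2 * Real.cos (μ j * h)) * b i) _ (h5.congr ?_)
      · intro i hi
        obtain ⟨h7, h8⟩ := h6 i hi
        exact ⟨(mul_eq_zero.1 h7).resolve_left (hne i hi),
          (mul_eq_zero.1 h8).resolve_left (hne i hi)⟩
      · intro X
        simp only [Function.comp]
        rw [Finset.sum_insert hj, Finset.sum_insert hj, Finset.sum_insert hj]
        have e1 : ∀ i, a i * Real.cos (μ i * (X + h)) + b i * Real.sin (μ i * (X + h)) +
            (a i * Real.cos (μ i * (X - h)) + b i * Real.sin (μ i * (X - h))) =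
            2 * Real.cos (μ i * h) * (a i * Real.cos (μ i * X) + b i * Real.sin (μ i * X)) := by
          intro i
          rw [mul_add, mul_sub, Real.cos_add, Real.cos_sub, Real.sin_add, Real.sin_sub]
          ring
        have e2 : (∑ i ∈ s, (a i * Real.cos (μ i * (X + h)) + b i * Real.sin (μ i * (X + h)))) +
            (∑ i ∈ s, (a i * Real.cos (μ i * (X - h)) + b i * Real.sin (μ i * (X - h)))) -
            2 * Real.cos (μ j * h) *
              (∑ i ∈ s, (a i * Real.cos (μ i * X) + b i * Real.sin (μ i * X))) =
            ∑ i ∈ s, ((2 * Real.cos (μ i * h) - 2 * Real.cos (μ j * h)) * a i *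
              Real.cos (μ i * X) + (2 * Real.cos (μ i * h) - 2 * Real.cos (μ j * h)) * b i *
              Real.sin (μ i * X)) := by
          rw [Finset.mul_sum, ← Finset.sum_add_distrib, ← Finset.sum_sub_distrib]
          apply Finset.sum_congr rfl
          intro i _
          rw [e1 i]
          ring
        rw [← e2]
        linarith [e1 j]
    have hj0 : a j = 0 ∧ b j = 0 := by
      apply trig_single hposj (L := L)
      refine hlim.congr fun X => ?_
      rw [Finset.sum_insert hj, Finset.sum_eq_zero, add_zero]
      intro i hi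
      rw [(hother i hi).1, (hother i hi).2]
      ring
    intro i hi
    rcases Finset.mem_insert.1 hi with rfl | hi
    · exact hj0
    · exact hother i hi

end Run7.h21
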