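import Mathlib
import Pool.Agent.Run7.h21.LogGerm
import Pool.Agent.Run7.h21.TrigIndep

/-!
# The germ `x ^ a cos (x ^ (-b))` on the positive side
-/

namespace Run7.h21

open Filter Topology Asymptotics

/-- `x ^ c (α cos (x ^ (-b)) + β sin (x ^ (-b)))` for `x > 0`, extended by `0`. -/
noncomputable def osc (b c α β : ℝ) (x : ℝ) : ℝ :=
  if 0 < x then x ^ c * (α * Real.cos (x ^ (-b)) + β * Real.sin (x ^ (-b))) else 0

theorem osc_of_nonpos (b c α β : ℝ) {x : ℝ} (hx : x ≤ 0) : osc b c α β x = 0 :=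
  if_neg (not_lt.2 hx)

theorem osc_of_pos (b c α β : ℝ) {x : ℝ} (hx : 0 < x) : osc b c α β x =
    x ^ c * (α * Real.cos (x ^ (-b)) + β * Real.sin (x ^ (-b))) := if_pos hx

theorem abs_osc_le (b c α β x : ℝ) : |osc b c α β x| ≤ (|α| + |β|) * |x| ^ c := by
  rcases le_or_gt x 0 with hx | hx
  · rw [osc_of_nonpos _ _ _ _ hx, abs_zero]
    positivity
  · rw [osc_of_pos _ _ _ _ hx, abs_mul, abs_of_pos hx, abs_of_pos (Real.rpow_pos_of_pos hx c),
      mul_comm]
    apply mul_le_mul_of_nonneg_right _ (Real.rpow_pos_of_pos hx c).le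
    have h1 := abs_add_le (α * Real.cos (x ^ (-b))) (β * Real.sin (x ^ (-b)))
    have h2 : |α * Real.cos (x ^ (-b))| ≤ |α| := by
      rw [abs_mul]
      exact mul_le_of_le_one_right (abs_nonneg _) (Real.abs_cos_le_one _)
    have h3 : |β * Real.sin (x ^ (-b))| ≤ |β| := by
      rw [abs_mul]
      exact mul_le_of_le_one_right (abs_nonneg _) (Real.abs_sin_le_one _)
    linarith

theorem osc_isBigO (b c α β : ℝ) : osc b c α β =O[𝓝 0] (fun x : ℝ => |x| ^ c) := by
  refine IsBigO.of_bound (|α| + |β|) (Eventually.of_forall fun x => ?_)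
  rw [Real.norm_eq_abs, Real.norm_of_nonneg (by positivity)]
  exact abs_osc_le b c α β x

theorem tendsto_abs_rpow {c : ℝ} (hc : 0 < c) : Tendsto (fun x : ℝ => |x| ^ c) (𝓝 0) (𝓝 0) := by
  have h1 : Continuous fun x : ℝ => |x| ^ c := continuous_abs.rpow_const fun x => Or.inr hc.le
  have := h1.tendsto 0
  simpa [Real.zero_rpow hc.ne'] using this

/-- `|x| ^ c = o(x)` for `c > 1`. -/
theorem abs_rpow_isLittleO {c : ℝ} (hc : 1 < c) :
    (fun x : ℝ => |x| ^ c) =o[𝓝 0] (fun x : ℝ => x) := by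
  have h1 := (isBigO_refl (fun x : ℝ => |x|) (𝓝 0)).mul_isLittleO
    ((isLittleO_one_iff ℝ).2 (tendsto_abs_rpow (sub_pos.2 hc)))
  have h2 : (fun x : ℝ => |x| * |x| ^ (c - 1)) = fun x : ℝ => |x| ^ c := by
    funext x
    rcases eq_or_ne x 0 with rfl | hx
    · rw [abs_zero, zero_mul, Real.zero_rpow (by linarith)]
    · have hx' : 0 < |x| := abs_pos.2 hx
      rw [Real.rpow_sub hx', Real.rpow_one]
      field_simp
  rw [h2] at h1
  simp only [mul_one] at h1
  exact h1.trans_isBigO (isBigO_refl _ _).abs_left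

theorem hasDerivAt_osc {b c : ℝ} (α β : ℝ) (hc : 1 < c) (x : ℝ) :
    HasDerivAt (osc b c α β)
      (c * osc b (c - 1) α β x + osc b (c - b - 1) (-b * β) (b * α) x) x := by
  rcases lt_trichotomy x 0 with hx | rfl | hx
  · rw [osc_of_nonpos _ _ _ _ hx.le, osc_of_nonpos _ _ _ _ hx.le, mul_zero, add_zero]
    refine (hasDerivAt_const x (0 : ℝ)).congr_of_eventuallyEq ?_
    filter_upwards [Iio_mem_nhds hx] with y hy
    exact osc_of_nonpos _ _ _ _ (le_of_lt hy)
  · rw [osc_of_nonpos _ _ _ _ le_rfl, osc_of_nonpos _ _ _ _ le_rfl, mul_zero, add_zero,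
      hasDerivAt_iff_isLittleO]
    have h1 := (osc_isBigO b c α β).trans_isLittleO (abs_rpow_isLittleO hc)
    refine (h1.congr_left fun x => ?_).congr_right fun x => (sub_zero x).symm
    rw [osc_of_nonpos b c α β le_rfl]
    simp
  · rw [osc_of_pos _ _ _ _ hx, osc_of_pos _ _ _ _ hx]
    have h1 : HasDerivAt (fun y : ℝ => y ^ c) (c * x ^ (c - 1)) x :=
      Real.hasDerivAt_rpow_const (Or.inl hx.ne')
    have h2 : HasDerivAt (fun y : ℝ => y ^ (-b)) (-b * x ^ (-b - 1)) x :=
      Real.hasDerivAt_rpow_const (Or.inl hx.ne')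
    have h3 := h1.mul ((h2.cos.const_mul α).add (h2.sin.const_mul β))
    have h4 : HasDerivAt (osc b c α β) _ x := h3.congr_of_eventuallyEq (by
      filter_upwards [Ioi_mem_nhds hx] with y hy
      rw [osc_of_pos _ _ _ _ hy]
      rfl)
    refine h4.congr_deriv ?_
    have h5 : x ^ (c - b - 1) = x ^ c * x ^ (-b - 1) := by
      rw [← Real.rpow_add hx]
      congr 1
      ring
    rw [h5]
    simp only [Pi.add_apply]
    ring

theorem continuous_osc {b c : ℝ} (α β : ℝ) (hc : 0 < c) : Continuous (osc b c α β) := by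
  rw [continuous_iff_continuousAt]
  intro x
  rcases lt_trichotomy x 0 with hx | rfl | hx
  · refine (continuousAt_const (y := (0 : ℝ))).congr ?_
    filter_upwards [Iio_mem_nhds hx] with y hy
    exact (osc_of_nonpos _ _ _ _ (le_of_lt hy)).symm
  · show Tendsto _ _ _
    rw [osc_of_nonpos _ _ _ _ le_rfl]
    exact (osc_isBigO b c α β).trans_tendsto (tendsto_abs_rpow hc)
  · have h1 : ContinuousAt (fun x : ℝ => x ^ c *
        (α * Real.cos (x ^ (-b)) + β * Real.sin (x ^ (-b)))) x := by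
      have h2 : ContinuousAt (fun y : ℝ => y ^ c) x :=
        Real.continuousAt_rpow_const _ _ (Or.inl hx.ne')
      have h3 : ContinuousAt (fun y : ℝ => y ^ (-b)) x :=
        Real.continuousAt_rpow_const _ _ (Or.inl hx.ne')
      have h4 : ContinuousAt (fun y : ℝ => Real.cos (y ^ (-b))) x :=
        ContinuousAt.comp (g := Real.cos) Real.continuous_cos.continuousAt h3
      have h5 : ContinuousAt (fun y : ℝ => Real.sin (y ^ (-b))) x :=
        ContinuousAt.comp (g := Real.sin) Real.continuous_sin.continuousAt h3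
      exact h2.mul ((continuousAt_const.mul h4).add (continuousAt_const.mul h5))
    refine h1.congr ?_
    filter_upwards [Ioi_mem_nhds hx] with y hy
    exact (osc_of_pos _ _ _ _ hy).symm

theorem deriv_osc {b c : ℝ} (α β : ℝ) (hc : 1 < c) : deriv (osc b c α β) =
    fun x => c * osc b (c - 1) α β x + osc b (c - b - 1) (-b * β) (b * α) x := by
  funext x
  exact (hasDerivAt_osc α β hc x).deriv

theorem contDiff_osc {b : ℝ} (hb : 0 < b) (m : ℕ) : ∀ {c : ℝ} (α β : ℝ), m * (1 + b) < c →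
    ContDiff ℝ m (osc b c α β) := by
  induction m with
  | zero =>
    intro c α β hc
    rw [Nat.cast_zero, zero_mul] at hc
    exact contDiff_zero.2 (continuous_osc α β hc)
  | succ m ih =>
    intro c α β hc
    push_cast at hc
    have hm : (0 : ℝ) ≤ m * (1 + b) := by positivity
    have hc1 : 1 < c := by nlinarith
    have e : ((m + 1 : ℕ) : WithTop ℕ∞) = (m : WithTop ℕ∞) + 1 := by push_cast; rfl
    rw [e, contDiff_succ_iff_deriv]
    refine ⟨fun x => (hasDerivAt_osc α β hc1 x).differentiableAt, ?_, ?_⟩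
    · intro h
      exact absurd h (by simp)
    · rw [deriv_osc α β hc1]
      exact (contDiff_const.mul (ih α β (by linarith))).add (ih _ _ (by linarith))

/-- The leading term of the `k`-th derivative. -/
theorem exists_iteratedDeriv_osc {b : ℝ} (hb : 0 < b) (k : ℕ) : ∀ {c : ℝ} (α β : ℝ),
    k * (1 + b) < c → ∃ α' β' : ℝ, α' ^ 2 + β' ^ 2 = b ^ (2 * k) * (α ^ 2 + β ^ 2) ∧
      (fun x => iteratedDeriv k (osc b c α β) x - osc b (c - k * (1 + b)) α' β' x)
        =O[𝓝 0] (fun x : ℝ => |x| ^ (c - k * (1 + b) + b)) := by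
  induction k with
  | zero =>
    intro c α β hc
    refine ⟨α, β, by simp, ?_⟩
    refine (isBigO_zero _ _).congr_left fun x => ?_
    simp
  | succ k ih =>
    intro c α β hc
    push_cast at hc
    have hk : (0 : ℝ) ≤ k * (1 + b) := by positivity
    have hc1 : 1 < c := by nlinarith
    obtain ⟨α₁, β₁, -, h1⟩ := ih (c := c - 1) α β (by linarith)
    obtain ⟨α₂, β₂, e2, h2⟩ := ih (c := c - b - 1) (-b * β) (b * α) (by linarith)
    refine ⟨α₂, β₂, ?_, ?_⟩
    · rw [e2]
      ring
    · have ex : c - b - 1 - k * (1 + b) = c - ((k + 1 : ℕ) : ℝ) * (1 + b) := by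
        push_cast; ring
      rw [ex] at h2
      -- the first term is of lower order
      have h3 : iteratedDeriv k (osc b (c - 1) α β) =O[𝓝 0]
          (fun x : ℝ => |x| ^ (c - ((k + 1 : ℕ) : ℝ) * (1 + b) + b)) := by
        have e3 : c - ((k + 1 : ℕ) : ℝ) * (1 + b) + b = c - 1 - k * (1 + b) := by
          push_cast; ring
        rw [e3]
        have h4 : (fun x : ℝ => |x| ^ (c - 1 - k * (1 + b) + b)) =O[𝓝 0]
            (fun x : ℝ => |x| ^ (c - 1 - k * (1 + b))) := by
          refine IsBigO.of_bound 1 ?_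
          filter_upwards [Metric.ball_mem_nhds (0 : ℝ) one_pos] with x hx
          have hx1 : |x| < 1 := by simpa using hx
          rw [Real.norm_of_nonneg (by positivity), Real.norm_of_nonneg (by positivity), one_mul]
          rcases eq_or_ne x 0 with rfl | hx0
          · rw [abs_zero, Real.zero_rpow (by nlinarith), Real.zero_rpow (by nlinarith)]
          · exact Real.rpow_le_rpow_of_exponent_ge (abs_pos.2 hx0) hx1.le (by linarith)
        have h5 := (h1.trans h4).add (osc_isBigO b (c - 1 - k * (1 + b)) α₁ β₁)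
        exact h5.congr_left fun x => by ring
      have h6 := (h3.const_mul_left c).add h2
      refine h6.congr_left fun x => ?_
      rw [iteratedDeriv_succ', deriv_osc α β hc1]
      have cd1 : ContDiffAt ℝ k (fun x => c * osc b (c - 1) α β x) x :=
        (contDiff_const.mul (contDiff_osc hb k α β (by linarith))).contDiffAt
      have cd2 : ContDiffAt ℝ k (osc b (c - b - 1) (-b * β) (b * α)) x :=
        (contDiff_osc hb k _ _ (by linarith)).contDiffAt
      rw [iteratedDeriv_fun_add cd1 cd2, iteratedDeriv_const_mul_field]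
      ring

/-- The remainder of the `k`-th derivative of `x ^ a cos (x ^ (-b))`. -/
theorem tau_osc {b c : ℝ} (hb : 0 < b) (k : ℕ) (hc : ((k + 1 : ℕ) : ℝ) * (1 + b) < c) :
    ∃ α' β' : ℝ, α' ^ 2 + β' ^ 2 ≠ 0 ∧
      (fun x => tau (iteratedDeriv k (osc b c 1 0)) x - osc b (c - k * (1 + b)) α' β' x)
        =O[𝓝 0] (fun x : ℝ => |x| ^ (c - k * (1 + b) + b)) := by
  push_cast at hc
  obtain ⟨α', β', e, h⟩ := exists_iteratedDeriv_osc hb k (c := c) 1 0 (by linarith)
  refine ⟨α', β', ?_, ?_⟩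
  · rw [e]
    have : 0 < b ^ (2 * k) := by positivity
    positivity
  · set F := iteratedDeriv k (osc b c 1 0) with hF
    set c' := c - k * (1 + b) with hc'
    have hc1 : 1 < c' := by
      rw [hc']
      linarith
    have h4 : (fun x : ℝ => |x| ^ (c' + b)) =O[𝓝 0] (fun x : ℝ => |x| ^ c') := by
      refine IsBigO.of_bound 1 ?_
      filter_upwards [Metric.ball_mem_nhds (0 : ℝ) one_pos] with x hx
      have hx1 : |x| < 1 := by simpa using hx
      rw [Real.norm_of_nonneg (by positivity), Real.norm_of_nonneg (by positivity), one_mul]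
      rcases eq_or_ne x 0 with rfl | hx0
      · rw [abs_zero, Real.zero_rpow (by linarith), Real.zero_rpow (by linarith)]
      · exact Real.rpow_le_rpow_of_exponent_ge (abs_pos.2 hx0) hx1.le (by linarith)
    have h5 : F =O[𝓝 0] (fun x : ℝ => |x| ^ c') := by
      have := (h.trans h4).add (osc_isBigO b c' α' β')
      exact this.congr_left fun x => by ring
    have hF0 : F 0 = 0 := by
      have h6 := h5.eq_zero_imp.self_of_nhds
      apply h6
      rw [abs_zero, Real.zero_rpow (by linarith)]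
    have hF1 : deriv F 0 = 0 := by
      apply HasDerivAt.deriv
      rw [hasDerivAt_iff_isLittleO]
      have h7 := h5.trans_isLittleO (abs_rpow_isLittleO hc1)
      refine (h7.congr_left fun x => ?_).congr_right fun x => (sub_zero x).symm
      rw [hF0]
      simp
    refine h.congr_left fun x => ?_
    simp only [tau]
    rw [hF0, hF1]
    ring

theorem not_isTors_osc {b c δ : ℝ} (hb : 0 < b) {k : ℕ} (hc : ((k + 1 : ℕ) : ℝ) * (1 + b) < c)
    (hc2 : c ≤ 2 + k * (1 + b)) (hδ : δ ≠ 0) :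
    ¬ IsTors (k - 1) (fun x => δ * tau (iteratedDeriv k (osc b c 1 0)) x) := by
  rintro ⟨a, ha, hav⟩
  obtain ⟨α', β', hne, h⟩ := tau_osc hb k hc
  push_cast at hc
  set F := tau (iteratedDeriv k (osc b c 1 0)) with hF
  set c' := c - k * (1 + b) with hc'
  have hc1 : 1 < c' := by
    rw [hc']
    linarith
  have hc2' : c' ≤ 2 := by
    rw [hc']
    linarith
  obtain ⟨C, hC⟩ := smul_cls_eq_zero _ _ _ hav
  -- the change of variables `x = X ^ (-1 / b)`
  set φ : ℝ → ℝ := fun X => X ^ (-(1 / b)) with hφ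
  have hφ0 : Tendsto φ atTop (𝓝 0) := tendsto_rpow_neg_atTop (by positivity)
  have hφpos : ∀ᶠ X in atTop, 0 < φ X := by
    filter_upwards [eventually_gt_atTop 0] with X hX
    exact Real.rpow_pos_of_pos hX _
  have hφb : ∀ᶠ X : ℝ in atTop, φ X ^ (-b) = X := by
    filter_upwards [eventually_gt_atTop 0] with X hX
    rw [hφ, ← Real.rpow_mul hX.le]
    have : -(1 / b) * -b = 1 := by field_simp
    rw [this, Real.rpow_one]
  -- the limit of `C x ^ 2 / x ^ c'`
  have hlimC : ∃ L : ℝ, Tendsto (fun X => C * (φ X) ^ 2 / φ X ^ c') atTop (𝓝 L) := by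
    rcases hc2'.lt_or_eq with hlt | heq
    · refine ⟨0, ?_⟩
      have h1 : Tendsto (fun x : ℝ => C * |x| ^ (2 - c')) (𝓝 0) (𝓝 (C * 0)) :=
        (tendsto_abs_rpow (sub_pos.2 hlt)).const_mul C
      rw [mul_zero] at h1
      refine (h1.comp hφ0).congr' ?_
      filter_upwards [hφpos] with X hX
      simp only [Function.comp]
      rw [abs_of_pos hX, Real.rpow_sub hX, mul_div_assoc]
      norm_num
    · refine ⟨C, ?_⟩
      refine (tendsto_const_nhds (x := C)).congr' ?_
      filter_upwards [hφpos] with X hX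
      rw [heq]
      norm_num
      rw [mul_div_assoc, div_self (by positivity), mul_one]
  obtain ⟨L, hL⟩ := hlimC
  -- the remainder `o(x ^ 2) / x ^ c'` tends to zero
  have hsmall : ∀ R : ℝ → ℝ, R =o[𝓝 0] (fun x : ℝ => x ^ 2) →
      Tendsto (fun X => R (φ X) / φ X ^ c') atTop (𝓝 0) := by
    intro R hR
    have h1 : (fun x : ℝ => x ^ 2) =O[𝓝 0] (fun x : ℝ => |x| ^ c') := by
      refine IsBigO.of_bound 1 ?_
      filter_upwards [Metric.ball_mem_nhds (0 : ℝ) one_pos] with x hx
      have hx1 : |x| < 1 := by simpa using hx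
      rw [Real.norm_of_nonneg (by positivity), Real.norm_of_nonneg (by positivity), one_mul]
      rcases eq_or_ne x 0 with rfl | hx0
      · rw [abs_zero, Real.zero_rpow (by linarith)]
        norm_num
      · have h2 : x ^ 2 = |x| ^ (2 : ℝ) := by
          rw [Real.rpow_two, sq_abs]
        rw [h2]
        exact Real.rpow_le_rpow_of_exponent_ge (abs_pos.2 hx0) hx1.le hc2'
    have h2 := ((hR.trans_isBigO h1).comp_tendsto hφ0).tendsto_div_nhds_zero
    refine h2.congr' ?_
    filter_upwards [hφpos] with X hX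
    simp only [Function.comp]
    rw [abs_of_pos hX]
  have hbig : ∀ R : ℝ → ℝ, R =O[𝓝 0] (fun x : ℝ => |x| ^ (c' + b)) →
      Tendsto (fun X => R (φ X) / φ X ^ c') atTop (𝓝 0) := by
    intro R hR
    have h1 : Tendsto (fun x : ℝ => |x| ^ b) (𝓝 0) (𝓝 0) := tendsto_abs_rpow hb
    have h2 : (fun X => R (φ X) / φ X ^ c') =O[atTop] (fun X => |φ X| ^ b) := by
      obtain ⟨K, hK⟩ := (hR.comp_tendsto hφ0).bound
      refine IsBigO.of_bound K ?_
      filter_upwards [hK, hφpos] with X hX hX0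
      simp only [Function.comp] at hX
      have h3 : (0 : ℝ) < φ X ^ c' := Real.rpow_pos_of_pos hX0 _
      rw [norm_div, Real.norm_of_nonneg h3.le, div_le_iff₀ h3]
      refine hX.trans (le_of_eq ?_)
      rw [Real.norm_of_nonneg (by positivity), Real.norm_of_nonneg (by positivity),
        abs_of_pos hX0, Real.rpow_add hX0]
      ring
    exact h2.trans_tendsto (h1.comp hφ0)
  -- the trigonometric sum
  have hterm : ∀ t : ℝ, Tendsto (fun X => F (Real.exp t * φ X) / φ X ^ c' -
      Real.exp t ^ c' * (α' * Real.cos (Real.exp t ^ (-b) * X) +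
        β' * Real.sin (Real.exp t ^ (-b) * X))) atTop (𝓝 0) := by
    intro t
    have he : 0 < Real.exp t := Real.exp_pos t
    have h1 : (fun x : ℝ => F (Real.exp t * x) - osc b c' α' β' (Real.exp t * x)) =O[𝓝 0]
        (fun x : ℝ => |x| ^ (c' + b)) := by
      have h2 : Tendsto (fun x : ℝ => Real.exp t * x) (𝓝 0) (𝓝 0) := by
        simpa using (continuous_const_mul (Real.exp t)).tendsto (0 : ℝ)
      refine (h.comp_tendsto h2).trans ?_
      refine IsBigO.of_bound (Real.exp t ^ (c' + b)) (Eventually.of_forall fun x => ?_)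
      simp only [Function.comp]
      rw [Real.norm_of_nonneg (by positivity), Real.norm_of_nonneg (by positivity), abs_mul,
        abs_of_pos he, Real.mul_rpow he.le (abs_nonneg x)]
    refine (hbig _ h1).congr' ?_
    filter_upwards [hφpos, hφb] with X hX hXb
    have h3 : 0 < Real.exp t * φ X := by positivity
    have h4 : (0 : ℝ) < φ X ^ c' := Real.rpow_pos_of_pos hX _
    rw [osc_of_pos _ _ _ _ h3, Real.mul_rpow he.le hX.le, Real.mul_rpow he.le hX.le, hXb]
    field_simp
  have hsum : Tendsto (fun X => ∑ t ∈ a.coeff.support, ((a.coeff t : ℝ) * Real.exp t ^ (k - 1) *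
      δ * Real.exp t ^ c') * (α' * Real.cos (Real.exp t ^ (-b) * X) +
        β' * Real.sin (Real.exp t ^ (-b) * X))) atTop (𝓝 L) := by
    have h1 := hsmall _ hC
    have h2 : Tendsto (fun X => ∑ t ∈ a.coeff.support, ((a.coeff t : ℝ) * Real.exp t ^ (k - 1) *
        δ) * (F (Real.exp t * φ X) / φ X ^ c' -
          Real.exp t ^ c' * (α' * Real.cos (Real.exp t ^ (-b) * X) +
          β' * Real.sin (Real.exp t ^ (-b) * X)))) atTop (𝓝 (∑ t ∈ a.coeff.support,
          ((a.coeff t : ℝ) * Real.exp t ^ (k - 1) * δ) * 0)) :=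
      tendsto_finsetSum _ fun t _ => (hterm t).const_mul _
    have h3 := (h1.add hL).sub h2
    simp only [mul_zero, Finset.sum_const_zero, sub_zero, zero_add] at h3
    refine h3.congr fun X => ?_
    rw [← sub_eq_zero]
    have h4 : (∑ t ∈ a.coeff.support, (a.coeff t : ℝ) * (Real.exp t ^ (k - 1) *
        (δ * F (Real.exp t * φ X)))) / φ X ^ c' = ∑ t ∈ a.coeff.support,
        ((a.coeff t : ℝ) * Real.exp t ^ (k - 1) * δ) * (F (Real.exp t * φ X) / φ X ^ c') := by
      rw [Finset.sum_div]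
      apply Finset.sum_congr rfl
      intro t _
      ring
    rw [sub_div, h4]
    have h5 : ∀ (S U V T : ℝ), (U - V + V) - T - S = (U - T) - S := by intros; ring
    rw [h5, ← Finset.sum_sub_distrib, ← Finset.sum_sub_distrib]
    apply Finset.sum_eq_zero
    intro t _
    ring
  have hinj : Set.InjOn (fun t : ℝ => Real.exp t ^ (-b)) (a.coeff.support : Set ℝ) := by
    intro s _ t _ hst
    simp only [← Real.exp_mul] at hst
    have h1 := Real.exp_injective hst
    have h2 : s * b = t * b := by linarith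
    exact mul_right_cancel₀ hb.ne' h2
  have hind := trig_independent a.coeff.support (fun t : ℝ => Real.exp t ^ (-b))
    (fun t _ => Real.rpow_pos_of_pos (Real.exp_pos t) _) hinj
    (fun t => ((a.coeff t : ℝ) * Real.exp t ^ (k - 1) * δ * Real.exp t ^ c') * α')
    (fun t => ((a.coeff t : ℝ) * Real.exp t ^ (k - 1) * δ * Real.exp t ^ c') * β') L
    (hsum.congr fun X => by
      apply Finset.sum_congr rfl
      intro t _
      ring)
  apply ha
  ext t
  by_contra hnet
  have ht : t ∈ a.coeff.support := by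
    rw [Finsupp.mem_support_iff]
    simpa using hnet
  obtain ⟨h1, h2⟩ := hind t ht
  have h10 : (a.coeff t : ℝ) ≠ 0 := by
    exact_mod_cast Finsupp.mem_support_iff.1 ht
  have h11 : (a.coeff t : ℝ) * Real.exp t ^ (k - 1) * δ * Real.exp t ^ c' ≠ 0 := by
    have h12 : Real.exp t ^ c' ≠ 0 := (Real.rpow_pos_of_pos (Real.exp_pos t) _).ne'
    have := Real.exp_pos t
    positivity
  have h13 : α' = 0 := (mul_eq_zero.1 h1).resolve_left h11
  have h14 : β' = 0 := (mul_eq_zero.1 h2).resolve_left h11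
  rw [h13, h14] at hne
  simp at hne

/-- The general perturbation principle, with `r = k + 1`. -/
theorem perturbation {k : ℕ} (hk : 1 ≤ k) {f h : ℝ → ℝ}
    (hf : ContDiffAt ℝ ((k + 1 : ℕ) : WithTop ℕ∞) f 0) (h0 : f 0 = 0) (h1 : deriv f 0 = 1)
    (hh : ContDiffAt ℝ ((k + 1 : ℕ) : WithTop ℕ∞) h 0) (hh0 : h 0 = 0) (hh1 : HasDerivAt h 0 0)
    (hnt : ∀ δ : ℝ, δ ≠ 0 → ¬ IsTors (k - 1) (fun x => δ * tau (iteratedDeriv k h) x)) :
    (∀ ε : ℝ, ∃ g : G ((k + 1 : ℕ) : WithTop ℕ∞), IsGermOf g (fun x => f x + ε * h x)) ∧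
    {ε : ℝ | ∃ g : G ((k + 1 : ℕ) : WithTop ℕ∞), IsGermOf g (fun x => f x + ε * h x) ∧
        IsDistortionElement g}.Subsingleton := by
  have hk0 : ((k + 1 : ℕ) : WithTop ℕ∞) ≠ 0 := by exact_mod_cast (by omega : k + 1 ≠ 0)
  have hder : ∀ ε : ℝ, HasDerivAt (fun x => f x + ε * h x) 1 0 := by
    intro ε
    have h2 : HasDerivAt f 1 0 := by
      rw [← h1]
      exact (hf.differentiableAt hk0).hasDerivAt
    have h3 := h2.add (hh1.const_mul ε)
    rw [mul_zero, add_zero] at h3
    exact h3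
  constructor
  · intro ε
    refine exists_germ (by omega) (hf.add (contDiffAt_const.mul hh)) ?_ ?_
    · simp [h0, hh0]
    · rw [(hder ε).deriv]
      exact one_ne_zero
  · rintro ε₁ ⟨g₁, hg₁, hd₁⟩ ε₂ ⟨g₂, hg₂, hd₂⟩
    by_contra hne
    have t₁ := (isTors_of_isDistortionElement hk hd₁ hg₁ (hder ε₁).deriv).congr
      (tau_iteratedDeriv_add_smul hf hh ε₁)
    have t₂ := (isTors_of_isDistortionElement hk hd₂ hg₂ (hder ε₂).deriv).congr
      (tau_iteratedDeriv_add_smul hf hh ε₂)
    have t₃ := t₁.sub t₂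
    apply hnt _ (sub_ne_zero.2 hne)
    refine t₃.congr ?_
    filter_upwards with x
    ring

/-- **Theorem C**, with `r = k + 1`. -/
theorem osc_perturbation {k : ℕ} (hk : 1 ≤ k) {f : ℝ → ℝ}
    (hf : ContDiffAt ℝ ((k + 1 : ℕ) : WithTop ℕ∞) f 0) (h0 : f 0 = 0) (h1 : deriv f 0 = 1)
    {a b : ℝ} (hb : 0 < b) (ha : ((k + 1 : ℕ) : ℝ) * (1 + b) < a)
    (ha2 : a ≤ 2 + k * (1 + b)) :
    (∀ ε : ℝ, ∃ g : G ((k + 1 : ℕ) : WithTop ℕ∞), IsGermOf g
      (fun x => f x + ε * (if 0 < x then x ^ a * Real.cos (x ^ (-b)) else 0))) ∧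
    {ε : ℝ | ∃ g : G ((k + 1 : ℕ) : WithTop ℕ∞), IsGermOf g
      (fun x => f x + ε * (if 0 < x then x ^ a * Real.cos (x ^ (-b)) else 0)) ∧
        IsDistortionElement g}.Subsingleton := by
  have e : (fun x : ℝ => if 0 < x then x ^ a * Real.cos (x ^ (-b)) else 0) = osc b a 1 0 := by
    funext x
    unfold osc
    simp
  have ha1 : 1 < a := by
    push_cast at ha
    have : (0 : ℝ) ≤ k * (1 + b) := by positivity
    nlinarith
  have h2 := perturbation hk hf h0 h1 (contDiff_osc hb (k + 1) 1 0 ha).contDiffAt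
    (osc_of_nonpos b a 1 0 le_rfl) (by
      have := hasDerivAt_osc (b := b) (c := a) 1 0 ha1 0
      rw [osc_of_nonpos _ _ _ _ le_rfl, osc_of_nonpos _ _ _ _ le_rfl, mul_zero, add_zero] at this
      exact this)
    (fun δ hδ => not_isTors_osc hb ha ha2 hδ)
  have e' : ∀ ε : ℝ, (fun x : ℝ => f x + ε * (if 0 < x then x ^ a * Real.cos (x ^ (-b)) else 0)) =
      fun x => f x + ε * osc b a 1 0 x := by
    intro ε
    funext x
    rw [← e]
  simp only [e']
  exact h2

end Run7.h21
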